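import Pool.Agent.H626.SE.LogDense

/-!
# Square energy: partition of a connected graph into connected blocks around a vertex set
-/

set_option autoImplicit false

namespace Pool.Agent.H626.SE

open Finset Helper76SE

section blocks2

variable {V : Type*} [Fintype V] [DecidableEq V]

omit [Fintype V] [DecidableEq V] in
theorem leave (G : SimpleGraph V) (hG : G.Connected) (S : Set V) (a : V) (ha : a ∈ S) (b : V)
    (hb : b ∉ S) : ∃ v w, G.Adj v w ∧ v ∈ S ∧ w ∉ S := by
  obtain ⟨p⟩ := hG.preconnected a b
  obtain ⟨d, _, hd1, hd2⟩ := p.exists_boundary_dart S ha hb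
  exact ⟨d.fst, d.snd, d.adj, hd1, hd2⟩

/-- Every vertex of a connected graph can be assigned to a vertex of `U` in such a way that the
classes are connected. -/
theorem exists_blocks (G : SimpleGraph V) (hG : G.Connected) (U : Finset V) (hU : U.Nonempty) :
    ∃ f : V → V, (∀ v, f v ∈ U) ∧ (∀ u ∈ U, f u = u) ∧
      ∀ u ∈ U, (G.induce {v | f v = u}).Connected := by
  have main : ∀ (m : ℕ) (S : Finset V), (univ \ S).card = m → U ⊆ S → (∃ f : V → V,
      (∀ v ∈ S, f v ∈ U) ∧ (∀ u ∈ U, f u = u) ∧
      ∀ u ∈ U, (G.induce {v | v ∈ S ∧ f v = u}).Connected) →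
      ∃ f : V → V, (∀ v, f v ∈ U) ∧ (∀ u ∈ U, f u = u) ∧
      ∀ u ∈ U, (G.induce {v | f v = u}).Connected := by
    intro m
    induction m with
    | zero =>
      rintro S hS hUS ⟨f, h1, h2, h3⟩
      have hall : ∀ v, v ∈ S := by
        intro v
        by_contra hv
        have : v ∈ univ \ S := mem_sdiff.mpr ⟨mem_univ v, hv⟩
        rw [card_eq_zero.mp hS] at this
        exact absurd this (notMem_empty v)
      refine ⟨f, fun v => h1 v (hall v), h2, fun u hu => ?_⟩
      have := h3 u hu
      have e : {v | v ∈ S ∧ f v = u} = {v | f v = u} := by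
        ext v
        exact ⟨fun h => h.2, fun h => ⟨hall v, h⟩⟩
      rw [e] at this
      exact this
    | succ m ih =>
      rintro S hS hUS ⟨f, h1, h2, h3⟩
      obtain ⟨b, hb⟩ : (univ \ S).Nonempty := card_pos.mp (by omega)
      obtain ⟨a, ha⟩ := hU
      obtain ⟨v, w, hvw, hv, hw⟩ := leave G hG (S : Set V) a (hUS ha) b (mem_sdiff.mp hb).2
      have hv' : v ∈ S := hv
      have hw' : w ∉ S := hw
      have hwv : w ≠ v := fun h => hw' (h ▸ hv')
      have hwU : ∀ u ∈ U, u ≠ w := fun u hu h => hw' (h ▸ hUS hu)
      refine ih (insert w S) ?_ (hUS.trans (subset_insert _ _)) ⟨Function.update f w (f v), ?_, ?_, ?_⟩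
      · have : univ \ insert w S = (univ \ S).erase w := by
          ext x
          simp only [mem_sdiff, mem_univ, true_and, mem_insert, mem_erase, not_or]
        rw [this, card_erase_of_mem (mem_sdiff.mpr ⟨mem_univ w, hw'⟩), hS]
        rfl
      · intro x hx
        rcases mem_insert.mp hx with rfl | hx
        · rw [Function.update_self]
          exact h1 v hv'
        · have : x ≠ w := fun h => hw' (h ▸ hx)
          rw [Function.update_of_ne this]
          exact h1 x hx
      · intro u hu
        rw [Function.update_of_ne (hwU u hu)]
        exact h2 u hu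
      · intro u hu
        by_cases hfu : f v = u
        · have e : {x | x ∈ insert w S ∧ Function.update f w (f v) x = u}
              = {x | x ∈ S ∧ f x = u} ∪ {v, w} := by
            ext x
            constructor
            · rintro ⟨hx1, hx2⟩
              by_cases hxw : x = w
              · exact Or.inr (Or.inr hxw)
              · rw [Function.update_of_ne hxw] at hx2
                rcases mem_insert.mp hx1 with h | h
                · exact absurd h hxw
                · exact Or.inl ⟨h, hx2⟩
            · rintro (⟨hx1, hx2⟩ | hx)
              · have : x ≠ w := fun h => hw' (h ▸ hx1)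
                exact ⟨mem_insert_of_mem hx1, by rw [Function.update_of_ne this]; exact hx2⟩
              · rcases hx with rfl | hx
                · exact ⟨mem_insert_of_mem hv', by rw [Function.update_of_ne hwv.symm]; exact hfu⟩
                · have : x = w := hx
                  subst this
                  exact ⟨mem_insert_self _ _, by rw [Function.update_self]; exact hfu⟩
          rw [e]
          exact SimpleGraph.induce_union_connected (h3 u hu).preconnected
            (SimpleGraph.induce_pair_connected_of_adj hvw).preconnected
            ⟨v, ⟨hv', hfu⟩, Or.inl rfl⟩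
        · have e : {x | x ∈ insert w S ∧ Function.update f w (f v) x = u}
              = {x | x ∈ S ∧ f x = u} := by
            ext x
            constructor
            · rintro ⟨hx1, hx2⟩
              by_cases hxw : x = w
              · rw [hxw, Function.update_self] at hx2
                exact absurd hx2 hfu
              · rw [Function.update_of_ne hxw] at hx2
                rcases mem_insert.mp hx1 with h | h
                · exact absurd h hxw
                · exact ⟨h, hx2⟩
            · rintro ⟨hx1, hx2⟩
              have : x ≠ w := fun h => hw' (h ▸ hx1)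
              exact ⟨mem_insert_of_mem hx1, by rw [Function.update_of_ne this]; exact hx2⟩
          rw [e]
          exact h3 u hu
  refine main _ U rfl (Subset.refl _) ⟨id, fun v hv => hv, fun u _ => rfl, fun u hu => ?_⟩
  have e : {v | v ∈ U ∧ id v = u} = {u} := by
    ext x
    constructor
    · rintro ⟨_, h⟩
      exact h
    · intro h
      have : x = u := h
      subst this
      exact ⟨hu, rfl⟩
  rw [e]
  have : Subsingleton ({u} : Set V) := inferInstance
  exact ⟨SimpleGraph.Preconnected.of_subsingleton⟩

/-- The blocks contribute at least `n - |U|`. -/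
theorem block_bound (G : SimpleGraph V) [DecidableRel G.Adj] (U : Finset V) (f : V → V)
    (hf : ∀ v, f v ∈ U) (hconn : ∀ u ∈ U, (G.induce {v | f v = u}).Connected)
    {ι : Type*} [Fintype ι] (p : ι → ℝ) (hp : ∀ k, 0 ≤ p k) (B : V → ι → ℝ) :
    (Fintype.card V : ℝ) - U.card ≤ ∑ i, ∑ j, if f i = f j then
      ((if G.Adj i j then (1 : ℝ) else 0) + ∑ k, p k * B i k * B j k) ^ 2 else 0 := by
  classical
  set g : V → V → ℝ := fun i j => ((if G.Adj i j then (1 : ℝ) else 0)
    + ∑ k, p k * B i k * B j k) ^ 2 with hg
  have e0 : ∑ i, ∑ j, (if f i = f j then g i j else 0)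
      = ∑ c, ∑ i ∈ univ.filter (fun i => f i = c), ∑ j ∈ univ.filter (fun j => f j = c), g i j := by
    rw [← sum_fiberwise univ f (fun i => ∑ j, if f i = f j then g i j else 0)]
    refine sum_congr rfl fun c _ => sum_congr rfl fun i hi => ?_
    rw [sum_filter]
    refine sum_congr rfl fun j _ => ?_
    rw [(mem_filter.mp hi).2]
    by_cases h : c = f j
    · rw [if_pos h, if_pos h.symm]
    · rw [if_neg h, if_neg (fun h' => h h'.symm)]
  have h1 : ∀ c : V, ((univ.filter fun i => f i = c).card : ℝ) - (if c ∈ U then 1 else 0)
      ≤ ∑ i ∈ univ.filter (fun i => f i = c), ∑ j ∈ univ.filter (fun j => f j = c), g i j := by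
    intro c
    by_cases hc : c ∈ U
    · rw [if_pos hc]
      have h2 := gram_main (G.induce {v | f v = c}) (hconn c hc) p hp (fun i k => B i.1 k) (-1)
        (Or.inr rfl)
      have e1 : ∀ F : V → ℝ, ∑ i ∈ univ.filter (fun i => f i = c), F i
          = ∑ i : {v | f v = c}, F i.1 := by
        intro F
        refine (Finset.sum_subtype _ (fun x => ?_) F)
        simp
      have e2 : ((univ.filter fun i => f i = c).card : ℝ) = Fintype.card {v | f v = c} := by
        have := e1 (fun _ => 1)
        rw [sum_const, sum_const, nsmul_eq_mul, nsmul_eq_mul, mul_one, mul_one, card_univ] at this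
        exact this
      rw [e1, e2]
      refine h2.trans (le_of_eq ?_)
      refine sum_congr rfl fun i _ => ?_
      rw [e1]
      refine sum_congr rfl fun j _ => ?_
      rw [hg]
      simp only [SimpleGraph.comap_adj, Function.Embedding.subtype_apply]
      ring
    · rw [if_neg hc]
      have : (univ.filter fun i => f i = c) = ∅ := by
        rw [filter_eq_empty_iff]
        intro i _ h
        exact hc (h ▸ hf i)
      rw [this]
      simp
  have h2 : (Fintype.card V : ℝ) - U.card
      = ∑ c : V, (((univ.filter fun i => f i = c).card : ℝ) - (if c ∈ U then 1 else 0)) := by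
    rw [sum_sub_distrib]
    congr 1
    · have h3 := sum_fiberwise (univ : Finset V) f (fun _ => (1 : ℝ))
      simp only [sum_const, nsmul_eq_mul, mul_one, card_univ] at h3
      exact h3.symm
    · simp
  rw [e0, h2]
  exact sum_le_sum fun c _ => h1 c

end blocks2

end Pool.Agent.H626.SE
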