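import Pool.Graph.R_pool_sql_team_668148b0.Helper76.SquareEnergyD

/-!
# Square energy: the structure argument with non-strict inequalities

Variants with slightly better numerical constants of the lemmas of `SquareEnergyB` (library), so
that they can be used in the equality case of the main inequality.
-/

set_option autoImplicit false

namespace Pool.Agent.H626.SE

open Finset Helper76SE

theorem num1' (x : ℝ) (h0 : 0 ≤ x) (h1 : 2 * x ^ 2 ≤ 1) :
    0 ≤ 0.5278 - 4 * x + 8.9444 * x ^ 2 - 4 * x ^ 3 - 3 * x ^ 4 := by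
  have hx : x ≤ 0.7072 := by nlinarith
  have h2 : 0 ≤ (x - 0.3051) ^ 2 * (5.67 - 5.8306 * x - 3 * x ^ 2) := by
    by_cases h3 : 5.8306 * x + 3 * x ^ 2 ≤ 5.67
    · apply mul_nonneg (sq_nonneg _); linarith
    · exfalso
      nlinarith
  nlinarith [h2]

theorem num3' (x : ℝ) (h0 : 0 ≤ x) (h1 : 2 * x ^ 2 + 0.07605 ≤ 1) :
    0 ≤ 0.537563025 - 4 * x + 8.8489 * x ^ 2 - 4 * x ^ 3 - 3 * x ^ 4 := by
  have hx : x ≤ 0.68 := by nlinarith
  have h2 : 0 ≤ (x - 0.3137) ^ 2 * (5.4526 - 5.8822 * x - 3 * x ^ 2) := by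
    apply mul_nonneg (sq_nonneg _)
    nlinarith
  nlinarith [h2]

theorem g1' (x r μ : ℝ) (h0 : 0 ≤ x) (hr : 0 ≤ r) (hμ : 0 < μ)
    (hμ2 : μ ≤ 1 - 2 * x ^ 2 - 2 * r) : 0.4722 ≤ (1 - x) ^ 4 / μ + 2 * x ^ 2 := by
  refine gen 0.4722 0 x μ hμ (by linarith) ?_
  have := num1' x h0 (by linarith)
  nlinarith

theorem g3' (x r μ : ℝ) (h0 : 0 ≤ x) (hr : 0.038025 ≤ r) (hμ : 0 < μ)
    (hμ2 : μ ≤ 1 - 2 * x ^ 2 - 2 * r) : 0.5005 ≤ (1 - x) ^ 4 / μ + 2 * x ^ 2 := by
  refine gen 0.5005 0.038025 x μ hμ (by linarith) ?_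
  have := num3' x h0 (by linarith)
  nlinarith

variable {V : Type*} [DecidableEq V] {G : SimpleGraph V} {a c : V → V → ℝ}

/-- a vertex with a neighbour has a positive diagonal entry -/
theorem diag_pos (W : Wt G a c) {S : Finset V} {d : V → ℝ} (hQ : ∀ x, 0 ≤ Q c S d x)
    (hst : ∀ v ∈ S, d v + 2 * ∑ j ∈ S.erase v, a v j ^ 2 ≤ 1)
    {i j : V} (hi : i ∈ S) (hj : j ∈ S) (hij : G.Adj i j) : 0 < d i := by
  rcases (diag_nonneg W hQ hi).lt_or_eq with h | h
  · exact h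
  · exfalso
    have hdj := diag_nonneg W hQ hj
    have hc0 := W.hc0 i j
    have hc1 : c i j = 0 := by
      by_contra hne
      have hcp : 0 < c i j := lt_of_le_of_ne hc0 (Ne.symm hne)
      have h1 := Q_two W hQ hi hj hij.ne (-(d j + 1) / (2 * c i j)) 1
      rw [← h] at h1
      have h2 : 2 * c i j * (-(d j + 1) / (2 * c i j)) * 1 = -(d j + 1) := by field_simp
      rw [h2] at h1
      linarith
    have h2 := W.hca i j hij
    rw [hc1] at h2
    have h3 : a i j = 1 := by nlinarith [sq_nonneg (1 - a i j)]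
    have h4 := hst i hi
    rw [← add_sum_erase _ _ (mem_erase.2 ⟨hij.ne.symm, hj⟩), h3] at h4
    have h5 : 0 ≤ ∑ l ∈ (S.erase i).erase j, a i l ^ 2 := sum_nonneg fun l _ => sq_nonneg _
    have h6 := diag_nonneg W hQ hi
    nlinarith

/-- The conclusion of the three-vertex test. -/
theorem p3_core' (W : Wt G a c) {S : Finset V} {d : V → ℝ} (hQ : ∀ x, 0 ≤ Q c S d x)
    (hst : ∀ v ∈ S, d v + 2 * ∑ j ∈ S.erase v, a v j ^ 2 ≤ 1)
    {i j k : V} (hi : i ∈ S) (hj : j ∈ S) (hk : k ∈ S) (hij : G.Adj i j) (hjk : G.Adj j k)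
    (hik : i ≠ k) (hn : ¬ G.Adj i k) :
    ∃ gi gk : ℝ, gi + gk + 2 * ∑ l ∈ ((S.erase j).erase i).erase k, a j l ^ 2 ≤ 1 ∧
      0.4722 ≤ gi ∧ 0.4722 ≤ gk ∧ (a i j ≤ 0.195 → 0.528 ≤ gi) ∧ (a k j ≤ 0.195 → 0.528 ≤ gk) ∧
      (0.038025 ≤ ∑ l ∈ (S.erase i).erase j, a i l ^ 2 → 0.5005 ≤ gi) ∧
      (0.038025 ≤ ∑ l ∈ (S.erase k).erase j, a k l ^ 2 → 0.5005 ≤ gk) := by
  have hij' : i ≠ j := hij.ne
  have hjk' : j ≠ k := hjk.ne
  have hdi := diag_pos W hQ hst hi hj hij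
  have hdk := diag_pos W hQ hst hk hj hjk.symm
  set ri := ∑ l ∈ (S.erase i).erase j, a i l ^ 2 with hri
  set rk := ∑ l ∈ (S.erase k).erase j, a k l ^ 2 with hrk
  set rj := ∑ l ∈ ((S.erase j).erase i).erase k, a j l ^ 2 with hrj
  have hri0 : 0 ≤ ri := sum_nonneg fun l _ => sq_nonneg _
  have hrk0 : 0 ≤ rk := sum_nonneg fun l _ => sq_nonneg _
  have si := hst i hi
  have sk := hst k hk
  have sj := hst j hj
  rw [← add_sum_erase _ _ (mem_erase.2 ⟨hij'.symm, hj⟩), ← hri] at si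
  rw [← add_sum_erase _ _ (mem_erase.2 ⟨hjk', hj⟩), ← hrk] at sk
  rw [← add_sum_erase _ _ (mem_erase.2 ⟨hij', hi⟩),
    ← add_sum_erase _ _ (mem_erase.2 ⟨hik.symm, mem_erase.2 ⟨hjk'.symm, hk⟩⟩), ← hrj] at sj
  rw [W.has j i, W.has j k] at sj
  set α := a i j with hα
  set β := a k j with hβ
  have hα0 : 0 ≤ α := W.ha0 i j
  have hβ0 : 0 ≤ β := W.ha0 k j
  have hμi : 0 < 1 - 2 * α ^ 2 - 2 * ri := by linarith
  have hμk : 0 < 1 - 2 * β ^ 2 - 2 * rk := by linarith
  set μi := 1 - 2 * α ^ 2 - 2 * ri with hμi'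
  set μk := 1 - 2 * β ^ 2 - 2 * rk with hμk'
  have ht := Q_three W hQ hi hj hk hij' hjk' hik ((1 - α) ^ 2 / μi) (-1) ((1 - β) ^ 2 / μk)
  rw [W.hnc i k hn] at ht
  have hci : (1 - α) ^ 2 ≤ c i j := W.hca i j hij
  have hck : (1 - β) ^ 2 ≤ c j k := by rw [W.hcs j k]; exact W.hca k j hjk.symm
  have t1 : d i * ((1 - α) ^ 2 / μi) ^ 2 ≤ (1 - α) ^ 4 / μi := by
    have : (1 - α) ^ 4 / μi = μi * ((1 - α) ^ 2 / μi) ^ 2 := by
      field_simp
    rw [this]
    exact mul_le_mul_of_nonneg_right (by linarith) (sq_nonneg _)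
  have t2 : d k * ((1 - β) ^ 2 / μk) ^ 2 ≤ (1 - β) ^ 4 / μk := by
    have : (1 - β) ^ 4 / μk = μk * ((1 - β) ^ 2 / μk) ^ 2 := by
      field_simp
    rw [this]
    exact mul_le_mul_of_nonneg_right (by linarith) (sq_nonneg _)
  have t3 : (1 - α) ^ 4 / μi ≤ c i j * ((1 - α) ^ 2 / μi) := by
    have : (1 - α) ^ 4 / μi = (1 - α) ^ 2 * ((1 - α) ^ 2 / μi) := by
      ring
    rw [this]
    exact mul_le_mul_of_nonneg_right hci (by positivity)
  have t4 : (1 - β) ^ 4 / μk ≤ c j k * ((1 - β) ^ 2 / μk) := by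
    have : (1 - β) ^ 4 / μk = (1 - β) ^ 2 * ((1 - β) ^ 2 / μk) := by
      ring
    rw [this]
    exact mul_le_mul_of_nonneg_right hck (by positivity)
  refine ⟨(1 - α) ^ 4 / μi + 2 * α ^ 2, (1 - β) ^ 4 / μk + 2 * β ^ 2, ?_, ?_, ?_, ?_, ?_, ?_, ?_⟩
  · nlinarith
  · exact g1' α ri μi hα0 hri0 hμi le_rfl
  · exact g1' β rk μk hβ0 hrk0 hμk le_rfl
  · intro h; exact g2 α ri μi hα0 h hri0 hμi le_rfl
  · intro h; exact g2 β rk μk hβ0 h hrk0 hμk le_rfl
  · intro h; exact g3' α ri μi hα0 h hμi le_rfl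
  · intro h; exact g3' β rk μk hβ0 h hμk le_rfl

/-- The structure argument with non-strict inequalities. -/
theorem structure2 (W : Wt G a c) {S : Finset V} {d : V → ℝ} (hQ : ∀ x, 0 ≤ Q c S d x)
    (hc : Conn G S) (hcv : ∀ v ∈ S, Conn G (S.erase v))
    (hst : ∀ v ∈ S, d v + 2 * ∑ j ∈ S.erase v, a v j ^ 2 ≤ 1)
    {i j k : V} (hi : i ∈ S) (hj : j ∈ S) (hk : k ∈ S) (hij : G.Adj i j) (hjk : G.Adj j k)
    (hik : i ≠ k) (hn : ¬ G.Adj i k) :
    ∀ u ∈ S, ∀ w ∈ S, u ≠ w → ¬ G.Adj u w → (u = i ∧ w = k) ∨ (u = k ∧ w = i) := by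
  -- F1
  have F1 : ∀ i j k : V, i ∈ S → j ∈ S → k ∈ S → G.Adj i j → G.Adj j k → i ≠ k → ¬ G.Adj i k →
      0.195 < a i j := by
    intro i j k hi hj hk hij hjk hik hn
    obtain ⟨gi, gk, h1, h2, h3, h4, h5, h6, h7⟩ := p3_core' W hQ hst hi hj hk hij hjk hik hn
    have hr : 0 ≤ ∑ l ∈ ((S.erase j).erase i).erase k, a j l ^ 2 :=
      sum_nonneg fun l _ => sq_nonneg _
    by_contra h
    push Not at h
    have := h4 h
    linarith
  -- F2
  have F2 : ∀ i j k l : V, i ∈ S → j ∈ S → k ∈ S → l ∈ S → G.Adj i j → G.Adj j k → i ≠ k →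
      ¬ G.Adj i k → l ≠ j → l ≠ i → l ≠ k → a j l ≤ 0.195 := by
    intro i j k l hi hj hk hl hij hjk hik hn hlj hli hlk
    obtain ⟨gi, gk, h1, h2, h3, h4, h5, h6, h7⟩ := p3_core' W hQ hst hi hj hk hij hjk hik hn
    have hr : a j l ^ 2 ≤ ∑ l ∈ ((S.erase j).erase i).erase k, a j l ^ 2 :=
      single_le_sum (f := fun l => a j l ^ 2) (fun l _ => sq_nonneg _)
        (mem_erase.2 ⟨hlk, mem_erase.2 ⟨hli, mem_erase.2 ⟨hlj, hl⟩⟩⟩)
    by_contra h
    push Not at h
    nlinarith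
  -- F3
  have F3 : ∀ i j k x y : V, i ∈ S → j ∈ S → k ∈ S → x ∈ S → y ∈ S → G.Adj i j → G.Adj j k →
      i ≠ k → ¬ G.Adj i k → x ≠ i → x ≠ j → y ≠ k → y ≠ j → 0.195 < a i x → 0.195 < a k y →
      False := by
    intro i j k x y hi hj hk hx hy hij hjk hik hn hxi hxj hyk hyj hax hay
    obtain ⟨gi, gk, h1, h2, h3, h4, h5, h6, h7⟩ := p3_core' W hQ hst hi hj hk hij hjk hik hn
    have hr : 0 ≤ ∑ l ∈ ((S.erase j).erase i).erase k, a j l ^ 2 :=
      sum_nonneg fun l _ => sq_nonneg _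
    have hri : a i x ^ 2 ≤ ∑ l ∈ (S.erase i).erase j, a i l ^ 2 :=
      single_le_sum (f := fun l => a i l ^ 2) (fun l _ => sq_nonneg _)
        (mem_erase.2 ⟨hxj, mem_erase.2 ⟨hxi, hx⟩⟩)
    have hrk : a k y ^ 2 ≤ ∑ l ∈ (S.erase k).erase j, a k l ^ 2 :=
      single_le_sum (f := fun l => a k l ^ 2) (fun l _ => sq_nonneg _)
        (mem_erase.2 ⟨hyj, mem_erase.2 ⟨hyk, hy⟩⟩)
    have e1 := h6 (by nlinarith)
    have e2 := h7 (by nlinarith)
    linarith
  -- F4
  have F4 : ∀ i j k : V, i ∈ S → j ∈ S → k ∈ S → G.Adj i j → G.Adj j k → i ≠ k → ¬ G.Adj i k →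
      ∀ x ∈ S, G.Adj i x → x ≠ j → G.Adj x j := by
    intro i j k hi hj hk hij hjk hik hn x hx hix hxj
    by_contra hxj'
    have hjx : ¬ G.Adj j x := fun h => hxj' h.symm
    -- the edge `ix` is heavy
    have hax : 0.195 < a i x := by
      rw [W.has]
      exact F1 x i j hx hi hj hix.symm hij hxj hxj'
    -- the neighbours of `j`
    have hNj : ∀ l ∈ S, G.Adj j l → l = i ∨ l = k := by
      intro l hl hjl
      by_contra hcon
      push Not at hcon
      obtain ⟨hli, hlk⟩ := hcon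
      have hlight := F2 i j k l hi hj hk hl hij hjk hik hn hjl.ne' hli hlk
      -- l ~ i
      have hlI : G.Adj l i := by
        by_contra h
        -- P3 l j i : a l j > .195
        have := F1 l j i hl hj hi hjl.symm hij.symm hli h
        rw [W.has] at this
        linarith
      -- l not adj x
      have hlx : ¬ G.Adj l x := by
        intro h
        have := F1 j l x hj hl hx hjl h hxj.symm hjx
        linarith
      have hlx' : l ≠ x := by
        intro h
        rw [h] at hjl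
        exact hjx hjl
      have h1 := F1 l i x hl hi hx hlI hix hlx' hlx
      have h2 := F2 j i x l hj hi hx hl hij.symm hix hxj.symm hjx hlI.ne hjl.ne' hlx'
      rw [W.has] at h2
      linarith
    -- k has an outside neighbour
    have hT := hcv j hj {k} (by
      rw [singleton_subset_iff]
      exact mem_erase.2 ⟨hjk.ne', hk⟩) (singleton_nonempty _) (by
        intro h
        have : i ∈ ({k} : Finset V) := by
          rw [h]
          exact mem_erase.2 ⟨hij.ne, hi⟩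
        exact hik (mem_singleton.1 this))
    obtain ⟨k', hk', y, hy, hyk, hky⟩ := hT
    rw [mem_singleton] at hk' hyk
    rw [hk'] at hky
    have hyj : y ≠ j := (mem_erase.1 hy).1
    have hyS : y ∈ S := (mem_erase.1 hy).2
    have hyj' : ¬ G.Adj y j := by
      intro h
      rcases hNj y hyS h.symm with h1 | h1
      · rw [h1] at hky; exact hn hky.symm
      · exact hyk h1
    have hay : 0.195 < a k y := by
      rw [W.has]
      exact F1 y k j hyS hk hj hky.symm hjk.symm hyj hyj'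
    exact F3 i j k x y hi hj hk hx hyS hij hjk hik hn hix.ne' hxj hyk hyj hax hay
  -- all of `S` is adjacent to `j`
  have hall : ∀ y ∈ S, y ≠ j → G.Adj j y := by
    classical
    by_contra hcon
    push Not at hcon
    obtain ⟨w, hw, hwj, hwn⟩ := hcon
    have hT := hc (S.filter fun y => y = j ∨ G.Adj j y) (filter_subset _ _)
      ⟨j, mem_filter.2 ⟨hj, Or.inl rfl⟩⟩ (by
        intro h
        have : w ∈ S.filter fun y => y = j ∨ G.Adj j y := by rw [h]; exact hw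
        rcases (mem_filter.1 this).2 with h1 | h1
        · exact hwj h1
        · exact hwn h1)
    obtain ⟨x, hx, y, hy, hyT, hxy⟩ := hT
    have hyj : y ≠ j := by
      intro h
      exact hyT (mem_filter.2 ⟨hy, Or.inl h⟩)
    have hyn : ¬ G.Adj j y := by
      intro h
      exact hyT (mem_filter.2 ⟨hy, Or.inr h⟩)
    obtain ⟨hxS, hx2⟩ := mem_filter.1 hx
    rcases hx2 with hx2 | hx2
    · rw [hx2] at hxy; exact hyn hxy
    · by_cases hxi : x = i
      · rw [hxi] at hxy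
        exact hyn (F4 i j k hi hj hk hij hjk hik hn y hy hxy hyj).symm
      · by_cases hxk : x = k
        · rw [hxk] at hxy
          exact hyn (F4 k j i hk hj hi hjk.symm hij.symm hik.symm (fun h => hn h.symm)
            y hy hxy hyj).symm
        · have h1 := F2 i j k x hi hj hk hxS hij hjk hik hn hx2.ne' hxi hxk
          have h2 := F1 j x y hj hxS hy hx2 hxy hyj.symm hyn
          linarith
  -- every other vertex is adjacent to everything
  have hall2 : ∀ l ∈ S, l ≠ i → l ≠ k → ∀ z ∈ S, z ≠ l → G.Adj l z := by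
    intro l hl hli hlk z hz hzl
    by_cases hlj : l = j
    · rw [hlj]; rw [hlj] at hzl; exact hall z hz hzl
    · have hjl := hall l hl hlj
      have h1 := F2 i j k l hi hj hk hl hij hjk hik hn hlj hli hlk
      by_cases hzj : z = j
      · rw [hzj]; exact hjl.symm
      · by_contra hlz
        have h2 := F1 l j z hl hj hz hjl.symm (hall z hz hzj) hzl.symm hlz
        rw [W.has] at h2
        linarith
  intro u hu w hw huw hnuw
  by_cases hui : u = i
  · left
    refine ⟨hui, ?_⟩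
    by_contra hwk
    have hwi : w ≠ i := by rw [← hui]; exact huw.symm
    exact hnuw (hall2 w hw hwi hwk u hu huw).symm
  · by_cases huk : u = k
    · right
      refine ⟨huk, ?_⟩
      by_contra hwi
      have hwk : w ≠ k := by rw [← huk]; exact huw.symm
      exact hnuw (hall2 w hw hwi hwk u hu huw).symm
    · exact absurd (hall2 u hu hui huk w hw huw.symm) hnuw

end Pool.Agent.H626.SE
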