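import Pool.Agent.H626.SE.PEnergy

/-!
# Square energy: induced subgraphs, and a lower bound by the number of edges
-/

set_option autoImplicit false

namespace Pool.Agent.H626.SE

open Finset Helper76SE

section

variable {V : Type*} [Fintype V] [DecidableEq V]

/-- inner products in an orthonormal basis -/
theorem frob2 (B : V → V → ℝ) (ho : ∀ k l, ∑ i, B i k * B i l = if k = l then 1 else 0)
    (μ ν : V → ℝ) : ∑ i, ∑ j, (∑ k, μ k * B i k * B j k) * (∑ k, ν k * B i k * B j k)
      = ∑ k, μ k * ν k := by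
  have h1 := frob B ho (fun k => μ k + ν k)
  have h2 := frob B ho (fun k => μ k - ν k)
  have e1 : ∀ i j, ∑ k, (μ k + ν k) * B i k * B j k
      = (∑ k, μ k * B i k * B j k) + ∑ k, ν k * B i k * B j k := by
    intro i j
    rw [← sum_add_distrib]
    exact sum_congr rfl fun k _ => by ring
  have e2 : ∀ i j, ∑ k, (μ k - ν k) * B i k * B j k
      = (∑ k, μ k * B i k * B j k) - ∑ k, ν k * B i k * B j k := by
    intro i j
    rw [← sum_sub_distrib]
    exact sum_congr rfl fun k _ => by ring
  simp_rw [e1] at h1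
  simp_rw [e2] at h2
  have h3 : 4 * ∑ i, ∑ j, (∑ k, μ k * B i k * B j k) * (∑ k, ν k * B i k * B j k)
      = ∑ i, ∑ j, ((∑ k, μ k * B i k * B j k) + ∑ k, ν k * B i k * B j k) ^ 2
        - ∑ i, ∑ j, ((∑ k, μ k * B i k * B j k) - ∑ k, ν k * B i k * B j k) ^ 2 := by
    rw [mul_sum, ← sum_sub_distrib]
    refine sum_congr rfl fun i _ => ?_
    rw [mul_sum, ← sum_sub_distrib]
    exact sum_congr rfl fun j _ => by ring
  rw [h1, h2, ← sum_sub_distrib] at h3
  have h4 : ∑ k, ((μ k + ν k) ^ 2 - (μ k - ν k) ^ 2) = 4 * ∑ k, μ k * ν k := by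
    rw [mul_sum]
    exact sum_congr rfl fun k _ => by ring
  rw [h4] at h3
  linarith

/-- the positive square energy is at most the distance to the negative semidefinite matrices -/
theorem sPlus_le_dist {M : Matrix V V ℝ} (hM : M.IsHermitian) {ι : Type*} [Fintype ι]
    (p : ι → ℝ) (hp : ∀ k, 0 ≤ p k) (B : V → ι → ℝ) :
    ∑ i, (max (hM.eigenvalues i) 0) ^ 2 ≤ ∑ i, ∑ j, (M i j + ∑ k, p k * B i k * B j k) ^ 2 := by
  obtain ⟨C, ho, hC⟩ := spec_entry M hM
  set X : V → V → ℝ := fun i j => ∑ k, max (hM.eigenvalues k) 0 * C i k * C j k with hX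
  set P : V → V → ℝ := fun i j => ∑ k, p k * B i k * B j k with hP
  change _ ≤ ∑ i, ∑ j, (M i j + P i j) ^ 2
  have h1 : ∑ i, ∑ j, X i j * M i j = ∑ i, (max (hM.eigenvalues i) 0) ^ 2 := by
    have := frob2 C ho (fun k => max (hM.eigenvalues k) 0) hM.eigenvalues
    simp_rw [← hC] at this
    rw [this]
    refine sum_congr rfl fun k _ => ?_
    rcases le_total (hM.eigenvalues k) 0 with h | h
    · rw [max_eq_right h]; ring
    · rw [max_eq_left h]; ring
  have h2 : ∑ i, ∑ j, X i j ^ 2 = ∑ i, (max (hM.eigenvalues i) 0) ^ 2 := frob C ho _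
  have h3 : 0 ≤ ∑ i, ∑ j, X i j * P i j := by
    have e : ∑ i, ∑ j, X i j * P i j
        = ∑ k, ∑ l, max (hM.eigenvalues k) 0 * p l * (∑ i, C i k * B i l) ^ 2 := by
      have h4 : ∀ i j, X i j * P i j = ∑ k, ∑ l, max (hM.eigenvalues k) 0 * p l *
          (C i k * B i l) * (C j k * B j l) := by
        intro i j
        rw [hX, hP]
        simp only
        rw [sum_mul_sum]
        refine sum_congr rfl fun k _ => sum_congr rfl fun l _ => by ring
      have h5 : ∀ k l, max (hM.eigenvalues k) 0 * p l * (∑ i, C i k * B i l) ^ 2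
          = ∑ i, ∑ j, max (hM.eigenvalues k) 0 * p l * (C i k * B i l) * (C j k * B j l) := by
        intro k l
        rw [pow_two, sum_mul_sum, mul_sum]
        refine sum_congr rfl fun i _ => ?_
        rw [mul_sum]
        exact sum_congr rfl fun j _ => by ring
      simp_rw [h4, h5]
      calc ∑ i, ∑ j, ∑ k, ∑ l, max (hM.eigenvalues k) 0 * p l * (C i k * B i l) * (C j k * B j l)
          = ∑ i, ∑ k, ∑ j, ∑ l, max (hM.eigenvalues k) 0 * p l * (C i k * B i l) * (C j k * B j l) :=
            sum_congr rfl fun i _ => sum_comm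
        _ = ∑ k, ∑ i, ∑ j, ∑ l, max (hM.eigenvalues k) 0 * p l * (C i k * B i l) * (C j k * B j l) :=
            sum_comm
        _ = ∑ k, ∑ i, ∑ l, ∑ j, max (hM.eigenvalues k) 0 * p l * (C i k * B i l) * (C j k * B j l) :=
            sum_congr rfl fun k _ => sum_congr rfl fun i _ => sum_comm
        _ = ∑ k, ∑ l, ∑ i, ∑ j, max (hM.eigenvalues k) 0 * p l * (C i k * B i l) * (C j k * B j l) :=
            sum_congr rfl fun k _ => sum_comm
    rw [e]
    exact sum_nonneg fun k _ => sum_nonneg fun l _ =>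
      mul_nonneg (mul_nonneg (le_max_right _ _) (hp l)) (sq_nonneg _)
  have h4 : 2 * ∑ i, ∑ j, X i j * M i j + 2 * ∑ i, ∑ j, X i j * P i j - ∑ i, ∑ j, X i j ^ 2
      ≤ ∑ i, ∑ j, (M i j + P i j) ^ 2 := by
    rw [mul_sum, mul_sum, ← sum_add_distrib, ← sum_sub_distrib]
    refine sum_le_sum fun i _ => ?_
    rw [mul_sum, mul_sum, ← sum_add_distrib, ← sum_sub_distrib]
    refine sum_le_sum fun j _ => ?_
    nlinarith [sq_nonneg (M i j + P i j - X i j)]
  rw [h1, h2] at h4
  linarith

end

section blocks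

variable {V : Type*} [Fintype V]

/-- a double sum of nonnegative numbers and its diagonal blocks -/
theorem block_le {κ : Type*} [Fintype κ] [DecidableEq κ] (f : V → κ) (g : V → V → ℝ)
    (hg : ∀ i j, 0 ≤ g i j) :
    ∑ c, ∑ i ∈ univ.filter (fun i => f i = c), ∑ j ∈ univ.filter (fun j => f j = c), g i j
      ≤ ∑ i, ∑ j, g i j := by
  rw [← sum_fiberwise univ f (fun i => ∑ j, g i j)]
  refine sum_le_sum fun c _ => sum_le_sum fun i _ => ?_
  exact sum_le_sum_of_subset_of_nonneg (filter_subset _ _) fun j _ _ => hg i j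

end blocks

section comps

variable {V : Type*} [Fintype V] {ι : Type*} [Fintype ι]

open Classical in
/-- The bound `n - c` for a graph with `c` components. -/
theorem gram_comps (G : SimpleGraph V) (p : ι → ℝ) (hp : ∀ k, 0 ≤ p k) (B : V → ι → ℝ) :
    (Fintype.card V : ℝ) - Nat.card G.ConnectedComponent ≤
      ∑ i, ∑ j, ((if G.Adj i j then (1 : ℝ) else 0) + ∑ k, p k * B i k * B j k) ^ 2 := by
  set g : V → V → ℝ := fun i j => ((if G.Adj i j then (1 : ℝ) else 0)
    + ∑ k, p k * B i k * B j k) ^ 2 with hg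
  refine le_trans ?_ (block_le G.connectedComponentMk g (fun i j => sq_nonneg _))
  have h1 : ∀ c : G.ConnectedComponent, ((univ.filter fun i => G.connectedComponentMk i = c).card : ℝ)
      - 1 ≤ ∑ i ∈ univ.filter (fun i => G.connectedComponentMk i = c),
        ∑ j ∈ univ.filter (fun j => G.connectedComponentMk j = c), g i j := by
    intro c
    have hconn : (G.induce c.supp).Connected := c.connected_toSimpleGraph
    have h2 := gram_main (G.induce c.supp) hconn p hp (fun i k => B i.1 k) (-1) (Or.inr rfl)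
    have e1 : ∀ F : V → ℝ, ∑ i ∈ univ.filter (fun i => G.connectedComponentMk i = c), F i
        = ∑ i : c.supp, F i.1 := by
      intro F
      refine (Finset.sum_subtype _ (fun x => ?_) F)
      simp [SimpleGraph.ConnectedComponent.mem_supp_iff]
    have e2 : ((univ.filter fun i => G.connectedComponentMk i = c).card : ℝ)
        = Fintype.card c.supp := by
      have := e1 (fun _ => 1)
      rw [sum_const, sum_const, nsmul_eq_mul, nsmul_eq_mul, mul_one, mul_one, card_univ] at this
      exact this
    rw [e1, e2]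
    refine h2.trans (le_of_eq ?_)
    refine sum_congr rfl fun i _ => ?_
    rw [e1]
    refine sum_congr rfl fun j _ => ?_
    rw [hg]
    simp only [SimpleGraph.comap_adj, Function.Embedding.subtype_apply]
    ring
  have h2 : (Fintype.card V : ℝ) - Nat.card G.ConnectedComponent
      = ∑ c : G.ConnectedComponent,
        (((univ.filter fun i => G.connectedComponentMk i = c).card : ℝ) - 1) := by
    rw [sum_sub_distrib, sum_const, nsmul_eq_mul, mul_one, card_univ, Nat.card_eq_fintype_card]
    congr 1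
    have h3 := sum_fiberwise (univ : Finset V) G.connectedComponentMk (fun _ => (1 : ℝ))
    simp only [sum_const, nsmul_eq_mul, mul_one, card_univ] at h3
    exact h3.symm
  rw [h2]
  exact sum_le_sum fun c _ => h1 c

end comps

end Pool.Agent.H626.SE
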