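import Pool.Agent.H626.SE.Dense

/-!
# Square energy: a dense core
-/

set_option autoImplicit false

namespace Pool.Agent.H626.SE

open Finset Helper76SE

section core

variable {V : Type*} [Fintype V] [DecidableEq V] (G : SimpleGraph V) [DecidableRel G.Adj]
  (h : (G.adjMatrix ℝ).IsHermitian)

/-- the kernel of the negative part -/
theorem exists_ker : ∃ (p : V → ℝ) (B : V → V → ℝ), (∀ k, 0 ≤ p k) ∧
    ∑ i, ∑ j, ((if G.Adj i j then (1 : ℝ) else 0) + ∑ k, p k * B i k * B j k) ^ 2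
      = ∑ i, (max (h.eigenvalues i) 0) ^ 2 := by
  obtain ⟨B, ho, hAB⟩ := spec_entry _ h
  refine ⟨fun k => - min (h.eigenvalues k) 0, B, fun k => by
    have := min_le_right (h.eigenvalues k) 0; linarith, ?_⟩
  rw [← frob B ho]
  refine sum_congr rfl fun i _ => sum_congr rfl fun j _ => ?_
  congr 1
  have h2 := hAB i j
  rw [SimpleGraph.adjMatrix_apply] at h2
  rw [h2, ← sum_add_distrib]
  refine sum_congr rfl fun k _ => ?_
  have h3 := max_add_min (h.eigenvalues k) 0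
  rw [show max (h.eigenvalues k) 0 = h.eigenvalues k - min (h.eigenvalues k) 0 by linarith]
  ring

/-- The bound for a vertex set and the components outside. -/
theorem core_bound (U : Set V) [Fintype U] [DecidableEq U] [DecidableRel (G.induce U).Adj]
    (hU : ((G.induce U).adjMatrix ℝ).IsHermitian) :
    (∑ i, (max (hU.eigenvalues i) 0) ^ 2) + ((Nat.card ↥(Uᶜ) : ℝ)
      - Nat.card (G.induce Uᶜ).ConnectedComponent) ≤ ∑ i, (max (h.eigenvalues i) 0) ^ 2 := by
  classical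
  obtain ⟨p, B, hp, he⟩ := exists_ker G h
  rw [← he]
  have key : ∀ F : V → ℝ, ∑ i, F i = (∑ i : U, F i.1) + ∑ i : ↥(Uᶜ), F i.1 := by
    intro F
    rw [← sum_filter_add_sum_filter_not univ (fun i => i ∈ U) F]
    congr 1
    · exact Finset.sum_subtype _ (fun x => by simp) F
    · exact Finset.sum_subtype _ (fun x => by simp) F
  have h1 := sPlus_le_dist hU p hp (fun i k => B i.1 k)
  have h2 := gram_comps (G.induce Uᶜ) p hp (fun i k => B i.1 k)
  have h3 : (∑ i : U, ∑ j : U, ((G.induce U).adjMatrix ℝ i j + ∑ k, p k * B i.1 k * B j.1 k) ^ 2)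
      = ∑ i : U, ∑ j : U, ((if G.Adj i.1 j.1 then (1 : ℝ) else 0)
        + ∑ k, p k * B i.1 k * B j.1 k) ^ 2 := by
    refine sum_congr rfl fun i _ => sum_congr rfl fun j _ => ?_
    rw [SimpleGraph.adjMatrix_apply]
    simp only [SimpleGraph.comap_adj, Function.Embedding.subtype_apply]
  have h4 : (Fintype.card ↥(Uᶜ) : ℝ) - Nat.card (G.induce Uᶜ).ConnectedComponent
      ≤ ∑ i : ↥(Uᶜ), ∑ j : ↥(Uᶜ), ((if G.Adj i.1 j.1 then (1 : ℝ) else 0)
        + ∑ k, p k * B i.1 k * B j.1 k) ^ 2 := by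
    refine h2.trans (le_of_eq ?_)
    refine sum_congr rfl fun i _ => sum_congr rfl fun j _ => ?_
    by_cases hij : G.Adj i.1 j.1
    · rw [if_pos hij, if_pos (show (G.induce Uᶜ).Adj i j from hij)]
    · rw [if_neg hij, if_neg (show ¬ (G.induce Uᶜ).Adj i j from hij)]
  rw [h3] at h1
  rw [key]
  have h5 : (∑ i : U, ∑ j : U, ((if G.Adj i.1 j.1 then (1 : ℝ) else 0)
        + ∑ k, p k * B i.1 k * B j.1 k) ^ 2) ≤ ∑ i : U, ∑ j : V,
        ((if G.Adj i.1 j then (1 : ℝ) else 0) + ∑ k, p k * B i.1 k * B j k) ^ 2 := by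
    refine sum_le_sum fun i _ => ?_
    rw [key]
    have : 0 ≤ ∑ j : ↥(Uᶜ), ((if G.Adj i.1 j.1 then (1 : ℝ) else 0)
        + ∑ k, p k * B i.1 k * B j.1 k) ^ 2 := sum_nonneg fun j _ => sq_nonneg _
    linarith
  have h6 : (∑ i : ↥(Uᶜ), ∑ j : ↥(Uᶜ), ((if G.Adj i.1 j.1 then (1 : ℝ) else 0)
        + ∑ k, p k * B i.1 k * B j.1 k) ^ 2) ≤ ∑ i : ↥(Uᶜ), ∑ j : V,
        ((if G.Adj i.1 j then (1 : ℝ) else 0) + ∑ k, p k * B i.1 k * B j k) ^ 2 := by
    refine sum_le_sum fun i _ => ?_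
    rw [key]
    have : 0 ≤ ∑ j : U, ((if G.Adj i.1 j.1 then (1 : ℝ) else 0)
        + ∑ k, p k * B i.1 k * B j.1 k) ^ 2 := sum_nonneg fun j _ => sq_nonneg _
    linarith
  rw [Nat.card_eq_fintype_card (α := ↥(Uᶜ))]
  linarith

/-- `(2m)² ≤ n² s⁺` -/
theorem avg_bound : (∑ i, ∑ j, if G.Adj i j then (1 : ℝ) else 0) ^ 2
    ≤ (Fintype.card V : ℝ) ^ 2 * ∑ i, (max (h.eigenvalues i) 0) ^ 2 := by
  obtain ⟨p, B, hp, he⟩ := exists_ker G h
  rw [← he]
  set F : V → V → ℝ := fun i j => (if G.Adj i j then (1 : ℝ) else 0)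
    + ∑ k, p k * B i k * B j k with hF
  have h1 : (∑ x : V × V, F x.1 x.2) ^ 2 ≤ (univ : Finset (V × V)).card * ∑ x : V × V, F x.1 x.2 ^ 2 :=
    sq_sum_le_card_mul_sum_sq
  rw [Fintype.sum_prod_type, Fintype.sum_prod_type, card_univ, Fintype.card_prod] at h1
  have h2 : ∑ i, ∑ j, F i j = (∑ i, ∑ j, if G.Adj i j then (1 : ℝ) else 0)
      + ∑ k, p k * (∑ i, B i k) ^ 2 := by
    have e : ∑ k, p k * (∑ i, B i k) ^ 2 = ∑ i, ∑ j, ∑ k, p k * B i k * B j k := by
      have e1 : ∀ k, p k * (∑ i, B i k) ^ 2 = ∑ i, ∑ j, p k * B i k * B j k := by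
        intro k
        rw [pow_two, sum_mul_sum, mul_sum]
        refine sum_congr rfl fun i _ => ?_
        rw [mul_sum]
        exact sum_congr rfl fun j _ => by ring
      simp_rw [e1]
      rw [sum_comm]
      exact sum_congr rfl fun i _ => sum_comm
    rw [e, ← sum_add_distrib]
    refine sum_congr rfl fun i _ => ?_
    rw [← sum_add_distrib]
  have h3 : 0 ≤ ∑ k, p k * (∑ i, B i k) ^ 2 :=
    sum_nonneg fun k _ => mul_nonneg (hp k) (sq_nonneg _)
  have h4 : 0 ≤ ∑ i, ∑ j, if G.Adj i j then (1 : ℝ) else 0 :=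
    sum_nonneg fun i _ => sum_nonneg fun j _ => by split_ifs <;> norm_num
  rw [h2] at h1
  push_cast at h1
  nlinarith

/-- the third moment is nonnegative -/
theorem sum_cube : 0 ≤ ∑ i, (h.eigenvalues i) ^ 3 := by
  obtain ⟨B, ho, hAB⟩ := spec_entry _ h
  have h1 := frob2 B ho (fun k => (h.eigenvalues k) ^ 2) h.eigenvalues
  have h2 : ∀ i k, ∑ j, G.adjMatrix ℝ i j * B j k = h.eigenvalues k * B i k := by
    intro i k
    simp_rw [hAB i, sum_mul]
    rw [sum_comm]
    have : ∀ l, ∑ j, h.eigenvalues l * B i l * B j l * B j k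
        = h.eigenvalues l * B i l * (if l = k then 1 else 0) := by
      intro l
      rw [← ho l k, mul_sum]
      exact sum_congr rfl fun j _ => by ring
    simp_rw [this]
    simp
  have hA : ∀ i j, 0 ≤ G.adjMatrix ℝ i j := by
    intro i j
    rw [SimpleGraph.adjMatrix_apply]
    split_ifs <;> norm_num
  have h3 : ∀ i j, ∑ k, (h.eigenvalues k) ^ 2 * B i k * B j k
      = ∑ l, G.adjMatrix ℝ j l * G.adjMatrix ℝ i l := by
    intro i j
    have e1 : ∀ k, (h.eigenvalues k) ^ 2 * B i k * B j k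
        = ∑ l, G.adjMatrix ℝ j l * (h.eigenvalues k * B i k * B l k) := by
      intro k
      have : ∑ l, G.adjMatrix ℝ j l * (h.eigenvalues k * B i k * B l k)
          = h.eigenvalues k * B i k * ∑ l, G.adjMatrix ℝ j l * B l k := by
        rw [mul_sum]
        exact sum_congr rfl fun l _ => by ring
      rw [this, h2 j k]
      ring
    simp_rw [e1]
    rw [sum_comm]
    refine sum_congr rfl fun l _ => ?_
    rw [← mul_sum, ← hAB i l]
  simp_rw [h3, ← hAB] at h1
  have h4 : ∑ i, (h.eigenvalues i) ^ 3 = ∑ k, (h.eigenvalues k) ^ 2 * h.eigenvalues k :=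
    sum_congr rfl fun k _ => by ring
  rw [h4, ← h1]
  exact sum_nonneg fun i _ => sum_nonneg fun j _ =>
    mul_nonneg (sum_nonneg fun l _ => mul_nonneg (hA _ _) (hA _ _)) (hA _ _)

omit [DecidableEq V] in
theorem cs13 (a : V → ℝ) (ha : ∀ i, 0 ≤ a i) :
    (∑ i, a i ^ 2) ^ 2 ≤ (∑ i, a i) * ∑ i, a i ^ 3 := by
  have h1 : 0 ≤ ∑ i, ∑ j, a i * a j * (a i - a j) ^ 2 :=
    sum_nonneg fun i _ => sum_nonneg fun j _ =>
      mul_nonneg (mul_nonneg (ha i) (ha j)) (sq_nonneg _)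
  have h2 : ∑ i, ∑ j, a i * a j * (a i - a j) ^ 2
      = (∑ i, a i ^ 3) * (∑ i, a i) + (∑ i, a i) * (∑ i, a i ^ 3)
        - 2 * ((∑ i, a i ^ 2) * ∑ i, a i ^ 2) := by
    rw [sum_mul_sum, sum_mul_sum, sum_mul_sum, mul_sum, ← sum_add_distrib, ← sum_sub_distrib]
    refine sum_congr rfl fun i _ => ?_
    rw [mul_sum, ← sum_add_distrib, ← sum_sub_distrib]
    exact sum_congr rfl fun j _ => by ring
  nlinarith

/-- `(s⁻)⁴ ≤ n Λ² (s⁺)³` -/
theorem ratio (L : ℝ) (hL : ∀ i, h.eigenvalues i ≤ L) :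
    (∑ i, (min (h.eigenvalues i) 0) ^ 2) ^ 4 ≤
      (Fintype.card V : ℝ) * L ^ 2 * (∑ i, (max (h.eigenvalues i) 0) ^ 2) ^ 3 := by
  set s := ∑ i, (max (h.eigenvalues i) 0) ^ 2 with hs
  set t := ∑ i, (min (h.eigenvalues i) 0) ^ 2 with ht
  have ha : ∀ i, 0 ≤ max (h.eigenvalues i) 0 := fun i => le_max_right _ _
  have hb : ∀ i, 0 ≤ - min (h.eigenvalues i) 0 := fun i => by
    have := min_le_right (h.eigenvalues i) 0; linarith
  have h1 : ∑ i, (- min (h.eigenvalues i) 0) = ∑ i, max (h.eigenvalues i) 0 := by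
    have h2 := sum_eig G h
    have h3 : ∑ i, h.eigenvalues i = ∑ i, max (h.eigenvalues i) 0
        - ∑ i, (- min (h.eigenvalues i) 0) := by
      rw [← sum_sub_distrib]
      refine sum_congr rfl fun i _ => ?_
      have := max_add_min (h.eigenvalues i) 0
      linarith
    linarith
  have h2 : ∑ i, (- min (h.eigenvalues i) 0) ^ 3 ≤ ∑ i, (max (h.eigenvalues i) 0) ^ 3 := by
    have h3 := sum_cube G h
    have h4 : ∑ i, (h.eigenvalues i) ^ 3 = ∑ i, (max (h.eigenvalues i) 0) ^ 3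
        - ∑ i, (- min (h.eigenvalues i) 0) ^ 3 := by
      rw [← sum_sub_distrib]
      refine sum_congr rfl fun i _ => ?_
      rcases le_total (h.eigenvalues i) 0 with h5 | h5
      · rw [max_eq_right h5, min_eq_left h5]; ring
      · rw [max_eq_left h5, min_eq_right h5]; ring
    linarith
  have h3 := cs13 (fun i => - min (h.eigenvalues i) 0) hb
  have h3' : ∑ i, (- min (h.eigenvalues i) 0) ^ 2 = t := sum_congr rfl fun i _ => by ring
  rw [h3', h1] at h3
  have h4 : ∑ i, (max (h.eigenvalues i) 0) ^ 3 ≤ L * s := by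
    rw [hs, mul_sum]
    refine sum_le_sum fun i _ => ?_
    rcases le_total (h.eigenvalues i) 0 with h5 | h5
    · rw [max_eq_right h5]; norm_num
    · rw [max_eq_left h5]
      have := mul_le_mul_of_nonneg_right (hL i) (sq_nonneg (h.eigenvalues i))
      nlinarith
  have h5 : (∑ i, max (h.eigenvalues i) 0) ^ 2 ≤ (Fintype.card V : ℝ) * s := by
    have := sq_sum_le_card_mul_sum_sq (s := (univ : Finset V)) (f := fun i => max (h.eigenvalues i) 0)
    rw [card_univ] at this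
    exact this
  set a1 := ∑ i, max (h.eigenvalues i) 0 with ha1
  set a3 := ∑ i, (max (h.eigenvalues i) 0) ^ 3 with ha3
  have ha1' : 0 ≤ a1 := sum_nonneg fun i _ => ha i
  have ha3' : 0 ≤ a3 := sum_nonneg fun i _ => pow_nonneg (ha i) 3
  have hs0 : 0 ≤ s := sum_nonneg fun i _ => sq_nonneg _
  have ht0 : 0 ≤ t := sum_nonneg fun i _ => sq_nonneg _
  have h6 : t ^ 2 ≤ a1 * a3 := h3.trans (mul_le_mul_of_nonneg_left h2 ha1')
  calc t ^ 4 = (t ^ 2) ^ 2 := by ring
    _ ≤ (a1 * a3) ^ 2 := pow_le_pow_left₀ (sq_nonneg t) h6 2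
    _ = a1 ^ 2 * a3 ^ 2 := by ring
    _ ≤ ((Fintype.card V : ℝ) * s) * (L * s) ^ 2 :=
        mul_le_mul h5 (pow_le_pow_left₀ ha3' h4 2) (sq_nonneg _)
          (mul_nonneg (Nat.cast_nonneg _) hs0)
    _ = (Fintype.card V : ℝ) * L ^ 2 * s ^ 3 := by ring

/-- the largest eigenvalue -/
theorem exists_top [Nonempty V] : ∃ k, (∀ i, h.eigenvalues i ≤ h.eigenvalues k) ∧
    0 ≤ h.eigenvalues k ∧ (h.eigenvalues k) ^ 2 ≤ ∑ i, (max (h.eigenvalues i) 0) ^ 2 := by
  obtain ⟨k, hk⟩ := Finite.exists_max h.eigenvalues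
  have h0 : 0 ≤ h.eigenvalues k := by
    by_contra hcon
    push Not at hcon
    have h2 := sum_neg (fun i (_ : i ∈ (univ : Finset V)) => (hk i).trans_lt hcon) univ_nonempty
    rw [sum_eig G h] at h2
    exact lt_irrefl _ h2
  refine ⟨k, hk, h0, ?_⟩
  have h1 := single_le_sum (f := fun i => (max (h.eigenvalues i) 0) ^ 2)
    (fun i _ => sq_nonneg _) (mem_univ k)
  simp only [max_eq_left h0] at h1
  exact h1

/-- `s⁻ ≤ n^(1/4) s⁺` -/
theorem ratio_quarter : (∑ i, (min (h.eigenvalues i) 0) ^ 2)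
    ≤ (Fintype.card V : ℝ) ^ (1 / 4 : ℝ) * ∑ i, (max (h.eigenvalues i) 0) ^ 2 := by
  set s := ∑ i, (max (h.eigenvalues i) 0) ^ 2 with hs
  set t := ∑ i, (min (h.eigenvalues i) 0) ^ 2 with ht
  have hs0 : 0 ≤ s := sum_nonneg fun i _ => sq_nonneg _
  rcases isEmpty_or_nonempty V with hV | hV
  · rw [ht]
    simp only [univ_eq_empty, sum_empty]
    positivity
  obtain ⟨k, hk, hk0, hk2⟩ := exists_top G h
  have h1 := ratio G h _ hk
  rw [← hs] at h1 hk2
  have hn : (0 : ℝ) ≤ Fintype.card V := Nat.cast_nonneg _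
  have h2 : t ^ 4 ≤ ((Fintype.card V : ℝ) ^ (1 / 4 : ℝ) * s) ^ 4 := by
    have h3 : ((Fintype.card V : ℝ) ^ (1 / 4 : ℝ)) ^ 4 = Fintype.card V := by
      rw [← Real.rpow_natCast, ← Real.rpow_mul hn]
      norm_num
    rw [mul_pow, h3]
    refine h1.trans ?_
    have : (Fintype.card V : ℝ) * (h.eigenvalues k) ^ 2 * s ^ 3
        ≤ (Fintype.card V : ℝ) * s * s ^ 3 :=
      mul_le_mul_of_nonneg_right (mul_le_mul_of_nonneg_left hk2 hn) (pow_nonneg hs0 3)
    linarith [this, (by ring : (Fintype.card V : ℝ) * s * s ^ 3 = (Fintype.card V : ℝ) * s ^ 4)]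
  exact le_of_pow_le_pow_left₀ (by norm_num) (by positivity) h2

/-- many edges force a large positive square energy -/
theorem many_edges (N : ℝ)
    (hm : N * (1 + (Fintype.card V : ℝ) ^ (1 / 4 : ℝ))
      ≤ ∑ i, ∑ j, if G.Adj i j then (1 : ℝ) else 0) :
    N ≤ ∑ i, (max (h.eigenvalues i) 0) ^ 2 := by
  have h1 := ratio_quarter G h
  have h2 := sum_sq G h
  rw [← h2] at hm
  have h3 : 0 < 1 + (Fintype.card V : ℝ) ^ (1 / 4 : ℝ) := by positivity
  by_contra hcon
  push Not at hcon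
  have h4 := mul_lt_mul_of_pos_right hcon h3
  nlinarith

/-- the same with a bound for the eigenvalues -/
theorem many_edges' (N L : ℝ) (hN : (Fintype.card V : ℝ) ≤ N) (hL : ∀ i, h.eigenvalues i ≤ L)
    (hm : N * (1 + √L) ≤ ∑ i, ∑ j, if G.Adj i j then (1 : ℝ) else 0) :
    N ≤ ∑ i, (max (h.eigenvalues i) 0) ^ 2 := by
  have h1 := ratio G h L hL
  have h2 := sum_sq G h
  rw [← h2] at hm
  set s := ∑ i, (max (h.eigenvalues i) 0) ^ 2 with hs
  set t := ∑ i, (min (h.eigenvalues i) 0) ^ 2 with ht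
  have hs0 : 0 ≤ s := sum_nonneg fun i _ => sq_nonneg _
  have hn : (0 : ℝ) ≤ Fintype.card V := Nat.cast_nonneg _
  by_contra hcon
  push Not at hcon
  have hN0 : 0 ≤ N := hn.trans hN
  rcases isEmpty_or_nonempty V with hV | hV
  · rw [hs, ht] at hm
    simp only [univ_eq_empty, sum_empty] at hm hs
    rw [hs] at hcon
    have := Real.sqrt_nonneg L
    nlinarith
  obtain ⟨k, hk, hk0, hk2⟩ := exists_top G h
  have hL0 : 0 ≤ L := hk0.trans (hL k)
  have h3 : N * √L < t := by nlinarith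
  have h4 : (N * √L) ^ 4 < t ^ 4 := pow_lt_pow_left₀ h3 (by positivity) (by norm_num)
  have h5 : (N * √L) ^ 4 = N ^ 4 * L ^ 2 := by
    rw [mul_pow]
    congr 1
    have := Real.sq_sqrt hL0
    calc √L ^ 4 = (√L ^ 2) ^ 2 := by ring
      _ = L ^ 2 := by rw [this]
  have h6 : (Fintype.card V : ℝ) * L ^ 2 * s ^ 3 ≤ N * L ^ 2 * N ^ 3 := by
    apply mul_le_mul
    · exact mul_le_mul_of_nonneg_right hN (sq_nonneg _)
    · exact pow_le_pow_left₀ hs0 hcon.le 3
    · positivity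
    · positivity
  have h7 : N * L ^ 2 * N ^ 3 = N ^ 4 * L ^ 2 := by ring
  linarith

/-- the eigenvalues are at most the maximum degree -/
theorem eig_le_deg (D : ℝ) (hD : ∀ i, (∑ j, if G.Adj i j then (1 : ℝ) else 0) ≤ D) (k : V) :
    h.eigenvalues k ≤ D := by
  obtain ⟨B, ho, hAB⟩ := spec_entry _ h
  have h2 : ∀ i, ∑ j, G.adjMatrix ℝ i j * B j k = h.eigenvalues k * B i k := by
    intro i
    simp_rw [hAB i, sum_mul]
    rw [sum_comm]
    have : ∀ l, ∑ j, h.eigenvalues l * B i l * B j l * B j k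
        = h.eigenvalues l * B i l * (if l = k then 1 else 0) := by
      intro l
      rw [← ho l k, mul_sum]
      exact sum_congr rfl fun j _ => by ring
    simp_rw [this]
    simp
  have : Nonempty V := ⟨k⟩
  obtain ⟨i, hi⟩ := Finite.exists_max (fun i => |B i k|)
  have hpos : 0 < |B i k| := by
    rcases (abs_nonneg (B i k)).lt_or_eq with h3 | h3
    · exact h3
    · exfalso
      have h4 : ∀ j, B j k = 0 := fun j => by
        have this : |B j k| ≤ |B i k| := hi j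
        rw [← h3] at this
        exact abs_eq_zero.1 (le_antisymm this (abs_nonneg _))
      have h5 := ho k k
      rw [if_pos rfl, sum_eq_zero (fun j _ => by rw [h4 j, zero_mul])] at h5
      exact zero_ne_one h5
  have h3 : h.eigenvalues k * |B i k| ≤ D * |B i k| := by
    calc h.eigenvalues k * |B i k| ≤ |h.eigenvalues k| * |B i k| :=
          mul_le_mul_of_nonneg_right (le_abs_self _) (abs_nonneg _)
      _ = |h.eigenvalues k * B i k| := (abs_mul _ _).symm
      _ = |∑ j, G.adjMatrix ℝ i j * B j k| := by rw [h2 i]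
      _ ≤ ∑ j, |G.adjMatrix ℝ i j * B j k| := abs_sum_le_sum_abs _ _
      _ ≤ ∑ j, (if G.Adj i j then (1 : ℝ) else 0) * |B i k| := by
          refine sum_le_sum fun j _ => ?_
          rw [abs_mul, SimpleGraph.adjMatrix_apply]
          split_ifs
          · rw [abs_one, one_mul, one_mul]; exact hi j
          · rw [abs_zero, zero_mul, zero_mul]
      _ = (∑ j, if G.Adj i j then (1 : ℝ) else 0) * |B i k| := by rw [sum_mul]
      _ ≤ D * |B i k| := mul_le_mul_of_nonneg_right (hD i) (abs_nonneg _)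
  exact le_of_mul_le_mul_right h3 hpos

end core

end Pool.Agent.H626.SE
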