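import Pool.Agent.H626.SE.Blocks

/-!
# Square energy of connected graphs with a dense part
-/

set_option autoImplicit false

namespace Pool.Agent.H626.SE

open Finset Helper76SE

section densepart

variable {V : Type*} [Fintype V] [DecidableEq V]

/-- A connected graph with an induced subgraph on `a` vertices of minimum degree at least
`64 n / (9 a)` has positive square energy at least `n`. -/
theorem dense_part (G : SimpleGraph V) [DecidableRel G.Adj] (h : (G.adjMatrix ℝ).IsHermitian)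
    (hG : G.Connected) (U : Finset V) (hU : U.Nonempty) (T : ℕ)
    (hd : ∀ v ∈ U, T ≤ (U.filter fun j => G.Adj v j).card)
    (hT : 64 * Fintype.card V ≤ 9 * (T * U.card)) :
    (Fintype.card V : ℝ) ≤ ∑ i, (max (h.eigenvalues i) 0) ^ 2 := by
  classical
  obtain ⟨p, B, hp, he⟩ := exists_ker G h
  obtain ⟨f, hf1, hf2, hf3⟩ := exists_blocks G hG U hU
  have hb := block_bound G U f hf1 hf3 p hp B
  set G' : SimpleGraph {x // x ∈ U} := G.comap (fun x => x.1) with hG'
  have hcard : U.card ≤ Fintype.card V := card_le_univ U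
  have hUpos : 0 < U.card := card_pos.mpr hU
  have h9T : 64 ≤ 9 * T := by
    have : 64 * U.card ≤ 9 * T * U.card := by nlinarith
    exact Nat.le_of_mul_le_mul_right this hUpos
  have hT1 : 1 ≤ T := by omega
  have hd' : ∀ v : {x // x ∈ U}, T ≤ (univ.filter fun j => G'.Adj v j).card := by
    intro v
    have e : (U.filter fun j => G.Adj v.1 j)
        = (univ.filter fun j : {x // x ∈ U} => G'.Adj v j).image Subtype.val := by
      ext x
      simp only [mem_filter, mem_image, mem_univ, true_and, Subtype.exists, exists_and_right,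
        exists_eq_right, hG', SimpleGraph.comap_adj]
      constructor
      · rintro ⟨h1, h2⟩
        exact ⟨h1, h2⟩
      · rintro ⟨h1, h2⟩
        exact ⟨h1, h2⟩
    have := hd v.1 v.2
    rw [e, card_image_of_injective _ Subtype.val_injective] at this
    exact this
  have hTr : (0 : ℝ) < T := by exact_mod_cast (by omega : 0 < T)
  set β : ℝ := 5 / (4 * (4 + T)) with hβ
  have hβ0 : 0 ≤ β := by positivity
  have hβ1 : β ≤ 1 / 2 := by
    rw [hβ, div_le_iff₀ (by positivity)]
    linarith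
  have ho := test_off G' T hT1 hd' β hβ0 hβ1 p hp (fun i k => B i.1 k)
  rw [Fintype.card_coe] at ho
  set g : V → V → ℝ := fun i j => ((if G.Adj i j then (1 : ℝ) else 0)
    + ∑ k, p k * B i k * B j k) ^ 2 with hg
  have hg0 : ∀ i j, 0 ≤ g i j := fun i j => sq_nonneg _
  have e1 : ∑ i : {x // x ∈ U}, ∑ j : {x // x ∈ U}, (if i = j then 0 else
      ((if G'.Adj i j then (1 : ℝ) else 0) + ∑ k, p k * B i.1 k * B j.1 k) ^ 2)
      = ∑ i ∈ U, ∑ j ∈ U, if i = j then 0 else g i j := by
    rw [← sum_coe_sort U (fun i => ∑ j ∈ U, if i = j then 0 else g i j)]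
    refine sum_congr rfl fun i _ => ?_
    rw [← sum_coe_sort U (fun j => if i.1 = j then 0 else g i.1 j)]
    refine sum_congr rfl fun j _ => ?_
    by_cases hij : i = j
    · rw [if_pos hij, if_pos (by rw [hij])]
    · rw [if_neg hij, if_neg (fun h => hij (Subtype.ext h))]
      simp only [hG', SimpleGraph.comap_adj, hg]
  rw [e1] at ho
  have e2 : ∑ i : {x // x ∈ U}, (∑ k, p k * B i.1 k * B i.1 k) ^ 2 ≤ ∑ i, ∑ j, g i j := by
    rw [sum_coe_sort U (fun i => (∑ k, p k * B i k * B i k) ^ 2)]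
    refine (sum_le_sum_of_subset_of_nonneg (subset_univ U) fun i _ _ => sq_nonneg _).trans ?_
    refine sum_le_sum fun i _ => ?_
    refine le_trans (le_of_eq ?_) (single_le_sum (fun j _ => hg0 i j) (mem_univ i))
    simp only [hg]
    rw [if_neg (G.loopless.irrefl i), zero_add]
  have e3 : (∑ i, ∑ j, if f i = f j then g i j else 0)
      + (∑ i ∈ U, ∑ j ∈ U, if i = j then 0 else g i j) ≤ ∑ i, ∑ j, g i j := by
    have e4 : (∑ i ∈ U, ∑ j ∈ U, if i = j then 0 else g i j)
        = ∑ i, ∑ j, if i ∈ U ∧ j ∈ U ∧ i ≠ j then g i j else 0 := by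
      rw [← sum_filter_add_sum_filter_not univ (fun i => i ∈ U)
        (fun i => ∑ j, if i ∈ U ∧ j ∈ U ∧ i ≠ j then g i j else 0)]
      have z : ∑ i ∈ univ.filter (fun i => ¬ i ∈ U),
          ∑ j, (if i ∈ U ∧ j ∈ U ∧ i ≠ j then g i j else 0) = 0 := by
        refine sum_eq_zero fun i hi => sum_eq_zero fun j _ => ?_
        rw [if_neg (fun h => (mem_filter.mp hi).2 h.1)]
      rw [z, add_zero, filter_mem_eq_inter, univ_inter]
      refine sum_congr rfl fun i hi => ?_
      rw [← sum_filter_add_sum_filter_not univ (fun j => j ∈ U)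
        (fun j => if i ∈ U ∧ j ∈ U ∧ i ≠ j then g i j else 0)]
      have z2 : ∑ j ∈ univ.filter (fun j => ¬ j ∈ U),
          (if i ∈ U ∧ j ∈ U ∧ i ≠ j then g i j else 0) = 0 := by
        refine sum_eq_zero fun j hj => ?_
        rw [if_neg (fun h => (mem_filter.mp hj).2 h.2.1)]
      rw [z2, add_zero, filter_mem_eq_inter, univ_inter]
      refine sum_congr rfl fun j hj => ?_
      by_cases hij : i = j
      · rw [if_pos hij, if_neg (fun h => h.2.2 hij)]
      · rw [if_neg hij, if_pos ⟨hi, hj, hij⟩]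
    rw [e4, ← sum_add_distrib]
    refine sum_le_sum fun i _ => ?_
    rw [← sum_add_distrib]
    refine sum_le_sum fun j _ => ?_
    by_cases hij : i ∈ U ∧ j ∈ U ∧ i ≠ j
    · rw [if_pos hij, if_neg (fun h => hij.2.2 (by rw [← hf2 i hij.1, ← hf2 j hij.2.1, h])),
        zero_add]
    · rw [if_neg hij, add_zero]
      split_ifs
      · exact le_rfl
      · exact hg0 i j
  have hTa' : (64 : ℝ) * (Fintype.card V : ℝ) ≤ 9 * ((T : ℝ) * (U.card : ℝ)) := by
    exact_mod_cast hT
  have ha0' : (0 : ℝ) < (U.card : ℝ) := by exact_mod_cast hUpos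
  have hcard' : (U.card : ℝ) ≤ (Fintype.card V : ℝ) := by exact_mod_cast hcard
  rw [← he]
  change (Fintype.card V : ℝ) ≤ ∑ i, ∑ j, g i j
  change (Fintype.card V : ℝ) - U.card ≤ ∑ i, ∑ j, (if f i = f j then g i j else 0) at hb
  set S : ℝ := ∑ i, ∑ j, g i j with hS
  set n : ℝ := (Fintype.card V : ℝ) with hn
  set a : ℝ := (U.card : ℝ) with ha
  by_contra hlt
  rw [not_le] at hlt
  have hTa : 64 * n ≤ 9 * (T * a) := hTa'
  have ha0 : 0 < a := ha0'
  have hn0 : 0 < n := lt_of_lt_of_le ha0 hcard'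
  have h1 : √(∑ i : {x // x ∈ U}, (∑ k, p k * B i.1 k * B i.1 k) ^ 2) ≤ 3 / 8 * √(T * a) := by
    have : 3 / 8 * √(T * a) = √((3 / 8) ^ 2 * (T * a)) := by
      rw [Real.sqrt_mul (by norm_num : (0 : ℝ) ≤ (3 / 8) ^ 2) (T * a),
        Real.sqrt_sq (by norm_num)]
    rw [this]
    refine Real.sqrt_le_sqrt ?_
    linarith
  have h2 : √(T * a) * √(∑ i : {x // x ∈ U}, (∑ k, p k * B i.1 k * B i.1 k) ^ 2)
      ≤ 3 / 8 * (T * a) := by
    calc _ ≤ √(T * a) * (3 / 8 * √(T * a)) :=
          mul_le_mul_of_nonneg_left h1 (Real.sqrt_nonneg _)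
      _ = 3 / 8 * (√(T * a) * √(T * a)) := by ring
      _ = 3 / 8 * (T * a) := by rw [Real.mul_self_sqrt (by positivity)]
  have h3 : 4 * β * √(T * a) * √(∑ i : {x // x ∈ U}, (∑ k, p k * B i.1 k * B i.1 k) ^ 2)
      ≤ 4 * β * (3 / 8 * (T * a)) := by
    rw [mul_assoc]
    exact mul_le_mul_of_nonneg_left h2 (by positivity)
  have h4 : (4 * β - 4 * β ^ 2 - β ^ 2 * T) * (T * a) - 4 * β * (3 / 8 * (T * a))
      = 25 / (16 * (4 + T)) * (T * a) := by
    rw [hβ]
    field_simp
    ring
  have h5 : a ≤ 25 / (16 * (4 + T)) * (T * a) := by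
    rw [div_mul_eq_mul_div, le_div_iff₀ (by positivity)]
    have : (64 : ℝ) ≤ 9 * T := by exact_mod_cast h9T
    nlinarith
  linarith

end densepart

end Pool.Agent.H626.SE
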