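import Pool.Agent.H626.SE.Core

/-!
# Square energy: the equality case of the main inequality
-/

set_option autoImplicit false

namespace Pool.Agent.H626.SE

open Finset Helper76SE

variable {V : Type*} [DecidableEq V] {G : SimpleGraph V} {a c : V → V → ℝ}

open Classical in
/-- What is left in the equality case. -/
structure Good (G : SimpleGraph V) (a c : V → V → ℝ) (S : Finset V) (d : V → ℝ) : Prop where
  E : ∀ w ∈ S, ∃ z : V → ℝ, Q c S d z = 0 ∧ z w = 1
  K : ∀ i ∈ S, ∀ j ∈ S, ∀ l ∈ S, G.Adj i j → G.Adj j l → G.Adj i l →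
    ∃ x : V → ℝ, Q c S d x = 0 ∧ x i = 1 ∧ x j = -1 ∧ x l = 0 ∧
      ∀ m ∈ S, G.Adj l m → m ≠ i → m ≠ j → x m = 0
  T : (∀ i ∈ S, ∀ j ∈ S, ∀ l ∈ S, G.Adj i j → G.Adj j l → G.Adj i l → False) →
    (∑ i ∈ S, ∑ j ∈ S, if G.Adj i j then (1 : ℝ) else 0) = 2 * ((S.card : ℝ) - 1)
  P : ∀ i ∈ S, ∀ j ∈ S, G.Adj i j → a i j < 1

theorem Q_congr {S : Finset V} {d : V → ℝ} {x y : V → ℝ} (h : ∀ i ∈ S, x i = y i) :
    Q c S d x = Q c S d y := by
  unfold Q
  refine F_congr S (fun i hi => by rw [h i hi]) (fun i hi j hj => by rw [h i hi, h j hj])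

theorem Q_smul {S : Finset V} {d : V → ℝ} (t : ℝ) (x : V → ℝ) :
    Q c S d (fun i => t * x i) = t ^ 2 * Q c S d x := by
  unfold Q F
  rw [mul_add, mul_sum, mul_sum]
  congr 1
  · exact sum_congr rfl fun i _ => by ring
  · refine sum_congr rfl fun i _ => ?_
    rw [mul_sum]
    exact sum_congr rfl fun j _ => by ring

/-- the form at `e_i - e_j` -/
theorem Q_diff (W : Wt G a c) {S : Finset V} {d : V → ℝ} {i j : V} (hi : i ∈ S) (hj : j ∈ S)
    (hij : i ≠ j) (x : V → ℝ) (hxi : x i = 1) (hxj : x j = -1)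
    (hx : ∀ m ∈ S, m ≠ i → m ≠ j → x m = 0) :
    Q c S d x = d i + d j - 2 * c i j := by
  have e1 : S = insert i (insert j ((S.erase i).erase j)) := by
    rw [insert_erase (mem_erase.2 ⟨hij.symm, hj⟩), insert_erase hi]
  have hjn : j ∉ (S.erase i).erase j := notMem_erase _ _
  have hin : i ∉ insert j ((S.erase i).erase j) := by
    rw [insert_erase (mem_erase.2 ⟨hij.symm, hj⟩)]
    exact notMem_erase _ _
  have hz : ∀ m ∈ (S.erase i).erase j, x m = 0 := by
    intro m hm
    rw [mem_erase, mem_erase] at hm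
    exact hx m hm.2.2 hm.2.1 hm.1
  rw [e1, Q_insert W _ i hin, Q_insert W _ j hjn, sum_insert hjn]
  have h1 : ∑ l ∈ (S.erase i).erase j, c i l * x l = 0 :=
    sum_eq_zero fun l hl => by rw [hz l hl, mul_zero]
  have h2 : ∑ l ∈ (S.erase i).erase j, c j l * x l = 0 :=
    sum_eq_zero fun l hl => by rw [hz l hl, mul_zero]
  have h3 : Q c ((S.erase i).erase j) d x = 0 := by
    have : Q c ((S.erase i).erase j) d x = Q c ((S.erase i).erase j) d (fun _ => 0) :=
      Q_congr hz
    rw [this]
    simp [Q, F]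
  rw [h1, h2, h3, hxi, hxj]
  ring

/-- The equality case for complete graphs. -/
theorem complete_eq (W : Wt G a c) {S : Finset V} {d : V → ℝ} (hQ : ∀ x, 0 ≤ Q c S d x)
    (hn : 2 ≤ S.card) (hcomp : ∀ i ∈ S, ∀ j ∈ S, i ≠ j → G.Adj i j)
    (hle : Phi a S d ≤ (S.card : ℝ) - 1) :
    (∀ i ∈ S, ∀ j ∈ S, i ≠ j → d i + d j - 2 * c i j = 0) ∧
      ∀ i ∈ S, ∀ j ∈ S, i ≠ j → a i j < 1 := by
  classical
  have hn' : (2 : ℝ) ≤ S.card := by exact_mod_cast hn
  set n : ℝ := (S.card : ℝ) with hndef
  have hn1 : 0 < n - 1 := by linarith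
  have hn0 : 0 < n := by linarith
  -- slack of the pairs
  set f : V → V → ℝ := fun i j => if i = j then 0 else (d i + d j) / 2 - c i j with hf
  set e : V → V → ℝ := fun i j => if i = j then 0 else c i j / (n - 1) + a i j ^ 2 - 1 / n with he
  have hf0 : ∀ i ∈ S, ∀ j ∈ S, 0 ≤ f i j := by
    intro i hi j hj
    simp only [hf]
    split_ifs with hij
    · exact le_rfl
    · have := Q_two W hQ hi hj hij 1 (-1)
      linarith
  have hpair : ∀ x : ℝ, 1 / n ≤ (1 - x) ^ 2 / (n - 1) + x ^ 2 := by
    intro x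
    have h2 : (1 - x) ^ 2 / (n - 1) + x ^ 2 - 1 / n = (n * x - 1) ^ 2 / (n * (n - 1)) := by
      field_simp
      ring
    have h3 : 0 ≤ (n * x - 1) ^ 2 / (n * (n - 1)) := by positivity
    linarith
  have he0 : ∀ i ∈ S, ∀ j ∈ S, 0 ≤ e i j := by
    intro i hi j hj
    simp only [he]
    split_ifs with hij
    · exact le_rfl
    · have h1 := hpair (a i j)
      have h2 := W.hca i j (hcomp i hi j hj hij)
      have h3 : (1 - a i j) ^ 2 / (n - 1) ≤ c i j / (n - 1) :=
        div_le_div_of_nonneg_right h2 hn1.le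
      linarith
  -- sums
  have hsf : ∑ i ∈ S, ∑ j ∈ S, f i j = (n - 1) * ∑ i ∈ S, d i - ∑ i ∈ S, ∑ j ∈ S, c i j := by
    have h2 : ∀ i ∈ S, ∑ j ∈ S, f i j
        = n * d i / 2 + (∑ j ∈ S, d j) / 2 - d i - ∑ j ∈ S, c i j := by
      intro i hi
      have h3 : ∀ j ∈ S, f i j = (d i + d j) / 2 - (if i = j then d i else 0) - c i j := by
        intro j hj
        simp only [hf]
        by_cases hij : i = j
        · rw [if_pos hij, if_pos hij, ← hij, W.hnc i i (G.irrefl)]; ring
        · rw [if_neg hij, if_neg hij]; ring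
      rw [sum_congr rfl h3, sum_sub_distrib, sum_sub_distrib, sum_ite_eq, if_pos hi, ← sum_div,
        sum_add_distrib, sum_const, nsmul_eq_mul]
      ring
    rw [sum_congr rfl h2, sum_sub_distrib, sum_sub_distrib, sum_add_distrib, sum_const,
      nsmul_eq_mul, ← sum_div, ← mul_sum]
    ring
  have hse : ∑ i ∈ S, ∑ j ∈ S, e i j
      = (∑ i ∈ S, ∑ j ∈ S, c i j) / (n - 1) + ∑ i ∈ S, ∑ j ∈ S, a i j ^ 2 - (n - 1) := by
    have h2 : ∀ i ∈ S, ∑ j ∈ S, e i j
        = (∑ j ∈ S, c i j) / (n - 1) + ∑ j ∈ S, a i j ^ 2 - (n - 1) / n := by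
      intro i hi
      have h3 : ∀ j ∈ S, e i j = c i j / (n - 1) + a i j ^ 2
          - (1 / n - if i = j then 1 / n else 0) := by
        intro j hj
        simp only [he]
        by_cases hij : i = j
        · rw [if_pos hij, if_pos hij, ← hij, W.hnc i i (G.irrefl), W.hna i i (G.irrefl)]; ring
        · rw [if_neg hij, if_neg hij]; ring
      rw [sum_congr rfl h3, sum_sub_distrib, sum_add_distrib, sum_sub_distrib, sum_ite_eq,
        if_pos hi, ← sum_div, sum_const, nsmul_eq_mul]
      field_simp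
      ring
    rw [sum_congr rfl h2, sum_sub_distrib, sum_add_distrib, sum_const,
      nsmul_eq_mul, ← sum_div, ← hndef]
    field_simp
  have hf1 : 0 ≤ ∑ i ∈ S, ∑ j ∈ S, f i j := sum_nonneg fun i hi => sum_nonneg fun j hj => hf0 i hi j hj
  have he1 : 0 ≤ ∑ i ∈ S, ∑ j ∈ S, e i j := sum_nonneg fun i hi => sum_nonneg fun j hj => he0 i hi j hj
  have hPhi : Phi a S d = ∑ i ∈ S, d i + ∑ i ∈ S, ∑ j ∈ S, a i j ^ 2 := rfl
  have htot : (∑ i ∈ S, ∑ j ∈ S, f i j) / (n - 1) + ∑ i ∈ S, ∑ j ∈ S, e i j ≤ 0 := by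
    rw [hsf, hse, sub_div, mul_div_assoc, mul_div_cancel₀]
    · rw [hPhi] at hle
      linarith
    · exact hn1.ne'
  have hf2 : ∑ i ∈ S, ∑ j ∈ S, f i j = 0 := by
    have h1 : 0 ≤ (∑ i ∈ S, ∑ j ∈ S, f i j) / (n - 1) := div_nonneg hf1 hn1.le
    have h2 : (∑ i ∈ S, ∑ j ∈ S, f i j) / (n - 1) = 0 := by linarith
    rcases div_eq_zero_iff.1 h2 with h3 | h3
    · exact h3
    · exact absurd h3 hn1.ne'
  have he2 : ∑ i ∈ S, ∑ j ∈ S, e i j = 0 := by
    rw [hf2, zero_div] at htot
    linarith
  have hf3 : ∀ i ∈ S, ∀ j ∈ S, f i j = 0 := by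
    intro i hi j hj
    have h1 := (sum_eq_zero_iff_of_nonneg (fun i hi => sum_nonneg fun j hj => hf0 i hi j hj)).1
      hf2 i hi
    exact (sum_eq_zero_iff_of_nonneg (fun j hj => hf0 i hi j hj)).1 h1 j hj
  have he3 : ∀ i ∈ S, ∀ j ∈ S, e i j = 0 := by
    intro i hi j hj
    have h1 := (sum_eq_zero_iff_of_nonneg (fun i hi => sum_nonneg fun j hj => he0 i hi j hj)).1
      he2 i hi
    exact (sum_eq_zero_iff_of_nonneg (fun j hj => he0 i hi j hj)).1 h1 j hj
  refine ⟨?_, ?_⟩
  · intro i hi j hj hij
    have := hf3 i hi j hj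
    simp only [hf, if_neg hij] at this
    linarith
  · intro i hi j hj hij
    have h1 := he3 i hi j hj
    simp only [he, if_neg hij] at h1
    by_contra hcon
    push Not at hcon
    have h2 : a i j = 1 := le_antisymm (W.ha1 i j) hcon
    rw [h2] at h1
    have h3 : 0 ≤ c i j / (n - 1) := div_nonneg (W.hc0 i j) hn1.le
    have h4 : 1 / n < 1 := by rw [div_lt_one hn0]; linarith
    linarith

/-- A complete graph minus one edge is not extremal. -/
theorem near_strict (W : Wt G a c) {P : Finset V} {u w : V} (hu : u ∉ P) (hw : w ∉ P)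
    (huw : u ≠ w) (hn : ¬ G.Adj u w) (hP : 2 ≤ P.card) {d : V → ℝ}
    (hQ : ∀ x, 0 ≤ Q c (insert u (insert w P)) d x)
    (hcomp : ∀ i ∈ insert u (insert w P), ∀ j ∈ insert u (insert w P), i ≠ j →
      ¬ G.Adj i j → (i = u ∧ j = w) ∨ (i = w ∧ j = u)) :
    ((insert u (insert w P)).card : ℝ) - 1 < Phi a (insert u (insert w P)) d := by
  classical
  have hu' : u ∉ insert w P := by
    rw [mem_insert]; rintro (h | h)
    · exact huw h
    · exact hu h
  have hcard : ((insert u (insert w P)).card : ℝ) = P.card + 2 := by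
    rw [card_insert_of_notMem hu', card_insert_of_notMem hw]
    push_cast; ring
  have hPS : P ⊆ insert u (insert w P) := fun t ht =>
    mem_insert_of_mem (mem_insert_of_mem ht)
  have hPQ := Q_restrict W hPS d hQ
  have hp1 : (2 : ℝ) ≤ P.card := by exact_mod_cast hP
  have h1 := c_bound W hPQ
  set p : ℝ := (P.card : ℝ) with hp
  have hnw : ¬ G.Adj w u := fun h => hn h.symm
  -- star terms
  have h2 : ∀ j ∈ P, 2 * (c u j + c w j) ≤ d u + d w + d j := by
    intro j hj
    have hju : u ≠ j := fun h => hu (h ▸ hj)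
    have hjw : w ≠ j := fun h => hw (h ▸ hj)
    have := Q_three W hQ (mem_insert_self u _) (hPS hj)
      (mem_insert_of_mem (mem_insert_self w _)) hju hjw.symm huw 1 (-1) 1
    rw [W.hnc u w hn, W.hcs j w] at this
    linarith
  have h3 : 2 * ∑ j ∈ P, (c u j + c w j) ≤ p * (d u + d w) + ∑ j ∈ P, d j := by
    rw [mul_sum]
    refine (sum_le_sum h2).trans (le_of_eq ?_)
    rw [sum_add_distrib, sum_const, nsmul_eq_mul]
  have hsplit : ∀ (m : V → V → ℝ), (∀ i j, m i j = m j i) → m u u = 0 → m w w = 0 → m u w = 0 →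
      ∑ i ∈ insert u (insert w P), ∑ j ∈ insert u (insert w P), m i j
        = 2 * ∑ j ∈ P, (m u j + m w j) + ∑ i ∈ P, ∑ j ∈ P, m i j := by
    intro m hm huu hww huw'
    have e1 := F_insert (insert w P) u hu' (fun _ => 0) m
    have e2 := F_insert P w hw (fun _ => 0) m
    rw [e2] at e1
    unfold F at e1
    simp only [sum_const_zero, zero_add] at e1
    rw [e1, sum_insert hw, sum_insert hw, hm w u, huu, hww, huw']
    have e3 : ∑ j ∈ P, m j u = ∑ j ∈ P, m u j := sum_congr rfl fun j _ => hm j u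
    have e4 : ∑ j ∈ P, m j w = ∑ j ∈ P, m w j := sum_congr rfl fun j _ => hm j w
    rw [e3, e4, sum_add_distrib]
    ring
  have hC := hsplit c W.hcs (W.hnc u u (G.irrefl)) (W.hnc w w (G.irrefl)) (W.hnc u w hn)
  have hD : ∑ i ∈ insert u (insert w P), d i = d u + d w + ∑ j ∈ P, d j := by
    rw [sum_insert hu', sum_insert hw]; ring
  have h4 : ∑ i ∈ insert u (insert w P), ∑ j ∈ insert u (insert w P), c i j
      ≤ p * ∑ i ∈ insert u (insert w P), d i := by
    rw [hC, hD]
    linarith
  have h5 := edge_sum W (insert u (insert w P)) d (1 / p) (by positivity) (by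
    rw [one_div, inv_mul_le_iff₀ (by linarith)]
    exact h4)
  have hadj : ∀ i ∈ insert u (insert w P), ∀ j ∈ insert u (insert w P), i ≠ j →
      ¬ ((i = u ∧ j = w) ∨ (i = w ∧ j = u)) → G.Adj i j := by
    intro i hi j hj hij h
    by_contra h'
    exact h (hcomp i hi j hj hij h')
  have h6 : (∑ i ∈ insert u (insert w P), ∑ j ∈ insert u (insert w P),
      if G.Adj i j then (1 : ℝ) else 0) = 4 * p + p * (p - 1) := by
    rw [hsplit (fun i j => if G.Adj i j then (1 : ℝ) else 0)
      (fun i j => by simp only [G.adj_comm i j]) (if_neg G.irrefl) (if_neg G.irrefl) (if_neg hn)]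
    have e1 : ∀ j ∈ P, ((if G.Adj u j then (1 : ℝ) else 0) + (if G.Adj w j then (1 : ℝ) else 0))
        = 2 := by
      intro j hj
      have hju : u ≠ j := fun h => hu (h ▸ hj)
      have hjw : w ≠ j := fun h => hw (h ▸ hj)
      rw [if_pos (hadj u (mem_insert_self u _) j (hPS hj) hju ?_),
        if_pos (hadj w (mem_insert_of_mem (mem_insert_self w _)) j (hPS hj) hjw ?_)]
      · norm_num
      · rintro (⟨h, _⟩ | ⟨_, h⟩)
        · exact huw h.symm
        · exact hju h.symm
      · rintro (⟨_, h⟩ | ⟨h, _⟩)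
        · exact hjw h.symm
        · exact huw h
    have e2 : ∀ i ∈ P, (∑ j ∈ P, if G.Adj i j then (1 : ℝ) else 0) = p - 1 := by
      intro i hi
      have h4 : ∀ j ∈ P, (if G.Adj i j then (1 : ℝ) else 0) = 1 - (if i = j then 1 else 0) := by
        intro j hj
        by_cases hij : i = j
        · rw [hij, if_neg (G.irrefl), if_pos rfl]; ring
        · rw [if_pos (hadj i (hPS hi) j (hPS hj) hij ?_), if_neg hij]
          · ring
          · rintro (⟨h, _⟩ | ⟨h, _⟩)
            · exact hu (h ▸ hi)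
            · exact hw (h ▸ hi)
      rw [sum_congr rfl h4, sum_sub_distrib, sum_ite_eq, if_pos hi, sum_const, nsmul_eq_mul,
        mul_one]
    rw [sum_congr rfl e1, sum_congr rfl e2, sum_const, sum_const, nsmul_eq_mul, nsmul_eq_mul]
    ring
  rw [h6] at h5
  refine lt_of_lt_of_le ?_ h5
  rw [hcard]
  have h7 : 1 / p / (1 + 1 / p) = 1 / (p + 1) := by
    have : p ≠ 0 := by linarith
    have : p + 1 ≠ 0 := by linarith
    field_simp
  rw [h7, one_div, ← div_eq_inv_mul, lt_div_iff₀ (by linarith)]
  nlinarith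

/-- The form splits at a cut vertex. -/
theorem Q_glue (W : Wt G a c) {A B : Finset V} {v : V} (hvA : v ∉ A) (hvB : v ∉ B)
    (hd : Disjoint A B) (hAB : ∀ i ∈ A, ∀ j ∈ B, ¬ G.Adj i j) {d : V → ℝ} {m1 m2 : ℝ}
    (hm : m1 + m2 = d v) (x : V → ℝ) :
    Q c (insert v (A ∪ B)) d x = Q c (insert v A) (Function.update d v m1) x
      + Q c (insert v B) (Function.update d v m2) x := by
  have hvAB : v ∉ A ∪ B := by rw [mem_union]; rintro (h | h) <;> contradiction
  have hBA : ∀ i ∈ A, ∀ j ∈ B, ¬ G.Adj j i := fun i hi j hj h => hAB i hi j hj h.symm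
  have hQAB : Q c (A ∪ B) d x = Q c A d x + Q c B d x := by
    unfold Q
    refine F_union A B hd _ _ ?_ ?_
    · intro i hi j hj; rw [W.hnc _ _ (hAB i hi j hj)]; ring
    · intro i hi j hj; rw [W.hnc _ _ (hBA i hi j hj)]; ring
  have hupd : ∀ (A : Finset V) (m : ℝ), v ∉ A → Q c A (Function.update d v m) x = Q c A d x := by
    intro A m hA
    unfold Q
    refine F_congr A (fun i hi => ?_) (fun i _ j _ => rfl)
    have : i ≠ v := fun e => hA (e ▸ hi)
    rw [Function.update_of_ne this]
  rw [Q_insert W _ v hvAB, Q_insert W A v hvA, Q_insert W B v hvB, Function.update_self,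
    Function.update_self, hupd A m1 hvA, hupd B m2 hvB, hQAB, sum_union hd, ← hm]
  ring

/-- gluing of vectors -/
theorem glue_vec (W : Wt G a c) {A B : Finset V} {v : V} (hvA : v ∉ A) (hvB : v ∉ B)
    (hd : Disjoint A B) (hAB : ∀ i ∈ A, ∀ j ∈ B, ¬ G.Adj i j) {d : V → ℝ} {m1 m2 : ℝ}
    (hm : m1 + m2 = d v) (gB : Good G a c (insert v B) (Function.update d v m2))
    (x : V → ℝ) (hx : Q c (insert v A) (Function.update d v m1) x = 0) :
    ∃ y : V → ℝ, Q c (insert v (A ∪ B)) d y = 0 ∧ (∀ m ∈ insert v A, y m = x m) ∧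
      (x v = 0 → ∀ m ∈ B, y m = 0) := by
  obtain ⟨z, hz, hzv⟩ := gB.E v (mem_insert_self v B)
  refine ⟨fun m => if m ∈ insert v A then x m else x v * z m, ?_, ?_, ?_⟩
  · rw [Q_glue W hvA hvB hd hAB hm]
    have e1 : Q c (insert v A) (Function.update d v m1)
        (fun m => if m ∈ insert v A then x m else x v * z m) = 0 := by
      rw [← hx]
      exact Q_congr fun m hm => by simp only [if_pos hm]
    have e2 : Q c (insert v B) (Function.update d v m2)
        (fun m => if m ∈ insert v A then x m else x v * z m) = 0 := by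
      have : Q c (insert v B) (Function.update d v m2)
        (fun m => if m ∈ insert v A then x m else x v * z m)
        = Q c (insert v B) (Function.update d v m2) (fun m => x v * z m) := by
        refine Q_congr fun m hm => ?_
        rw [mem_insert] at hm
        rcases hm with hm | hm
        · rw [hm, if_pos (mem_insert_self v A), hzv, mul_one]
        · rw [if_neg]
          rw [mem_insert]
          rintro (h | h)
          · exact hvB (h ▸ hm)
          · exact (Finset.disjoint_left.1 hd h) hm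
      rw [this, Q_smul, hz, mul_zero]
    rw [e1, e2, add_zero]
  · intro m hm
    simp only [if_pos hm]
  · intro h0 m hm
    have : m ∉ insert v A := by
      rw [mem_insert]
      rintro (h | h)
      · exact hvB (h ▸ hm)
      · exact (Finset.disjoint_left.1 hd h) hm
    simp only [if_neg this, h0, zero_mul]

/-- one half of the gluing -/
theorem glue_half (W : Wt G a c) {A B : Finset V} {v : V} (hvA : v ∉ A) (hvB : v ∉ B)
    (hd : Disjoint A B) (hAB : ∀ i ∈ A, ∀ j ∈ B, ¬ G.Adj i j) {d : V → ℝ} {m1 m2 : ℝ}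
    (hm : m1 + m2 = d v) (gA : Good G a c (insert v A) (Function.update d v m1))
    (gB : Good G a c (insert v B) (Function.update d v m2)) :
    (∀ w ∈ insert v A, ∃ z : V → ℝ, Q c (insert v (A ∪ B)) d z = 0 ∧ z w = 1) ∧
    (∀ i ∈ insert v A, ∀ j ∈ insert v A, ∀ l ∈ insert v A, G.Adj i j → G.Adj j l → G.Adj i l →
      ∃ x : V → ℝ, Q c (insert v (A ∪ B)) d x = 0 ∧ x i = 1 ∧ x j = -1 ∧ x l = 0 ∧
      ∀ m ∈ insert v (A ∪ B), G.Adj l m → m ≠ i → m ≠ j → x m = 0) := by
  refine ⟨?_, ?_⟩
  · intro w hw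
    obtain ⟨z, hz, hzw⟩ := gA.E w hw
    obtain ⟨y, hy, hy2, _⟩ := glue_vec W hvA hvB hd hAB hm gB z hz
    exact ⟨y, hy, by rw [hy2 w hw, hzw]⟩
  · intro i hi j hj l hl hij hjl hil
    obtain ⟨x, hx, hxi, hxj, hxl, hxm⟩ := gA.K i hi j hj l hl hij hjl hil
    obtain ⟨y, hy, hy2, hy3⟩ := glue_vec W hvA hvB hd hAB hm gB x hx
    refine ⟨y, hy, by rw [hy2 i hi, hxi], by rw [hy2 j hj, hxj], by rw [hy2 l hl, hxl], ?_⟩
    intro m hmS hlm hmi hmj
    by_cases hmA : m ∈ insert v A
    · rw [hy2 m hmA]
      exact hxm m hmA hlm hmi hmj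
    · have hmB : m ∈ B := by
        rw [mem_insert, mem_union] at hmS
        rcases hmS with h | h | h
        · exact absurd (h ▸ mem_insert_self v A) hmA
        · exact absurd (mem_insert_of_mem h) hmA
        · exact h
      rw [mem_insert] at hl
      rcases hl with hl | hl
      · exact hy3 (by rw [← hl, hxl]) m hmB
      · exact absurd hlm (hAB l hl m hmB)

theorem glue_good (W : Wt G a c) {A B : Finset V} {v : V} (hvA : v ∉ A) (hvB : v ∉ B)
    (hd : Disjoint A B) (hAB : ∀ i ∈ A, ∀ j ∈ B, ¬ G.Adj i j) {d : V → ℝ} {m1 m2 : ℝ}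
    (hm : m1 + m2 = d v) (gA : Good G a c (insert v A) (Function.update d v m1))
    (gB : Good G a c (insert v B) (Function.update d v m2)) :
    Good G a c (insert v (A ∪ B)) d := by
  classical
  have hBA : ∀ i ∈ B, ∀ j ∈ A, ¬ G.Adj i j := fun i hi j hj h => hAB j hj i hi h.symm
  obtain ⟨EA, KA⟩ := glue_half W hvA hvB hd hAB hm gA gB
  have hBsw := glue_half W hvB hvA hd.symm hBA (by rw [add_comm]; exact hm) gB gA
  rw [union_comm B A] at hBsw
  obtain ⟨EB, KB⟩ := hBsw
  have hvAB : v ∉ A ∪ B := by rw [mem_union]; rintro (h | h) <;> contradiction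
  have adjA : ∀ i ∈ A, ∀ j ∈ insert v (A ∪ B), G.Adj i j → j ∈ insert v A := by
    intro i hi j hj hij
    rw [mem_insert, mem_union] at hj
    rcases hj with h | h | h
    · rw [h]; exact mem_insert_self _ _
    · exact mem_insert_of_mem h
    · exact absurd hij (hAB i hi j h)
  have adjB : ∀ i ∈ B, ∀ j ∈ insert v (A ∪ B), G.Adj i j → j ∈ insert v B := by
    intro i hi j hj hij
    rw [mem_insert, mem_union] at hj
    rcases hj with h | h | h
    · rw [h]; exact mem_insert_self _ _
    · exact absurd hij (hBA i hi j h)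
    · exact mem_insert_of_mem h
  -- a triangle lies on one side
  have side : ∀ i ∈ insert v (A ∪ B), ∀ j ∈ insert v (A ∪ B), ∀ l ∈ insert v (A ∪ B),
      G.Adj i j → G.Adj j l → G.Adj i l →
      (i ∈ insert v A ∧ j ∈ insert v A ∧ l ∈ insert v A) ∨
      (i ∈ insert v B ∧ j ∈ insert v B ∧ l ∈ insert v B) := by
    intro i hi j hj l hl hij hjl hil
    rcases mem_insert.1 hi with h | h
    · -- i = v
      rcases mem_insert.1 hj with h' | h'
      · exact absurd (h.trans h'.symm) hij.ne
      · rcases mem_union.1 h' with h' | h'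
        · left
          exact ⟨by rw [h]; exact mem_insert_self _ _, mem_insert_of_mem h', adjA j h' l hl hjl⟩
        · right
          exact ⟨by rw [h]; exact mem_insert_self _ _, mem_insert_of_mem h', adjB j h' l hl hjl⟩
    · rcases mem_union.1 h with h' | h'
      · left
        exact ⟨mem_insert_of_mem h', adjA i h' j hj hij, adjA i h' l hl hil⟩
      · right
        exact ⟨mem_insert_of_mem h', adjB i h' j hj hij, adjB i h' l hl hil⟩
  refine ⟨?_, ?_, ?_, ?_⟩
  · intro w hw
    rcases mem_insert.1 hw with h | h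
    · exact EA w (by rw [h]; exact mem_insert_self _ _)
    · rcases mem_union.1 h with h' | h'
      · exact EA w (mem_insert_of_mem h')
      · exact EB w (mem_insert_of_mem h')
  · intro i hi j hj l hl hij hjl hil
    rcases side i hi j hj l hl hij hjl hil with ⟨h1, h2, h3⟩ | ⟨h1, h2, h3⟩
    · exact KA i h1 j h2 l h3 hij hjl hil
    · exact KB i h1 j h2 l h3 hij hjl hil
  · intro hno
    have hSA : ∀ t ∈ insert v A, t ∈ insert v (A ∪ B) := by
      intro t ht
      rcases mem_insert.1 ht with h | h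
      · rw [h]; exact mem_insert_self _ _
      · exact mem_insert_of_mem (mem_union_left _ h)
    have hSB : ∀ t ∈ insert v B, t ∈ insert v (A ∪ B) := by
      intro t ht
      rcases mem_insert.1 ht with h | h
      · rw [h]; exact mem_insert_self _ _
      · exact mem_insert_of_mem (mem_union_right _ h)
    have tA := gA.T (fun i hi j hj l hl => hno i (hSA i hi) j (hSA j hj) l (hSA l hl))
    have tB := gB.T (fun i hi j hj l hl => hno i (hSB i hi) j (hSB j hj) l (hSB l hl))
    have e1 : ∀ (A : Finset V), v ∉ A →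
        (∑ i ∈ insert v A, ∑ j ∈ insert v A, if G.Adj i j then (1 : ℝ) else 0)
        = 2 * (∑ j ∈ A, if G.Adj v j then (1 : ℝ) else 0)
          + ∑ i ∈ A, ∑ j ∈ A, if G.Adj i j then (1 : ℝ) else 0 := by
      intro A hvA
      have h := F_insert A v hvA (fun _ => 0) (fun i j => if G.Adj i j then (1 : ℝ) else 0)
      unfold F at h
      simp only [sum_const_zero, zero_add] at h
      rw [h, if_neg G.irrefl]
      have h2 : (∑ j ∈ A, if G.Adj j v then (1 : ℝ) else 0)
          = ∑ j ∈ A, if G.Adj v j then (1 : ℝ) else 0 :=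
        sum_congr rfl fun j _ => by simp only [G.adj_comm j v]
      rw [h2]; ring
    have e2 : (∑ i ∈ A ∪ B, ∑ j ∈ A ∪ B, if G.Adj i j then (1 : ℝ) else 0)
        = (∑ i ∈ A, ∑ j ∈ A, if G.Adj i j then (1 : ℝ) else 0)
          + ∑ i ∈ B, ∑ j ∈ B, if G.Adj i j then (1 : ℝ) else 0 := by
      have h := F_union A B hd (fun _ => 0) (fun i j => if G.Adj i j then (1 : ℝ) else 0)
        (fun i hi j hj => if_neg (hAB i hi j hj)) (fun i hi j hj => if_neg (hBA j hj i hi))
      unfold F at h
      simp only [sum_const_zero, zero_add] at h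
      exact h
    rw [e1 A hvA, card_insert_of_notMem hvA] at tA
    rw [e1 B hvB, card_insert_of_notMem hvB] at tB
    rw [e1 (A ∪ B) hvAB, e2, sum_union hd, card_insert_of_notMem hvAB,
      card_union_of_disjoint hd]
    push_cast at tA tB ⊢
    linarith
  · intro i hi j hj hij
    rcases mem_insert.1 hi with h | h
    · rcases mem_insert.1 hj with h' | h'
      · exact absurd (h.trans h'.symm) hij.ne
      · rcases mem_union.1 h' with h' | h'
        · exact gA.P i (by rw [h]; exact mem_insert_self _ _) j (mem_insert_of_mem h') hij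
        · exact gB.P i (by rw [h]; exact mem_insert_self _ _) j (mem_insert_of_mem h') hij
    · rcases mem_union.1 h with h' | h'
      · exact gA.P i (mem_insert_of_mem h') j (adjA i h' j hj hij) hij
      · exact gB.P i (mem_insert_of_mem h') j (adjB i h' j hj hij) hij

/-- The equality case of the main inequality. -/
theorem main_eq (W : Wt G a c) : ∀ (n : ℕ) (S : Finset V), S.card = n → ∀ d : V → ℝ, Conn G S →
    (∀ x, 0 ≤ Q c S d x) → Phi a S d ≤ (n : ℝ) - 1 → Good G a c S d := by
  intro n
  induction n using Nat.strong_induction_on with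
  | _ n ih =>
  intro S hS d hc hQ hle
  rcases Nat.lt_or_ge n 2 with hn | hn
  · have h1 := Phi_nonneg W hQ
    rcases Nat.lt_or_ge n 1 with hn0 | hn0
    · have : n = 0 := by omega
      rw [this] at hle
      norm_num at hle
      linarith
    · have hn1 : n = 1 := by omega
      rw [hn1] at hS hle
      obtain ⟨w, hw⟩ := card_eq_one.1 hS
      subst hw
      have hPhi : Phi a {w} d = d w := by
        simp [Phi, F, W.hna w w (G.irrefl)]
      rw [hPhi] at hle h1
      have hdw : d w = 0 := by norm_num at hle; linarith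
      refine ⟨?_, ?_, ?_, ?_⟩
      · intro v hv
        rw [mem_singleton] at hv
        refine ⟨fun _ => 1, ?_, rfl⟩
        simp [Q, F, hdw, W.hnc w w (G.irrefl)]
      · intro i hi j hj l hl hij
        rw [mem_singleton] at hi hj
        exact absurd (hi.trans hj.symm) hij.ne
      · intro _
        simp
      · intro i hi j hj hij
        rw [mem_singleton] at hi hj
        exact absurd (hi.trans hj.symm) hij.ne
  by_cases hcut : ∃ v ∈ S, ¬ Conn G (S.erase v)
  · obtain ⟨v, hv, hnc⟩ := hcut
    unfold Conn at hnc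
    push Not at hnc
    obtain ⟨A, hA, hAne, hAne', hno⟩ := hnc
    set B := S.erase v \ A with hB
    have hvA : v ∉ A := fun h => (mem_erase.1 (hA h)).1 rfl
    have hvB : v ∉ B := fun h => (mem_erase.1 (mem_sdiff.1 h).1).1 rfl
    have hd : Disjoint A B := disjoint_sdiff
    have hAB : A ∪ B = S.erase v := union_sdiff_of_subset hA
    have hSe : S = insert v (A ∪ B) := by rw [hAB, insert_erase hv]
    have hBne : B.Nonempty := by
      rw [hB, sdiff_nonempty]
      intro h
      exact hAne' (subset_antisymm hA h)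
    have hno' : ∀ i ∈ A, ∀ j ∈ B, ¬ G.Adj i j := by
      intro i hi j hj
      exact hno i hi j (mem_sdiff.1 hj).1 (mem_sdiff.1 hj).2
    have hno2 : ∀ i ∈ B, ∀ j ∈ A, ¬ G.Adj i j := fun i hi j hj h => hno' j hj i hi h.symm
    have hvAB : v ∉ A ∪ B := by rw [hAB]; exact notMem_erase v S
    have hcard : n = A.card + B.card + 1 := by
      rw [← hS, hSe, card_insert_of_notMem hvAB, card_union_of_disjoint hd]
    have hA1 := hAne.card_pos
    have hB1 := hBne.card_pos
    obtain ⟨m1, m2, hm, hq1, hq2⟩ := split W hSe hvA hvB hd hno' d hQ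
    have hupd : ∀ (A : Finset V) (m : ℝ), v ∉ A → ∀ i ∈ A, Function.update d v m i = d i := by
      intro A m hvA i hi
      have : i ≠ v := fun e => hvA (e ▸ hi)
      exact Function.update_of_ne this _ _
    have hQm : ∀ (A : Finset V) (m : ℝ), v ∉ A →
        (∀ x, 0 ≤ m * x v ^ 2 + 2 * x v * ∑ j ∈ A, c v j * x j + Q c A d x) →
        ∀ x, 0 ≤ Q c (insert v A) (Function.update d v m) x := by
      intro A m hvA hq x
      rw [Q_insert W A v hvA, Function.update_self]
      have : Q c A (Function.update d v m) x = Q c A d x := by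
        unfold Q
        exact F_congr A (fun i hi => by rw [hupd A m hvA i hi]) (fun i _ j _ => rfl)
      rw [this]
      exact hq x
    have hPm : ∀ (A : Finset V) (m : ℝ), v ∉ A →
        Phi a (insert v A) (Function.update d v m) = m + 2 * ∑ j ∈ A, a v j ^ 2 + Phi a A d := by
      intro A m hvA
      rw [Phi_insert W A v hvA, Function.update_self]
      congr 1
      unfold Phi
      exact F_congr A (hupd A m hvA) (fun i _ j _ => rfl)
    have cA : Conn G (insert v A) := Conn_side hSe hvA hno' hc hd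
    have cB : Conn G (insert v B) :=
      Conn_side (by rw [hSe, union_comm]) hvB hno2 hc hd.symm
    have kA : (insert v A).card = A.card + 1 := card_insert_of_notMem hvA
    have kB : (insert v B).card = B.card + 1 := card_insert_of_notMem hvB
    have s1 := main W (A.card + 1) (insert v A) kA _ cA (hQm A m1 hvA hq1)
    have s2 := main W (B.card + 1) (insert v B) kB _ cB (hQm B m2 hvB hq2)
    rw [hPm A m1 hvA] at s1
    rw [hPm B m2 hvB] at s2
    have h3 : Phi a S d = d v + 2 * ∑ j ∈ A ∪ B, a v j ^ 2 + (Phi a A d + Phi a B d) := by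
      rw [hSe, Phi_insert W _ v hvAB]
      congr 1
      unfold Phi
      refine F_union A B hd _ _ ?_ ?_
      · intro i hi j hj; rw [W.hna _ _ (hno' i hi j hj)]; ring
      · intro i hi j hj; rw [W.hna _ _ (hno2 j hj i hi)]; ring
    rw [sum_union hd] at h3
    have h4 : (n : ℝ) = A.card + B.card + 1 := by rw [hcard]; push_cast; ring
    rw [h3, h4] at hle
    push_cast at s1 s2
    have gA := ih (A.card + 1) (by omega) (insert v A) kA _ cA (hQm A m1 hvA hq1) (by
      rw [hPm A m1 hvA]; push_cast; linarith)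
    have gB := ih (B.card + 1) (by omega) (insert v B) kB _ cB (hQm B m2 hvB hq2) (by
      rw [hPm B m2 hvB]; push_cast; linarith)
    rw [hSe]
    exact glue_good W hvA hvB hd hno' hm gA gB
  · push Not at hcut
    have hst : ∀ v ∈ S, d v + 2 * ∑ j ∈ S.erase v, a v j ^ 2 ≤ 1 := by
      intro v hv
      have h1 := main W (n - 1) (S.erase v) (by rw [card_erase_of_mem hv, hS]) d
        (hcut v hv) (Q_restrict W (erase_subset v S) d hQ)
      have h2 := Phi_insert W (S.erase v) v (notMem_erase v S) d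
      rw [insert_erase hv] at h2
      rw [Nat.cast_sub (by omega)] at h1
      push_cast at h1
      linarith
    by_cases hcomp : ∀ i ∈ S, ∀ j ∈ S, i ≠ j → G.Adj i j
    · obtain ⟨hE, hP⟩ := complete_eq W hQ (by omega) hcomp (by rw [hS]; exact hle)
      classical
      have hQd : ∀ i ∈ S, ∀ j ∈ S, i ≠ j →
          Q c S d (fun m => if m = i then 1 else if m = j then -1 else 0) = 0 := by
        intro i hi j hj hij
        rw [Q_diff W hi hj hij _ (by simp) (by simp [hij.symm]) ?_]
        · exact hE i hi j hj hij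
        · intro m _ h1 h2
          simp [h1, h2]
      refine ⟨?_, ?_, ?_, ?_⟩
      · intro w hw
        obtain ⟨w', hw', hne⟩ := exists_mem_ne (by omega : 1 < S.card) w
        exact ⟨_, hQd w hw w' hw' hne.symm, by simp⟩
      · intro i hi j hj l hl hij hjl hil
        refine ⟨_, hQd i hi j hj hij.ne, by simp, by simp [hij.ne'], ?_, ?_⟩
        · simp [hil.ne', hjl.ne']
        · intro m _ _ h1 h2
          simp [h1, h2]
      · intro hno
        have h2 : S.card = 2 := by
          by_contra h3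
          have h4 : 2 < S.card := by omega
          obtain ⟨i, j, l, hi, hj, hl, hij, hil, hjl⟩ := two_lt_card_iff.1 h4
          exact hno i hi j hj l hl (hcomp i hi j hj hij) (hcomp j hj l hl hjl)
            (hcomp i hi l hl hil)
        obtain ⟨x, y, hxy, rfl⟩ := card_eq_two.1 h2
        rw [h2]
        have hadj := hcomp x (by simp) y (by simp) hxy
        rw [sum_pair hxy, sum_pair hxy, sum_pair hxy, if_neg G.irrefl, if_neg G.irrefl,
          if_pos hadj, if_pos hadj.symm]
        norm_num
      · intro i hi j hj hij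
        exact hP i hi j hj hij.ne
    · exfalso
      push Not at hcomp
      obtain ⟨u, hu, w, hw, huw, hnuw⟩ := hcomp
      classical
      obtain ⟨x, hx, y, hy, hyT, hxy⟩ := hc (S.filter fun y => y = u ∨ G.Adj u y)
        (filter_subset _ _) ⟨u, mem_filter.2 ⟨hu, Or.inl rfl⟩⟩ (by
          intro h
          have : w ∈ S.filter fun y => y = u ∨ G.Adj u y := by rw [h]; exact hw
          rcases (mem_filter.1 this).2 with h1 | h1
          · exact huw h1.symm
          · exact hnuw h1)
      have hyu : y ≠ u := by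
        intro h
        exact hyT (mem_filter.2 ⟨hy, Or.inl h⟩)
      have hyn : ¬ G.Adj u y := by
        intro h
        exact hyT (mem_filter.2 ⟨hy, Or.inr h⟩)
      obtain ⟨hxS, hx2⟩ := mem_filter.1 hx
      rcases hx2 with hx2 | hx2
      · rw [hx2] at hxy; exact hyn hxy
      · have hstr := structure2 W hQ hc hcut hst hu hxS hy hx2 hxy hyu.symm hyn
        set P := (S.erase u).erase y with hP
        have huP : u ∉ P := fun h => (mem_erase.1 (mem_erase.1 h).2).1 rfl
        have hyP : y ∉ P := notMem_erase y _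
        have hSP : insert u (insert y P) = S := by
          rw [hP, insert_erase (mem_erase.2 ⟨hyu, hy⟩), insert_erase hu]
        -- `P` has at least two elements: otherwise `x` is a cut vertex
        have hP2 : 2 ≤ P.card := by
          by_contra hcon
          have hxP : x ∈ P := mem_erase.2 ⟨hxy.ne, mem_erase.2 ⟨hx2.ne', hxS⟩⟩
          have hP1 : P.card = 1 := by
            have := card_pos.2 ⟨x, hxP⟩
            omega
          obtain ⟨z, hz⟩ := card_eq_one.1 hP1
          have hzx : z = x := by rw [hz, mem_singleton] at hxP; exact hxP.symm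
          have hSx : ∀ t ∈ S.erase x, t = u ∨ t = y := by
            intro t ht
            rw [mem_erase, ← hSP, mem_insert, mem_insert, hz, mem_singleton, hzx] at ht
            tauto
          obtain ⟨i, hi, j, hj, hjT, hij⟩ := hcut x hxS {u} (by
            rw [singleton_subset_iff]; exact mem_erase.2 ⟨hx2.ne, hu⟩) (singleton_nonempty _) (by
              intro h
              have : y ∈ ({u} : Finset V) := by rw [h]; exact mem_erase.2 ⟨hxy.ne', hy⟩
              exact hyu (mem_singleton.1 this))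
          rw [mem_singleton] at hi hjT
          rcases hSx j hj with h | h
          · exact hjT h
          · rw [hi, h] at hij
            exact hyn hij
        have := near_strict W huP hyP hyu.symm hyn hP2 (d := d) (by rw [hSP]; exact hQ)
          (by rw [hSP]; exact hstr)
        rw [hSP, hS] at this
        linarith

end Pool.Agent.H626.SE
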