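import Pool.Agent.H626.SE.Blocks

/-!
# Square energy: a local criterion in terms of the average degree of an induced subgraph
-/

set_option autoImplicit false

namespace Pool.Agent.H626.SE

open Finset Helper76SE

/-- the numerical part -/
theorem local_num (a n e x y c : ℝ) (ha : 2 ≤ a) (hn : a + 2 ≤ n) (hx : √(n - a) ≤ x)
    (he : a * √(a - 1) + √a * √(n - a) ≤ e) (hy : e - √a * x ≤ y)
    (hc : y ^ 2 ≤ a * (a - 1) * c) (hc0 : 0 ≤ c) : n ≤ x ^ 2 + c := by
  set q := √a with hq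
  set s := √(a - 1) with hs
  set w := √(n - a) with hw
  have hq2 : q ^ 2 = a := Real.sq_sqrt (by linarith)
  have hs2 : s ^ 2 = a - 1 := Real.sq_sqrt (by linarith)
  have hw2 : w ^ 2 = n - a := Real.sq_sqrt (by linarith)
  have hq0 : 0 < q := Real.sqrt_pos.mpr (by linarith)
  have hs0 : 0 < s := Real.sqrt_pos.mpr (by linarith)
  have hw0 : 0 ≤ w := Real.sqrt_nonneg _
  obtain ⟨δ, hδ⟩ : ∃ δ, δ = x - w := ⟨_, rfl⟩
  have hδ0 : 0 ≤ δ := by linarith
  have hxw : x = w + δ := by linarith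
  have hsw : q ≤ s * w := by
    apply le_of_sq_le_sq _ (by positivity)
    rw [mul_pow, hq2, hs2, hw2]
    nlinarith
  have hy2 : q * (q * s - δ) ≤ y := by
    have : a * s + q * w - q * x ≤ y := by linarith
    rw [hxw, ← hq2] at this
    linarith [this, (by ring : q ^ 2 * s + q * w - q * (w + δ) = q * (q * s - δ))]
  rcases le_total (q * s) δ with h | h
  · have h1 : q ^ 2 * s ^ 2 ≤ δ ^ 2 := by
      rw [← mul_pow]
      exact pow_le_pow_left₀ (by positivity) h 2
    rw [hq2, hs2] at h1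
    have h2 : x ^ 2 = w ^ 2 + 2 * w * δ + δ ^ 2 := by rw [hxw]; ring
    have h3 : 0 ≤ w * δ := mul_nonneg hw0 hδ0
    nlinarith
  · have h1 : (q * (q * s - δ)) ^ 2 ≤ y ^ 2 :=
      pow_le_pow_left₀ (mul_nonneg hq0.le (by linarith)) hy2 2
    have h2 : q ^ 2 * (q * s - δ) ^ 2 ≤ q ^ 2 * (s ^ 2 * c) := by
      rw [hq2, hs2]
      calc a * (q * s - δ) ^ 2 = (q * (q * s - δ)) ^ 2 := by rw [mul_pow, hq2]
        _ ≤ y ^ 2 := h1
        _ ≤ a * (a - 1) * c := hc
        _ = a * ((a - 1) * c) := by ring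
    have h3 := le_of_mul_le_mul_left h2 (by positivity)
    have h4 : s ^ 2 * n ≤ s ^ 2 * (x ^ 2 + c) := by
      have h5 : 0 ≤ s * δ * (s * w - q) := mul_nonneg (mul_nonneg hs0.le hδ0) (by linarith)
      have h6 : n = w ^ 2 + q ^ 2 := by rw [hw2, hq2]; ring
      rw [h6, hxw]
      nlinarith [sq_nonneg (s * δ), sq_nonneg δ]
    exact le_of_mul_le_mul_left h4 (by positivity)

section localavg

variable {V : Type*} [Fintype V] [DecidableEq V]

/-- Blocks and the off-diagonal part on `U` are disjoint. -/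
theorem split_sum (U : Finset V) (f : V → V) (hf2 : ∀ u ∈ U, f u = u) (g : V → V → ℝ)
    (hg0 : ∀ i j, 0 ≤ g i j) :
    (∑ i, ∑ j, if f i = f j then g i j else 0)
      + (∑ i ∈ U, ∑ j ∈ U, if i = j then 0 else g i j) ≤ ∑ i, ∑ j, g i j := by
  have e4 : (∑ i ∈ U, ∑ j ∈ U, if i = j then 0 else g i j)
      = ∑ i, ∑ j, if i ∈ U ∧ j ∈ U ∧ i ≠ j then g i j else 0 := by
    rw [← sum_filter_add_sum_filter_not univ (fun i => i ∈ U)
      (fun i => ∑ j, if i ∈ U ∧ j ∈ U ∧ i ≠ j then g i j else 0)]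
    have z : ∑ i ∈ univ.filter (fun i => ¬ i ∈ U),
        ∑ j, (if i ∈ U ∧ j ∈ U ∧ i ≠ j then g i j else 0) = 0 := by
      refine sum_eq_zero fun i hi => sum_eq_zero fun j _ => ?_
      rw [if_neg (fun h => (mem_filter.mp hi).2 h.1)]
    rw [z, add_zero, filter_mem_eq_inter, univ_inter]
    refine sum_congr rfl fun i hi => ?_
    rw [← sum_filter_add_sum_filter_not univ (fun j => j ∈ U)
      (fun j => if i ∈ U ∧ j ∈ U ∧ i ≠ j then g i j else 0)]
    have z2 : ∑ j ∈ univ.filter (fun j => ¬ j ∈ U),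
        (if i ∈ U ∧ j ∈ U ∧ i ≠ j then g i j else 0) = 0 := by
      refine sum_eq_zero fun j hj => ?_
      rw [if_neg (fun h => (mem_filter.mp hj).2 h.2.1)]
    rw [z2, add_zero, filter_mem_eq_inter, univ_inter]
    refine sum_congr rfl fun j hj => ?_
    by_cases hij : i = j
    · rw [if_pos hij, if_neg (fun h => h.2.2 hij)]
    · rw [if_neg hij, if_pos ⟨hi, hj, hij⟩]
  rw [e4, ← sum_add_distrib]
  refine sum_le_sum fun i _ => ?_
  rw [← sum_add_distrib]
  refine sum_le_sum fun j _ => ?_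
  by_cases hij : i ∈ U ∧ j ∈ U ∧ i ≠ j
  · rw [if_pos hij, if_neg (fun h => hij.2.2 (by rw [← hf2 i hij.1, ← hf2 j hij.2.1, h])),
      zero_add]
  · rw [if_neg hij, add_zero]
    split_ifs
    · exact le_rfl
    · exact hg0 i j

/-- The local criterion. -/
theorem local_avg (G : SimpleGraph V) [DecidableRel G.Adj] (h : (G.adjMatrix ℝ).IsHermitian)
    (hG : G.Connected) (U : Finset V) (hU : 2 ≤ U.card) (hn : U.card + 2 ≤ Fintype.card V)
    (hd : (U.card : ℝ) * √((U.card : ℝ) - 1)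
      + √(U.card : ℝ) * √((Fintype.card V : ℝ) - U.card)
      ≤ ∑ i ∈ U, ∑ j ∈ U, if G.Adj i j then (1 : ℝ) else 0) :
    (Fintype.card V : ℝ) ≤ ∑ i, (max (h.eigenvalues i) 0) ^ 2 := by
  obtain ⟨p, B, hp, he⟩ := exists_ker G h
  have hUne : U.Nonempty := card_pos.mp (by omega)
  obtain ⟨f, hf1, hf2, hf3⟩ := exists_blocks G hG U hUne
  have hb := block_bound G U f hf1 hf3 p hp B
  set P : V → V → ℝ := fun i j => ∑ k, p k * B i k * B j k with hP
  set A : V → V → ℝ := fun i j => if G.Adj i j then (1 : ℝ) else 0 with hA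
  have hAii : ∀ i, A i i = 0 := fun i => if_neg (G.loopless.irrefl i)
  set g : V → V → ℝ := fun i j => (A i j + P i j) ^ 2 with hg
  have hg0 : ∀ i j, 0 ≤ g i j := fun i j => sq_nonneg _
  have e3 := split_sum U f hf2 g hg0
  rw [← he]
  change (Fintype.card V : ℝ) ≤ ∑ i, ∑ j, g i j
  change (Fintype.card V : ℝ) - U.card ≤ ∑ i, ∑ j, (if f i = f j then g i j else 0) at hb
  change (U.card : ℝ) * √((U.card : ℝ) - 1) + √(U.card : ℝ) * √((Fintype.card V : ℝ) - U.card)
    ≤ ∑ i ∈ U, ∑ j ∈ U, A i j at hd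
  obtain ⟨E, hE⟩ : ∃ E, E = ∑ i, ∑ j, (if f i = f j then g i j else 0) := ⟨_, rfl⟩
  obtain ⟨c, hc⟩ : ∃ c, c = ∑ i ∈ U, ∑ j ∈ U, (if i = j then 0 else g i j) := ⟨_, rfl⟩
  rw [← hE] at hb e3
  rw [← hc] at e3
  -- diagonal entries
  have hdiag : ∑ i ∈ U, P i i ^ 2 ≤ E := by
    rw [hE]
    refine (sum_le_sum_of_subset_of_nonneg (subset_univ U) fun i _ _ => sq_nonneg _).trans ?_
    refine sum_le_sum fun i _ => ?_
    refine le_trans (le_of_eq ?_) (single_le_sum (f := fun j => if f i = f j then g i j else 0)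
      (fun j _ => ?_) (mem_univ i))
    · simp only [if_true, hg, hAii, zero_add]
    · split_ifs
      · exact hg0 i j
      · exact le_rfl
  have hE0 : 0 ≤ E := (sum_nonneg fun i _ => sq_nonneg _).trans hdiag
  have hcc0 : 0 ≤ c := by
    rw [hc]
    refine sum_nonneg fun i _ => sum_nonneg fun j _ => ?_
    split_ifs
    · exact le_rfl
    · exact hg0 i j
  have htr : ∑ i ∈ U, P i i ≤ √(U.card : ℝ) * √E := by
    have h1 := Real.sum_mul_le_sqrt_mul_sqrt U (fun _ => (1 : ℝ)) (fun i => P i i)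
    simp only [one_mul, one_pow, sum_const, nsmul_eq_mul, mul_one] at h1
    exact h1.trans (mul_le_mul_of_nonneg_left (Real.sqrt_le_sqrt hdiag) (Real.sqrt_nonneg _))
  -- positivity
  have hpos : 0 ≤ ∑ i ∈ U, ∑ j ∈ U, P i j := by
    have e : ∑ i ∈ U, ∑ j ∈ U, P i j = ∑ k, p k * (∑ i ∈ U, B i k) ^ 2 := by
      simp only [hP]
      rw [sum_congr rfl fun i _ => sum_comm, sum_comm]
      refine sum_congr rfl fun k _ => ?_
      rw [pow_two, sum_mul_sum, mul_sum]
      refine sum_congr rfl fun i _ => ?_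
      rw [mul_sum]
      exact sum_congr rfl fun j _ => by ring
    rw [e]
    exact sum_nonneg fun k _ => mul_nonneg (hp k) (sq_nonneg _)
  obtain ⟨y, hy⟩ : ∃ y, y = ∑ x ∈ U.offDiag, (A x.1 x.2 + P x.1 x.2) := ⟨_, rfl⟩
  have hsplit : ∀ F : V → V → ℝ, ∑ i ∈ U, ∑ j ∈ U, F i j
      = (∑ x ∈ U.offDiag, F x.1 x.2) + ∑ i ∈ U, F i i := by
    intro F
    rw [← sum_product', ← diag_union_offDiag, sum_union (disjoint_diag_offDiag U), add_comm,
      sum_diag]
  have hyE : (∑ i ∈ U, ∑ j ∈ U, A i j) - √(U.card : ℝ) * √E ≤ y := by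
    have h1 := hsplit (fun i j => A i j + P i j)
    simp only [hAii, zero_add] at h1
    rw [← hy] at h1
    simp only [sum_add_distrib] at h1
    linarith
  have hcy : y ^ 2 ≤ (U.card : ℝ) * ((U.card : ℝ) - 1) * c := by
    have h1 := sq_sum_le_card_mul_sum_sq (s := U.offDiag) (f := fun x => A x.1 x.2 + P x.1 x.2)
    have h2 : c = ∑ x ∈ U.offDiag, (A x.1 x.2 + P x.1 x.2) ^ 2 := by
      rw [hc, hsplit (fun i j => if i = j then 0 else g i j)]
      simp only [if_true, sum_const_zero, add_zero]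
      refine sum_congr rfl fun x hx => ?_
      rw [if_neg (mem_offDiag.mp hx).2.2]
    have h3 : ((U.offDiag.card : ℕ) : ℝ) = (U.card : ℝ) * ((U.card : ℝ) - 1) := by
      rw [offDiag_card, Nat.cast_sub (Nat.le_mul_self _)]
      push_cast
      ring
    rw [← h2, ← hy, h3] at h1
    exact h1
  have ha : (2 : ℝ) ≤ U.card := by exact_mod_cast hU
  have hn' : (U.card : ℝ) + 2 ≤ Fintype.card V := by exact_mod_cast hn
  have key := local_num (U.card : ℝ) (Fintype.card V : ℝ) _ (√E) y c ha hn'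
    (Real.sqrt_le_sqrt hb) hd hyE hcy hcc0
  rw [Real.sq_sqrt hE0] at key
  linarith

end localavg

end Pool.Agent.H626.SE
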