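import Pool.Agent.H626.SE.LocalAvg

/-!
# Square energy: the sharper local criterion
-/

set_option autoImplicit false

namespace Pool.Agent.H626.SE

open Finset Helper76SE

section strong

variable {W : Type*} [Fintype W] [DecidableEq W]

theorem row_sq (C : W → W → ℝ) (ho : ∀ k l, ∑ i, C i k * C i l = if k = l then 1 else 0)
    (μ : W → ℝ) (u : W) : ∑ j, (∑ k, μ k * C u k * C j k) ^ 2 = ∑ k, μ k ^ 2 * C u k ^ 2 := by
  have h1 : ∀ j, (∑ k, μ k * C u k * C j k) ^ 2
      = ∑ k, ∑ l, (μ k * C u k) * (μ l * C u l) * (C j k * C j l) := by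
    intro j
    rw [pow_two, sum_mul_sum]
    exact sum_congr rfl fun k _ => sum_congr rfl fun l _ => by ring
  simp_rw [h1]
  rw [sum_comm]
  refine sum_congr rfl fun k _ => ?_
  rw [sum_comm]
  have h2 : ∀ l, ∑ j, (μ k * C u k) * (μ l * C u l) * (C j k * C j l)
      = if k = l then (μ k * C u k) * (μ l * C u l) else 0 := by
    intro l
    rw [← mul_sum, ho k l]
    split_ifs
    · rw [mul_one]
    · rw [mul_zero]
  simp_rw [h2]
  rw [sum_ite_eq]
  simp only [mem_univ, if_true]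
  ring

theorem row_le (C : W → W → ℝ) (ho : ∀ k l, ∑ i, C i k * C i l = if k = l then 1 else 0)
    (u : W) : ∑ k, C u k ^ 2 ≤ 1 := by
  have h1 := row_sq C ho (fun _ => 1) u
  simp only [one_mul, one_pow] at h1
  have h2 : 0 ≤ ∑ j, ((if u = j then (1 : ℝ) else 0) - ∑ k, C u k * C j k) ^ 2 :=
    sum_nonneg fun j _ => sq_nonneg _
  have h3 : ∑ j, ((if u = j then (1 : ℝ) else 0) - ∑ k, C u k * C j k) ^ 2
      = (∑ j, if u = j then (1 - 2 * ∑ k, C u k * C j k) else 0)
        + ∑ j, (∑ k, C u k * C j k) ^ 2 := by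
    rw [← sum_add_distrib]
    refine sum_congr rfl fun j _ => ?_
    split_ifs
    · ring
    · ring
  rw [h3, h1, sum_ite_eq] at h2
  simp only [mem_univ, if_true] at h2
  have h4 : ∑ k, C u k * C u k = ∑ k, C u k ^ 2 := sum_congr rfl fun k _ => by ring
  rw [h4] at h2
  linarith

/-- The strengthened bound for one block. -/
theorem block_strong (G : SimpleGraph W) [DecidableRel G.Adj] (hG : G.Connected) (u : W)
    {ι : Type*} [Fintype ι] (p : ι → ℝ) (hp : ∀ k, 0 ≤ p k) (B : W → ι → ℝ) :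
    ∃ θ : ℝ, 2 * θ ≤ √((Fintype.card W : ℝ) - 1) ∧
      (Fintype.card W : ℝ) - 1 + ((∑ k, p k * B u k * B u k) - θ) ^ 2
        ≤ ∑ i, ∑ j, ((if G.Adj i j then (1 : ℝ) else 0) + ∑ k, p k * B i k * B j k) ^ 2 := by
  have hM : (G.adjMatrix ℝ).IsHermitian := by
    rw [Matrix.IsHermitian, Matrix.conjTranspose_eq_transpose_of_trivial]
    exact G.isSymm_adjMatrix
  obtain ⟨C, ho, hC⟩ := spec_entry _ hM
  set lam := hM.eigenvalues with hlam
  have hC' : ∀ i j, (if G.Adj i j then (1 : ℝ) else 0) = ∑ k, lam k * C i k * C j k := by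
    intro i j
    rw [← hC i j, SimpleGraph.adjMatrix_apply]
  set X : W → W → ℝ := fun i j => ∑ k, max (lam k) 0 * C i k * C j k with hX
  set N : W → W → ℝ := fun i j => ∑ k, (- min (lam k) 0) * C i k * C j k with hN
  set P : W → W → ℝ := fun i j => ∑ k, p k * B i k * B j k with hP
  have hXN : ∀ i j, (if G.Adj i j then (1 : ℝ) else 0) = X i j - N i j := by
    intro i j
    rw [hC', hX, hN]
    simp only
    rw [← sum_sub_distrib]
    refine sum_congr rfl fun k _ => ?_
    have h3 := max_add_min (lam k) 0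
    rw [show max (lam k) 0 = lam k - min (lam k) 0 by linarith]
    ring
  have h1 : ∑ i, ∑ j, X i j * N i j = 0 := by
    rw [hX, hN, frob2 C ho]
    refine sum_eq_zero fun k _ => ?_
    rcases le_total (lam k) 0 with h | h
    · rw [max_eq_right h, zero_mul]
    · rw [min_eq_right h, neg_zero, mul_zero]
  have h2 : (Fintype.card W : ℝ) - 1 ≤ ∑ i, ∑ j, X i j ^ 2 := by
    have := gram_main G hG (fun k => - min (lam k) 0)
      (fun k => by have := min_le_right (lam k) 0; linarith) C (-1) (Or.inr rfl)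
    refine this.trans (le_of_eq ?_)
    refine sum_congr rfl fun i _ => sum_congr rfl fun j _ => ?_
    rw [hXN i j, hN]
    simp only
    ring
  have h3 : 0 ≤ ∑ i, ∑ j, X i j * P i j := by
    have e : ∑ i, ∑ j, X i j * P i j
        = ∑ k, ∑ l, max (lam k) 0 * p l * (∑ i, C i k * B i l) ^ 2 := by
      have h4 : ∀ i j, X i j * P i j = ∑ k, ∑ l, max (lam k) 0 * p l *
          (C i k * B i l) * (C j k * B j l) := by
        intro i j
        rw [hX, hP]
        simp only
        rw [sum_mul_sum]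
        refine sum_congr rfl fun k _ => sum_congr rfl fun l _ => by ring
      have h5 : ∀ k l, max (lam k) 0 * p l * (∑ i, C i k * B i l) ^ 2
          = ∑ i, ∑ j, max (lam k) 0 * p l * (C i k * B i l) * (C j k * B j l) := by
        intro k l
        rw [pow_two, sum_mul_sum, mul_sum]
        refine sum_congr rfl fun i _ => ?_
        rw [mul_sum]
        exact sum_congr rfl fun j _ => by ring
      simp_rw [h4, h5]
      calc ∑ i, ∑ j, ∑ k, ∑ l, max (lam k) 0 * p l * (C i k * B i l) * (C j k * B j l)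
          = ∑ i, ∑ k, ∑ j, ∑ l, max (lam k) 0 * p l * (C i k * B i l) * (C j k * B j l) :=
            sum_congr rfl fun i _ => sum_comm
        _ = ∑ k, ∑ i, ∑ j, ∑ l, max (lam k) 0 * p l * (C i k * B i l) * (C j k * B j l) :=
            sum_comm
        _ = ∑ k, ∑ i, ∑ l, ∑ j, max (lam k) 0 * p l * (C i k * B i l) * (C j k * B j l) :=
            sum_congr rfl fun k _ => sum_congr rfl fun i _ => sum_comm
        _ = ∑ k, ∑ l, ∑ i, ∑ j, max (lam k) 0 * p l * (C i k * B i l) * (C j k * B j l) :=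
            sum_congr rfl fun k _ => sum_comm
    rw [e]
    exact sum_nonneg fun k _ => sum_nonneg fun l _ =>
      mul_nonneg (mul_nonneg (le_max_right _ _) (hp l)) (sq_nonneg _)
  refine ⟨N u u, ?_, ?_⟩
  · -- the diagonal entry
    have a1 : X u u = N u u := by
      have := hXN u u
      rw [if_neg (G.loopless.irrefl u)] at this
      linarith
    have a2 : X u u + N u u = ∑ k, |lam k| * C u k * C u k := by
      rw [hX, hN]
      simp only
      rw [← sum_add_distrib]
      refine sum_congr rfl fun k _ => ?_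
      rcases le_total (lam k) 0 with h | h
      · rw [max_eq_right h, min_eq_left h, abs_of_nonpos h]
        ring
      · rw [max_eq_left h, min_eq_right h, abs_of_nonneg h]
        ring
    have a3 : ∑ k, |lam k| * C u k * C u k
        ≤ √(∑ k, (|lam k| * C u k) ^ 2) * √(∑ k, C u k ^ 2) :=
      Real.sum_mul_le_sqrt_mul_sqrt univ (fun k => |lam k| * C u k) (fun k => C u k)
    have a4 : ∑ k, (|lam k| * C u k) ^ 2 = ∑ j, (if G.Adj u j then (1 : ℝ) else 0) ^ 2 := by
      have := row_sq C ho lam u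
      simp_rw [← hC'] at this
      rw [this]
      exact sum_congr rfl fun k _ => by rw [mul_pow, sq_abs]
    have a5 : ∑ j, (if G.Adj u j then (1 : ℝ) else 0) ^ 2 ≤ (Fintype.card W : ℝ) - 1 := by
      rw [← sum_erase_add univ _ (mem_univ u), if_neg (G.loopless.irrefl u)]
      have : ∑ j ∈ univ.erase u, (if G.Adj u j then (1 : ℝ) else 0) ^ 2
          ≤ ∑ j ∈ univ.erase u, (1 : ℝ) := by
        refine sum_le_sum fun j _ => ?_
        split_ifs
        · norm_num
        · norm_num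
      rw [sum_const, card_erase_of_mem (mem_univ u), card_univ, nsmul_eq_mul, mul_one,
        Nat.cast_sub (Fintype.card_pos_iff.mpr ⟨u⟩)] at this
      push_cast at this
      linarith
    have a6 : √(∑ k, C u k ^ 2) ≤ 1 := Real.sqrt_le_one.mpr (row_le C ho u)
    have a7 : √(∑ k, (|lam k| * C u k) ^ 2) ≤ √((Fintype.card W : ℝ) - 1) := by
      rw [a4]
      exact Real.sqrt_le_sqrt a5
    calc 2 * N u u = X u u + N u u := by rw [a1]; ring
      _ ≤ √(∑ k, (|lam k| * C u k) ^ 2) * √(∑ k, C u k ^ 2) := by rw [a2]; exact a3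
      _ ≤ √((Fintype.card W : ℝ) - 1) * 1 :=
        mul_le_mul a7 a6 (Real.sqrt_nonneg _) (Real.sqrt_nonneg _)
      _ = _ := mul_one _
  · have e1 : ∑ i, ∑ j, ((if G.Adj i j then (1 : ℝ) else 0) + P i j) ^ 2
        = (∑ i, ∑ j, X i j ^ 2) + 2 * (∑ i, ∑ j, X i j * P i j) - 2 * (∑ i, ∑ j, X i j * N i j)
          + ∑ i, ∑ j, (P i j - N i j) ^ 2 := by
      simp only [mul_sum, ← sum_add_distrib, ← sum_sub_distrib]
      refine sum_congr rfl fun i _ => sum_congr rfl fun j _ => ?_
      rw [hXN i j]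
      ring
    have e2 : (P u u - N u u) ^ 2 ≤ ∑ i, ∑ j, (P i j - N i j) ^ 2 := by
      refine le_trans ?_ (single_le_sum (f := fun i => ∑ j, (P i j - N i j) ^ 2)
        (fun i _ => sum_nonneg fun j _ => sq_nonneg _) (mem_univ u))
      exact single_le_sum (f := fun j => (P u j - N u j) ^ 2) (fun j _ => sq_nonneg _) (mem_univ u)
    change (Fintype.card W : ℝ) - 1 + (P u u - N u u) ^ 2
      ≤ ∑ i, ∑ j, ((if G.Adj i j then (1 : ℝ) else 0) + P i j) ^ 2
    rw [e1, h1]
    linarith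

end strong

section crit

variable {V : Type*} [Fintype V] [DecidableEq V]

/-- The blocks, with the diagonal entries on `U`. -/
theorem block_bound_strong (G : SimpleGraph V) [DecidableRel G.Adj] (U : Finset V) (f : V → V)
    (hf : ∀ v, f v ∈ U) (hf2 : ∀ u ∈ U, f u = u)
    (hconn : ∀ u ∈ U, (G.induce {v | f v = u}).Connected)
    {ι : Type*} [Fintype ι] (p : ι → ℝ) (hp : ∀ k, 0 ≤ p k) (B : V → ι → ℝ) :
    ∃ θ : V → ℝ, (∑ u ∈ U, θ u ≤ 1 / 2 * (√(U.card : ℝ) * √((Fintype.card V : ℝ) - U.card))) ∧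
    (Fintype.card V : ℝ) - U.card + ∑ u ∈ U, ((∑ k, p k * B u k * B u k) - θ u) ^ 2
      ≤ ∑ i, ∑ j, if f i = f j then
      ((if G.Adj i j then (1 : ℝ) else 0) + ∑ k, p k * B i k * B j k) ^ 2 else 0 := by
  classical
  set g : V → V → ℝ := fun i j => ((if G.Adj i j then (1 : ℝ) else 0)
    + ∑ k, p k * B i k * B j k) ^ 2 with hg
  have e0 : ∑ i, ∑ j, (if f i = f j then g i j else 0)
      = ∑ c, ∑ i ∈ univ.filter (fun i => f i = c), ∑ j ∈ univ.filter (fun j => f j = c), g i j := by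
    rw [← sum_fiberwise univ f (fun i => ∑ j, if f i = f j then g i j else 0)]
    refine sum_congr rfl fun c _ => sum_congr rfl fun i hi => ?_
    rw [sum_filter]
    refine sum_congr rfl fun j _ => ?_
    rw [(mem_filter.mp hi).2]
    by_cases h : c = f j
    · rw [if_pos h, if_pos h.symm]
    · rw [if_neg h, if_neg (fun h' => h h'.symm)]
  have h1 : ∀ c : V, ∃ θ : ℝ, c ∈ U → (2 * θ ≤ √(((univ.filter fun i => f i = c).card : ℝ) - 1) ∧
      ((univ.filter fun i => f i = c).card : ℝ) - 1 + ((∑ k, p k * B c k * B c k) - θ) ^ 2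
      ≤ ∑ i ∈ univ.filter (fun i => f i = c), ∑ j ∈ univ.filter (fun j => f j = c), g i j) := by
    intro c
    by_cases hc : c ∈ U
    · obtain ⟨θ, h2, h3⟩ := block_strong (G.induce {v | f v = c}) (hconn c hc) ⟨c, hf2 c hc⟩
        p hp (fun i k => B i.1 k)
      refine ⟨θ, fun _ => ?_⟩
      have e1 : ∀ F : V → ℝ, ∑ i ∈ univ.filter (fun i => f i = c), F i
          = ∑ i : {v | f v = c}, F i.1 := by
        intro F
        refine (Finset.sum_subtype _ (fun x => ?_) F)
        simp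
      have e2 : ((univ.filter fun i => f i = c).card : ℝ) = Fintype.card {v | f v = c} := by
        have := e1 (fun _ => 1)
        rw [sum_const, sum_const, nsmul_eq_mul, nsmul_eq_mul, mul_one, mul_one, card_univ] at this
        exact this
      rw [e1, e2]
      refine ⟨h2, h3.trans (le_of_eq ?_)⟩
      refine sum_congr rfl fun i _ => ?_
      rw [e1]
      refine sum_congr rfl fun j _ => ?_
      rw [hg]
      simp only [SimpleGraph.comap_adj, Function.Embedding.subtype_apply]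
    · exact ⟨0, fun h => absurd h hc⟩
  choose θ hθ using h1
  have h4 : ∑ c ∈ U, ((univ.filter fun i => f i = c).card : ℝ) = Fintype.card V := by
    have h3 := sum_fiberwise (univ : Finset V) f (fun _ => (1 : ℝ))
    simp only [sum_const, nsmul_eq_mul, mul_one, card_univ] at h3
    rw [← h3]
    refine sum_subset (subset_univ U) fun c _ hc => ?_
    have : (univ.filter fun i => f i = c) = ∅ := by
      rw [filter_eq_empty_iff]
      intro i _ h
      exact hc (h ▸ hf i)
    rw [this]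
    simp
  refine ⟨θ, ?_, ?_⟩
  · have h5 : ∑ u ∈ U, √(((univ.filter fun i => f i = u).card : ℝ) - 1)
        ≤ √(U.card : ℝ) * √((Fintype.card V : ℝ) - U.card) := by
      have h6 := Real.sum_mul_le_sqrt_mul_sqrt U (fun _ => (1 : ℝ))
        (fun u => √(((univ.filter fun i => f i = u).card : ℝ) - 1))
      simp only [one_mul, one_pow, sum_const, nsmul_eq_mul, mul_one] at h6
      have h7 : ∑ u ∈ U, √(((univ.filter fun i => f i = u).card : ℝ) - 1) ^ 2
          = (Fintype.card V : ℝ) - U.card := by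
        rw [← h4]
        have h8 : ∀ u ∈ U, √(((univ.filter fun i => f i = u).card : ℝ) - 1) ^ 2
            = ((univ.filter fun i => f i = u).card : ℝ) - 1 := by
          intro u hu
          refine Real.sq_sqrt ?_
          have : 0 < (univ.filter fun i => f i = u).card :=
            card_pos.mpr ⟨u, mem_filter.mpr ⟨mem_univ u, hf2 u hu⟩⟩
          have : (1 : ℝ) ≤ (univ.filter fun i => f i = u).card := by exact_mod_cast this
          linarith
        rw [sum_congr rfl h8, sum_sub_distrib, sum_const, nsmul_eq_mul, mul_one]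
      rw [h7] at h6
      exact h6
    have h9 : 2 * ∑ u ∈ U, θ u ≤ ∑ u ∈ U, √(((univ.filter fun i => f i = u).card : ℝ) - 1) := by
      rw [mul_sum]
      exact sum_le_sum fun u hu => (hθ u hu).1
    linarith
  · rw [e0]
    have h5 : ∑ c ∈ U, (∑ i ∈ univ.filter (fun i => f i = c),
        ∑ j ∈ univ.filter (fun j => f j = c), g i j)
        ≤ ∑ c, ∑ i ∈ univ.filter (fun i => f i = c), ∑ j ∈ univ.filter (fun j => f j = c), g i j :=
      sum_le_sum_of_subset_of_nonneg (subset_univ U) fun c _ _ =>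
        sum_nonneg fun i _ => sum_nonneg fun j _ => sq_nonneg _
    refine le_trans ?_ h5
    have h6 := sum_le_sum fun c (hc : c ∈ U) => (hθ c hc).2
    refine le_trans (le_of_eq ?_) h6
    rw [sum_add_distrib, sum_sub_distrib, h4, sum_const, nsmul_eq_mul, mul_one]

/-- the numerical part -/
theorem local_num2 (a e w y c τ : ℝ) (ha : 2 ≤ a) (hτ : 0 ≤ τ)
    (he : a * √a + 1 / 2 * (√a * w) ≤ e)
    (hy : e - 1 / 2 * (√a * w) - √a * τ ≤ y) (hc : y ^ 2 ≤ a * (a - 1) * c) (hc0 : 0 ≤ c) :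
    a ≤ τ ^ 2 + c := by
  have hq2 : √a ^ 2 = a := Real.sq_sqrt (by linarith)
  have hq0 : 0 < √a := Real.sqrt_pos.mpr (by linarith)
  have hy2 : √a * (a - τ) ≤ y := by linarith
  rcases le_total a τ with h | h
  · nlinarith
  · have h1 : (√a * (a - τ)) ^ 2 ≤ y ^ 2 :=
      pow_le_pow_left₀ (mul_nonneg hq0.le (by linarith)) hy2 2
    have h2 : a * (a - τ) ^ 2 ≤ a * ((a - 1) * c) := by
      calc a * (a - τ) ^ 2 = (√a * (a - τ)) ^ 2 := by rw [mul_pow, hq2]
        _ ≤ y ^ 2 := h1
        _ ≤ a * (a - 1) * c := hc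
        _ = a * ((a - 1) * c) := by ring
    have h3 := le_of_mul_le_mul_left h2 (by linarith)
    have h4 : (a - 1) * a ≤ (a - 1) * (τ ^ 2 + c) := by
      nlinarith [sq_nonneg (τ - 1), mul_nonneg (by linarith : (0 : ℝ) ≤ a) (sq_nonneg (τ - 1))]
    exact le_of_mul_le_mul_left h4 (by linarith)

/-- The sharper local criterion. -/
theorem local_avg2 (G : SimpleGraph V) [DecidableRel G.Adj] (h : (G.adjMatrix ℝ).IsHermitian)
    (hG : G.Connected) (U : Finset V) (hU : 2 ≤ U.card)
    (hd : (U.card : ℝ) * √(U.card : ℝ)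
      + 1 / 2 * (√(U.card : ℝ) * √((Fintype.card V : ℝ) - U.card))
      ≤ ∑ i ∈ U, ∑ j ∈ U, if G.Adj i j then (1 : ℝ) else 0) :
    (Fintype.card V : ℝ) ≤ ∑ i, (max (h.eigenvalues i) 0) ^ 2 := by
  obtain ⟨p, B, hp, he⟩ := exists_ker G h
  have hUne : U.Nonempty := card_pos.mp (by omega)
  obtain ⟨f, hf1, hf2, hf3⟩ := exists_blocks G hG U hUne
  obtain ⟨θ, hθ, hb⟩ := block_bound_strong G U f hf1 hf2 hf3 p hp B
  set P : V → V → ℝ := fun i j => ∑ k, p k * B i k * B j k with hP
  set A : V → V → ℝ := fun i j => if G.Adj i j then (1 : ℝ) else 0 with hA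
  have hAii : ∀ i, A i i = 0 := fun i => if_neg (G.loopless.irrefl i)
  set g : V → V → ℝ := fun i j => (A i j + P i j) ^ 2 with hg
  have hg0 : ∀ i j, 0 ≤ g i j := fun i j => sq_nonneg _
  have e3 := split_sum U f hf2 g hg0
  rw [← he]
  change (Fintype.card V : ℝ) ≤ ∑ i, ∑ j, g i j
  change (Fintype.card V : ℝ) - U.card + ∑ u ∈ U, (P u u - θ u) ^ 2
    ≤ ∑ i, ∑ j, (if f i = f j then g i j else 0) at hb
  change (U.card : ℝ) * √(U.card : ℝ)
      + 1 / 2 * (√(U.card : ℝ) * √((Fintype.card V : ℝ) - U.card))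
    ≤ ∑ i ∈ U, ∑ j ∈ U, A i j at hd
  obtain ⟨E, hE⟩ : ∃ E, E = ∑ i, ∑ j, (if f i = f j then g i j else 0) := ⟨_, rfl⟩
  obtain ⟨c, hc⟩ : ∃ c, c = ∑ i ∈ U, ∑ j ∈ U, (if i = j then 0 else g i j) := ⟨_, rfl⟩
  rw [← hE] at hb e3
  rw [← hc] at e3
  have hcc0 : 0 ≤ c := by
    rw [hc]
    refine sum_nonneg fun i _ => sum_nonneg fun j _ => ?_
    split_ifs
    · exact le_rfl
    · exact hg0 i j
  obtain ⟨σ, hσ⟩ : ∃ σ, σ = ∑ u ∈ U, (P u u - θ u) ^ 2 := ⟨_, rfl⟩
  rw [← hσ] at hb
  have hσ0 : 0 ≤ σ := by rw [hσ]; exact sum_nonneg fun i _ => sq_nonneg _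
  have htr : ∑ i ∈ U, P i i ≤ 1 / 2 * (√(U.card : ℝ) * √((Fintype.card V : ℝ) - U.card))
      + √(U.card : ℝ) * √σ := by
    have h1 := Real.sum_mul_le_sqrt_mul_sqrt U (fun _ => (1 : ℝ)) (fun i => P i i - θ i)
    simp only [one_mul, one_pow, sum_const, nsmul_eq_mul, mul_one] at h1
    rw [← hσ, sum_sub_distrib] at h1
    linarith
  -- positivity
  have hpos : 0 ≤ ∑ i ∈ U, ∑ j ∈ U, P i j := by
    have e : ∑ i ∈ U, ∑ j ∈ U, P i j = ∑ k, p k * (∑ i ∈ U, B i k) ^ 2 := by
      simp only [hP]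
      rw [sum_congr rfl fun i _ => sum_comm, sum_comm]
      refine sum_congr rfl fun k _ => ?_
      rw [pow_two, sum_mul_sum, mul_sum]
      refine sum_congr rfl fun i _ => ?_
      rw [mul_sum]
      exact sum_congr rfl fun j _ => by ring
    rw [e]
    exact sum_nonneg fun k _ => mul_nonneg (hp k) (sq_nonneg _)
  obtain ⟨y, hy⟩ : ∃ y, y = ∑ x ∈ U.offDiag, (A x.1 x.2 + P x.1 x.2) := ⟨_, rfl⟩
  have hsplit : ∀ F : V → V → ℝ, ∑ i ∈ U, ∑ j ∈ U, F i j
      = (∑ x ∈ U.offDiag, F x.1 x.2) + ∑ i ∈ U, F i i := by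
    intro F
    rw [← sum_product', ← diag_union_offDiag, sum_union (disjoint_diag_offDiag U), add_comm,
      sum_diag]
  have hyE : (∑ i ∈ U, ∑ j ∈ U, A i j)
      - 1 / 2 * (√(U.card : ℝ) * √((Fintype.card V : ℝ) - U.card)) - √(U.card : ℝ) * √σ ≤ y := by
    have h1 := hsplit (fun i j => A i j + P i j)
    simp only [hAii, zero_add] at h1
    rw [← hy] at h1
    simp only [sum_add_distrib] at h1
    linarith
  have hcy : y ^ 2 ≤ (U.card : ℝ) * ((U.card : ℝ) - 1) * c := by
    have h1 := sq_sum_le_card_mul_sum_sq (s := U.offDiag) (f := fun x => A x.1 x.2 + P x.1 x.2)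
    have h2 : c = ∑ x ∈ U.offDiag, (A x.1 x.2 + P x.1 x.2) ^ 2 := by
      rw [hc, hsplit (fun i j => if i = j then 0 else g i j)]
      simp only [if_true, sum_const_zero, add_zero]
      refine sum_congr rfl fun x hx => ?_
      rw [if_neg (mem_offDiag.mp hx).2.2]
    have h3 : ((U.offDiag.card : ℕ) : ℝ) = (U.card : ℝ) * ((U.card : ℝ) - 1) := by
      rw [offDiag_card, Nat.cast_sub (Nat.le_mul_self _)]
      push_cast
      ring
    rw [← h2, ← hy, h3] at h1
    exact h1
  have ha : (2 : ℝ) ≤ U.card := by exact_mod_cast hU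
  have key := local_num2 (U.card : ℝ) _ _ y c (√σ) ha (Real.sqrt_nonneg _) hd hyE hcy hcc0
  rw [Real.sq_sqrt hσ0] at key
  linarith

end crit

end Pool.Agent.H626.SE
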