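import Pool.Agent.H626.SE.MinDeg

/-!
# Square energy of connected graphs with a dense part
-/

set_option autoImplicit false

namespace Pool.Agent.H626.SE

open Finset Helper76SE

section off

variable {W : Type*} [Fintype W] [DecidableEq W]

/-- second diagonal term -/
theorem test_diag (r : W → W → ℝ) (hr : ∀ i j, r i j = 0 ∨ r i j = 1) (u : W → ℝ) (T : ℝ)
    (hT : 0 < T) (hrT : ∀ i, ∑ j, r i j ≤ T)
    (hu2 : ∀ h, (∑ i, r i h) * u h ^ 2 ≤ 1) :
    ∑ i, (∑ h, r i h * r i h * u h) ^ 2 ≤ T * Fintype.card W := by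
  have hr0 : ∀ i j, 0 ≤ r i j := fun i j => by
    rcases hr i j with h | h
    · rw [h]
    · rw [h]; exact zero_le_one
  have hr2 : ∀ i j, r i j * r i j = r i j := fun i j => by
    rcases hr i j with h | h
    · rw [h, mul_zero]
    · rw [h, mul_one]
  simp_rw [hr2]
  have h1 : ∀ i, (∑ h, r i h * u h) ^ 2 ≤ T * ∑ h, r i h * u h ^ 2 := by
    intro i
    have h2 := sum_mul_sq_le_sq_mul_sq univ (fun h => r i h) (fun h => r i h * u h)
    have e1 : ∑ h, r i h * (r i h * u h) = ∑ h, r i h * u h :=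
      sum_congr rfl fun h _ => by rw [← mul_assoc, hr2]
    have e2 : ∑ h, r i h ^ 2 = ∑ h, r i h := sum_congr rfl fun h _ => by rw [pow_two, hr2]
    have e3 : ∑ h, (r i h * u h) ^ 2 = ∑ h, r i h * u h ^ 2 :=
      sum_congr rfl fun h _ => by rw [mul_pow, pow_two, hr2]
    rw [e1, e2, e3] at h2
    refine h2.trans (mul_le_mul_of_nonneg_right (hrT i) ?_)
    exact sum_nonneg fun h _ => mul_nonneg (hr0 i h) (sq_nonneg _)
  calc ∑ i, (∑ h, r i h * u h) ^ 2 ≤ ∑ i, T * ∑ h, r i h * u h ^ 2 := sum_le_sum fun i _ => h1 i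
    _ = T * ∑ h, ∑ i, r i h * u h ^ 2 := by rw [← mul_sum, sum_comm]
    _ = T * ∑ h, (∑ i, r i h) * u h ^ 2 := by
        congr 1
        exact sum_congr rfl fun h _ => (sum_mul _ _ _).symm
    _ ≤ T * ∑ h : W, 1 := mul_le_mul_of_nonneg_left (sum_le_sum fun h _ => hu2 h) hT.le
    _ = T * Fintype.card W := by rw [sum_const, card_univ, nsmul_eq_mul, mul_one]

variable (G : SimpleGraph W) [DecidableRel G.Adj]

/-- A lower bound for the off-diagonal part of the distance. -/
theorem test_off (T : ℕ) (hT : 1 ≤ T) (hd : ∀ v, T ≤ (univ.filter fun j => G.Adj v j).card)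
    (β : ℝ) (hβ0 : 0 ≤ β) (hβ1 : β ≤ 1 / 2) {ι : Type*} [Fintype ι] (p : ι → ℝ)
    (hp : ∀ k, 0 ≤ p k) (B : W → ι → ℝ) :
    (4 * β - 4 * β ^ 2 - β ^ 2 * T) * (T * Fintype.card W)
      - 4 * β * √(T * Fintype.card W : ℝ) * √(∑ i, (∑ k, p k * B i k * B i k) ^ 2)
    ≤ ∑ i, ∑ j, if i = j then 0 else
      ((if G.Adj i j then (1 : ℝ) else 0) + ∑ k, p k * B i k * B j k) ^ 2 := by
  have hT0 : (0 : ℝ) < T := by exact_mod_cast hT
  have hF : ∀ i, ∃ F ⊆ (univ.filter fun j => G.Adj i j), F.card = T := fun i =>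
    exists_subset_card_eq (hd i)
  choose F hF1 hF2 using hF
  set r : W → W → ℝ := fun i j => if j ∈ F i then 1 else 0 with hr
  have hr1 : ∀ i j, r i j = 0 ∨ (r i j = 1 ∧ G.Adj i j) := by
    intro i j
    by_cases hj : j ∈ F i
    · right
      refine ⟨if_pos hj, ?_⟩
      have := hF1 i hj
      rw [mem_filter] at this
      exact this.2
    · left
      exact if_neg hj
  have hr' : ∀ i j, r i j = 0 ∨ r i j = 1 := fun i j => (hr1 i j).imp_right And.left
  have hr0 : ∀ i j, 0 ≤ r i j := fun i j => by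
    rcases hr1 i j with h | h
    · rw [h]
    · rw [h.1]; exact zero_le_one
  have hrii : ∀ i, r i i = 0 := fun i => by
    rcases hr1 i i with h | h
    · exact h
    · exact absurd h.2 (G.loopless.irrefl i)
  have hsum : ∀ i, ∑ j, r i j = T := by
    intro i
    rw [← hF2 i, hr]
    simp only [sum_ite_mem, univ_inter, sum_const, nsmul_eq_mul, mul_one]
  have hM : ∑ i, ∑ j, r i j = T * Fintype.card W := by
    rw [sum_congr rfl fun i _ => hsum i, sum_const, card_univ, nsmul_eq_mul, mul_comm]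
  clear_value r
  set k : W → ℝ := fun h => ∑ i, r i h with hk
  have hk0 : ∀ h, 0 ≤ k h := fun h => sum_nonneg fun i _ => hr0 i h
  have hkM : ∑ i, k i = T * Fintype.card W := by
    rw [← hM, sum_comm]
  set s : W → ℝ := fun h => √(k h) with hs
  set u : W → ℝ := fun h => (√(k h))⁻¹ with hu
  have hs0 : ∀ h, 0 ≤ s h := fun h => Real.sqrt_nonneg _
  have hu0 : ∀ h, 0 ≤ u h := fun h => inv_nonneg.mpr (Real.sqrt_nonneg _)
  have hsk : ∀ h, s h ^ 2 = k h := fun h => Real.sq_sqrt (hk0 h)
  have hsu : ∀ h, s h * u h = 1 ∨ ∀ i, r i h = 0 := by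
    intro h
    rcases (hk0 h).lt_or_eq with h1 | h1
    · left
      exact mul_inv_cancel₀ (Real.sqrt_pos.mpr h1).ne'
    · right
      intro i
      exact (sum_eq_zero_iff_of_nonneg fun i _ => hr0 i h).mp h1.symm i (mem_univ i)
  have hsu1 : ∀ h, s h * u h ≤ 1 := fun h => mul_inv_le_one
  have hku : ∀ h, k h * u h ^ 2 ≤ 1 := by
    intro h
    rw [← hsk, ← mul_pow]
    exact pow_le_one₀ (mul_nonneg (hs0 h) (hu0 h)) (hsu1 h)
  set C : W → W → ℝ := fun i j => β * ∑ h, r i h * r j h * u h with hC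
  set D : W → W → ℝ := fun i j => if i = j then β * s i else 0 with hD
  set P : W → W → ℝ := fun i j => ∑ k, p k * B i k * B j k with hP
  have hC0 : ∀ i j, 0 ≤ C i j := fun i j => mul_nonneg hβ0 (sum_nonneg fun h _ =>
    mul_nonneg (mul_nonneg (hr0 _ _) (hr0 _ _)) (hu0 _))
  set X : W → W → ℝ := fun i j => D i j + β * (r i j + r j i) + C i j with hX
  -- positivity
  have hXP : 0 ≤ ∑ i, ∑ j, X i j * P i j := by
    have e : ∑ i, ∑ j, X i j * P i j = ∑ k, p k * ∑ i, ∑ j, X i j * (B i k * B j k) := by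
      have e1 : ∀ i j, X i j * P i j = ∑ k, p k * (X i j * (B i k * B j k)) := by
        intro i j
        simp only [hP]
        rw [mul_sum]
        exact sum_congr rfl fun k _ => by ring
      simp_rw [e1]
      rw [sum_congr rfl fun i _ => sum_comm, sum_comm]
      refine sum_congr rfl fun k _ => ?_
      rw [mul_sum]
      refine sum_congr rfl fun i _ => ?_
      rw [mul_sum]
    rw [e]
    exact sum_nonneg fun k _ => mul_nonneg (hp k)
      (test_psd r s u β β β hβ0 hβ0 (by ring) hs0 hsu (fun i => B i k))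
  -- pointwise bound
  have hpt : ∀ i j, 2 * (X i j * P i j) + ((2 * β - 2 * β ^ 2) * (r i j + r j i) - C i j ^ 2)
      - (if i = j then 2 * (P i i * X i i) else 0) ≤ (if i = j then 0 else
      ((if G.Adj i j then (1 : ℝ) else 0) + P i j) ^ 2) := by
    intro i j
    by_cases hij : i = j
    · subst hij
      rw [if_pos rfl, if_pos rfl, hrii]
      nlinarith [sq_nonneg (C i i)]
    · rw [if_neg hij, if_neg hij]
      have hXij : X i j = β * (r i j + r j i) + C i j := by
        simp only [hX, hD]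
        rw [if_neg hij, zero_add]
      rw [hXij]
      have hc := hC0 i j
      have key : β * (r i j + r j i) ≤ (if G.Adj i j then (1 : ℝ) else 0) ∧
          (2 * β - 2 * β ^ 2) * (r i j + r j i) ≤ 2 * (if G.Adj i j then (1 : ℝ) else 0) *
            (β * (r i j + r j i)) - (β * (r i j + r j i)) ^ 2 := by
        rcases hr1 i j with h1 | ⟨h1, h2⟩
        · rcases hr1 j i with h3 | ⟨h3, h4⟩
          · rw [h1, h3]
            refine ⟨?_, ?_⟩
            · rw [add_zero, mul_zero]
              split_ifs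
              · exact zero_le_one
              · exact le_rfl
            · simp only [add_zero, mul_zero, ne_eq, OfNat.ofNat_ne_zero, not_false_eq_true,
                zero_pow, sub_zero, le_refl]
          · rw [h1, h3, if_pos h4.symm]
            refine ⟨by linarith, ?_⟩
            nlinarith [sq_nonneg β]
        · rcases hr1 j i with h3 | ⟨h3, h4⟩
          · rw [h1, h3, if_pos h2]
            refine ⟨by linarith, ?_⟩
            nlinarith [sq_nonneg β]
          · rw [h1, h3, if_pos h2]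
            refine ⟨by linarith, ?_⟩
            nlinarith [sq_nonneg β]
      obtain ⟨k1, k2⟩ := key
      have k3 : 0 ≤ ((if G.Adj i j then (1 : ℝ) else 0) - β * (r i j + r j i)) * C i j :=
        mul_nonneg (by linarith) hc
      nlinarith [k2, k3, sq_nonneg ((if G.Adj i j then (1 : ℝ) else 0) + P i j
        - (β * (r i j + r j i) + C i j))]
  have hall := sum_le_sum fun i (_ : i ∈ univ) => sum_le_sum fun j (_ : j ∈ univ) => hpt i j
  refine le_trans ?_ hall
  have e5 : ∑ i, ∑ j, (2 * (X i j * P i j) + ((2 * β - 2 * β ^ 2) * (r i j + r j i) - C i j ^ 2)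
      - (if i = j then 2 * (P i i * X i i) else 0))
      = 2 * (∑ i, ∑ j, X i j * P i j) + ((2 * β - 2 * β ^ 2) * ((∑ i, ∑ j, r i j)
        + ∑ i, ∑ j, r j i) - ∑ i, ∑ j, C i j ^ 2) - 2 * ∑ i, P i i * X i i := by
    have e6 : ∑ i, P i i * X i i = ∑ i, ∑ j, (if i = j then P i i * X i i else 0) := by
      refine sum_congr rfl fun i _ => ?_
      rw [sum_ite_eq]
      simp only [mem_univ, if_true]
    rw [e6]
    simp only [mul_sum, ← sum_add_distrib, ← sum_sub_distrib]
    refine sum_congr rfl fun i _ => sum_congr rfl fun j _ => ?_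
    split_ifs
    · ring
    · ring
  rw [e5, sum_comm (f := fun i j => r j i), hM]
  -- the square of C
  have e4 : ∑ i, ∑ j, C i j ^ 2 ≤ β ^ 2 * (T * (T * Fintype.card W)) := by
    have h1 := test_sq r hr' u hu0 hsu1
    have h2 : ∑ i, ∑ j, C i j ^ 2 = β ^ 2 * ∑ i, ∑ j, (∑ h, r i h * r j h * u h) ^ 2 := by
      rw [mul_sum]
      refine sum_congr rfl fun i _ => ?_
      rw [mul_sum]
      exact sum_congr rfl fun j _ => by simp only [hC]; ring
    have h3 : ∑ i, (∑ h, r i h) ^ 2 = (T * (T * Fintype.card W) : ℝ) := by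
      rw [sum_congr rfl fun i _ => by rw [hsum i], sum_const, card_univ, nsmul_eq_mul]
      ring
    rw [h2, ← h3]
    exact mul_le_mul_of_nonneg_left h1 (sq_nonneg β)
  -- the diagonal
  have hXii : ∀ i, X i i = β * (s i + ∑ h, r i h * r i h * u h) := by
    intro i
    simp only [hX, hD, hC, if_true, hrii]
    ring
  have e7 : ∑ i, X i i ^ 2 ≤ (2 * β) ^ 2 * (T * Fintype.card W) := by
    have h1 := test_cross r hr' s u T hT0 (fun i => (hsum i).le) (fun h => hsk h) hku
    have h2 := test_diag r hr' u T hT0 (fun i => (hsum i).le) hku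
    rw [hM] at h1
    have h3 : ∑ i, X i i ^ 2 = β ^ 2 * ((∑ i, k i) + 2 * (∑ i, s i * ∑ h, r i h * r i h * u h)
        + ∑ i, (∑ h, r i h * r i h * u h) ^ 2) := by
      rw [mul_sum (a := 2), ← sum_add_distrib, ← sum_add_distrib, mul_sum]
      refine sum_congr rfl fun i _ => ?_
      rw [hXii, ← hsk]
      ring
    rw [h3, hkM]
    nlinarith [sq_nonneg β]
  have e8 : ∑ i, P i i * X i i ≤ √(∑ i, P i i ^ 2) * (2 * β * √(T * Fintype.card W : ℝ)) := by
    refine (Real.sum_mul_le_sqrt_mul_sqrt univ (fun i => P i i) (fun i => X i i)).trans ?_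
    refine mul_le_mul_of_nonneg_left ?_ (Real.sqrt_nonneg _)
    refine (Real.sqrt_le_sqrt e7).trans (le_of_eq ?_)
    rw [Real.sqrt_mul (sq_nonneg _), Real.sqrt_sq (by positivity)]
  linarith

end off

end Pool.Agent.H626.SE
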