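import Pool.Agent.H626.SE.DensePart

/-!
# Square energy of connected graphs with `c n log D` edges
-/

set_option autoImplicit false

namespace Pool.Agent.H626.SE

open Finset Helper76SE

section logedges

variable {V : Type*} [Fintype V] [DecidableEq V] (G : SimpleGraph V) [DecidableRel G.Adj]

/-- degrees inside a vertex set -/
theorem erase_deg (U : Finset V) (v : V) (hv : v ∈ U) :
    ∑ i ∈ U, (U.filter fun j => G.Adj i j).card
      = (∑ i ∈ U.erase v, ((U.erase v).filter fun j => G.Adj i j).card)
        + 2 * (U.filter fun j => G.Adj v j).card := by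
  have h1 : ∀ i, (U.filter fun j => G.Adj i j).card
      = ((U.erase v).filter fun j => G.Adj i j).card + if G.Adj i v then 1 else 0 := by
    intro i
    rw [card_filter, card_filter, ← sum_erase_add U _ hv]
  rw [← sum_erase_add U _ hv]
  have h2 : ∑ i ∈ U.erase v, (U.filter fun j => G.Adj i j).card
      = (∑ i ∈ U.erase v, ((U.erase v).filter fun j => G.Adj i j).card)
        + (U.filter fun j => G.Adj v j).card := by
    rw [sum_congr rfl fun i _ => h1 i, sum_add_distrib]
    congr 1
    have h3 := h1 v
    rw [if_neg (G.loopless.irrefl v), add_zero] at h3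
    rw [h3, card_filter]
    refine sum_congr rfl fun i _ => ?_
    by_cases h : G.Adj i v
    · rw [if_pos h, if_pos h.symm]
    · rw [if_neg h, if_neg (fun h' => h h'.symm)]
  rw [h2]
  ring

/-- If no vertex set is dense then the number of edges is small. -/
theorem sparse_edges (K D : ℝ) (hK : 0 ≤ K) (j₀ : ℕ) (hj : 1 ≤ j₀) (m : ℕ) :
    ∀ U : Finset V, U.card = m →
    (∀ W : Finset V, W.Nonempty → ∃ v ∈ W, ((W.filter fun j => G.Adj v j).card : ℝ) * W.card ≤ K ∧
      ((W.filter fun j => G.Adj v j).card : ℝ) ≤ D) →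
    ((∑ i ∈ U, (U.filter fun j => G.Adj i j).card : ℕ) : ℝ)
      ≤ 2 * (if m ≤ j₀ then D * m else D * j₀ + K * (Real.log m - Real.log j₀)) := by
  induction m with
  | zero =>
    intro U hU _
    rw [card_eq_zero.mp hU]
    simp
  | succ m ih =>
    intro U hU hW
    obtain ⟨v, hv, hd, hD⟩ := hW U (card_pos.mp (by omega))
    have h1 := ih (U.erase v) (by rw [card_erase_of_mem hv, hU]; rfl) hW
    rw [erase_deg G U v hv]
    push_cast at h1 ⊢
    rw [hU] at hd
    push_cast at hd
    have h3 : (0 : ℝ) < m + 1 := by positivity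
    by_cases hm : m + 1 ≤ j₀
    · rw [if_pos (by omega : m ≤ j₀)] at h1
      rw [if_pos hm]
      linarith
    · rw [if_neg hm]
      have hm1 : j₀ ≤ m := by omega
      have hm0 : (0 : ℝ) < m := by exact_mod_cast (by omega : 0 < m)
      have h2 : ((U.filter fun j => G.Adj v j).card : ℝ)
          ≤ K * (Real.log ((m : ℝ) + 1) - Real.log m) := by
        have h4 : ((U.filter fun j => G.Adj v j).card : ℝ) ≤ K * ((m : ℝ) + 1)⁻¹ := by
          rw [← div_eq_mul_inv, le_div_iff₀ h3]
          exact hd
        refine h4.trans (mul_le_mul_of_nonneg_left ?_ hK)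
        have h5 := Real.one_sub_inv_le_log_of_pos (show 0 < ((m : ℝ) + 1) / m by positivity)
        rw [Real.log_div h3.ne' hm0.ne'] at h5
        refine le_trans (le_of_eq ?_) h5
        field_simp
        ring
      by_cases hm2 : m ≤ j₀
      · have hmj : m = j₀ := le_antisymm hm2 hm1
        rw [if_pos hm2] at h1
        rw [hmj] at h1 h2 ⊢
        linarith
      · rw [if_neg hm2] at h1
        linarith

/-- A connected graph on `n` vertices in which every nonempty vertex set `W` contains a vertex with
at most `D` neighbours in `W`, and with more than `(64/9) n (1 + log D)` edges, has positive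
square energy at least `n`. -/
theorem log_edges (h : (G.adjMatrix ℝ).IsHermitian) (hG : G.Connected) (D : ℝ) (hD : 1 ≤ D)
    (hdeg : ∀ W : Finset V, W.Nonempty → ∃ v ∈ W, ((W.filter fun j => G.Adj v j).card : ℝ) ≤ D)
    (hm : 128 * (Fintype.card V : ℝ) * (1 + Real.log D)
      < 9 * ((∑ i, (univ.filter fun j => G.Adj i j).card : ℕ) : ℝ)) :
    (Fintype.card V : ℝ) ≤ ∑ i, (max (h.eigenvalues i) 0) ^ 2 := by
  by_contra hlt
  set K : ℝ := 64 / 9 * (Fintype.card V : ℝ) with hK
  have hK0 : 0 ≤ K := by positivity
  have hn0 : 0 < Fintype.card V := by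
    have := hG.nonempty
    exact Fintype.card_pos
  have hn1 : (1 : ℝ) ≤ Fintype.card V := by exact_mod_cast hn0
  have hlogD : 0 ≤ Real.log D := Real.log_nonneg hD
  have key : ∀ W : Finset V, W.Nonempty →
      ∃ v ∈ W, ((W.filter fun j => G.Adj v j).card : ℝ) * W.card ≤ K ∧
        ((W.filter fun j => G.Adj v j).card : ℝ) ≤ D := by
    intro W hW
    obtain ⟨v, hv, hmin⟩ := exists_min_image W (fun v => (W.filter fun j => G.Adj v j).card) hW
    refine ⟨v, hv, ?_, ?_⟩
    · by_contra hgt
      rw [not_le] at hgt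
      apply hlt
      refine dense_part G h hG W hW (W.filter fun j => G.Adj v j).card hmin ?_
      have h1 : (64 : ℝ) * Fintype.card V
          ≤ 9 * (((W.filter fun j => G.Adj v j).card : ℝ) * W.card) := by
        linarith
      exact_mod_cast h1
    · obtain ⟨w, hw, hwD⟩ := hdeg W hW
      refine le_trans ?_ hwD
      exact_mod_cast hmin w hw
  -- reduce to the case `D ≤ K`
  have main : ∀ D' : ℝ, 1 ≤ D' → D' ≤ K → D' ≤ D →
      (∀ W : Finset V, W.Nonempty → ∃ v ∈ W, ((W.filter fun j => G.Adj v j).card : ℝ) * W.card ≤ K ∧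
        ((W.filter fun j => G.Adj v j).card : ℝ) ≤ D') → False := by
    intro D' hD1 hD2 hD3 key'
    have hD0 : 0 < D' := by linarith
    obtain ⟨j₀, hj1, hj2⟩ : ∃ j : ℕ, (j : ℝ) ≤ K / D' ∧ K / D' < j + 1 :=
      ⟨⌊K / D'⌋₊, Nat.floor_le (by positivity), Nat.lt_floor_add_one _⟩
    rw [le_div_iff₀ hD0] at hj1
    rw [div_lt_iff₀ hD0] at hj2
    have hj : 1 ≤ j₀ := by
      by_contra hj
      have : j₀ = 0 := by omega
      rw [this] at hj2
      push_cast at hj2
      linarith
    have hjr : (1 : ℝ) ≤ j₀ := by exact_mod_cast hj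
    have h1 := sparse_edges G K D' hK0 j₀ hj (Fintype.card V) univ card_univ key'
    have h2 : (if Fintype.card V ≤ j₀ then D' * (Fintype.card V : ℝ) else D' * j₀
        + K * (Real.log (Fintype.card V) - Real.log j₀)) ≤ K * (1 + Real.log D) := by
      have hKl : 0 ≤ K * Real.log D := mul_nonneg hK0 hlogD
      split_ifs with hc
      · have : (Fintype.card V : ℝ) ≤ j₀ := by exact_mod_cast hc
        have : D' * (Fintype.card V : ℝ) ≤ D' * j₀ := mul_le_mul_of_nonneg_left this hD0.le
        linarith
      · have h3 : (Fintype.card V : ℝ) ≤ D' * j₀ := by nlinarith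
        have h4 : Real.log (Fintype.card V) ≤ Real.log D + Real.log j₀ := by
          rw [← Real.log_mul (by linarith) (by linarith)]
          refine Real.log_le_log (by linarith) (h3.trans ?_)
          exact mul_le_mul_of_nonneg_right hD3 (by linarith)
        have h5 : K * (Real.log (Fintype.card V) - Real.log j₀) ≤ K * Real.log D :=
          mul_le_mul_of_nonneg_left (by linarith) hK0
        linarith
    have h3 := h1.trans (mul_le_mul_of_nonneg_left h2 (by norm_num))
    rw [hK] at h3
    linarith
  rcases le_total D K with hc | hc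
  · exact main D hD hc le_rfl key
  · refine main K ?_ le_rfl hc ?_
    · linarith
    · intro W hW
      obtain ⟨v, hv, h1, h2⟩ := key W hW
      refine ⟨v, hv, h1, ?_⟩
      have h3 : (1 : ℝ) ≤ W.card := by exact_mod_cast card_pos.mpr hW
      have h4 : (0 : ℝ) ≤ ((W.filter fun j => G.Adj v j).card : ℝ) := Nat.cast_nonneg _
      nlinarith

end logedges

end Pool.Agent.H626.SE
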