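import Pool.Agent.H626.SE.Dense2

/-!
# Square energy: lower bounds by local test matrices
-/

set_option autoImplicit false

namespace Pool.Agent.H626.SE

open Finset Helper76SE

section dual

variable {V : Type*} [Fintype V] [DecidableEq V] (G : SimpleGraph V) [DecidableRel G.Adj]
  (h : (G.adjMatrix ℝ).IsHermitian)

/-- Duality: every positive semidefinite test matrix gives a lower bound. -/
theorem dual_bound (X : V → V → ℝ) (hX : ∀ x : V → ℝ, 0 ≤ ∑ i, ∑ j, X i j * (x i * x j)) :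
    (∑ i, ∑ j, (2 * (if G.Adj i j then (1 : ℝ) else 0) * X i j - X i j ^ 2))
      ≤ ∑ i, (max (h.eigenvalues i) 0) ^ 2 := by
  obtain ⟨p, B, hp, he⟩ := exists_ker G h
  rw [← he]
  have h1 : 0 ≤ ∑ i, ∑ j, X i j * ∑ k, p k * B i k * B j k := by
    have e : ∑ i, ∑ j, X i j * ∑ k, p k * B i k * B j k
        = ∑ k, p k * ∑ i, ∑ j, X i j * (B i k * B j k) := by
      have e1 : ∀ i j, X i j * ∑ k, p k * B i k * B j k
          = ∑ k, p k * (X i j * (B i k * B j k)) := by
        intro i j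
        rw [mul_sum]
        exact sum_congr rfl fun k _ => by ring
      simp_rw [e1]
      rw [sum_congr rfl fun i _ => sum_comm, sum_comm]
      refine sum_congr rfl fun k _ => ?_
      rw [mul_sum]
      refine sum_congr rfl fun i _ => ?_
      rw [mul_sum]
    rw [e]
    exact sum_nonneg fun k _ => mul_nonneg (hp k) (hX _)
  have h2 : (∑ i, ∑ j, (2 * (if G.Adj i j then (1 : ℝ) else 0) * X i j - X i j ^ 2))
      + 2 * ∑ i, ∑ j, X i j * ∑ k, p k * B i k * B j k
      ≤ ∑ i, ∑ j, ((if G.Adj i j then (1 : ℝ) else 0) + ∑ k, p k * B i k * B j k) ^ 2 := by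
    rw [mul_sum, ← sum_add_distrib]
    refine sum_le_sum fun i _ => ?_
    rw [mul_sum, ← sum_add_distrib]
    refine sum_le_sum fun j _ => ?_
    nlinarith [sq_nonneg ((if G.Adj i j then (1 : ℝ) else 0) + (∑ k, p k * B i k * B j k)
      - X i j)]
  linarith

end dual

section test

variable {V : Type*} [Fintype V] [DecidableEq V]

/-- The test matrix is positive semidefinite. -/
theorem test_psd (r : V → V → ℝ) (s u : V → ℝ) (α β γ : ℝ) (hα : 0 ≤ α) (hγ : 0 ≤ γ)
    (hβ : α * γ = β ^ 2) (hs : ∀ h, 0 ≤ s h)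
    (hsu : ∀ h, s h * u h = 1 ∨ ∀ i, r i h = 0) (x : V → ℝ) :
    0 ≤ ∑ i, ∑ j, ((if i = j then α * s i else 0) + β * (r i j + r j i)
      + γ * ∑ h, r i h * r j h * u h) * (x i * x j) := by
  have e : ∑ i, ∑ j, ((if i = j then α * s i else 0) + β * (r i j + r j i)
      + γ * ∑ h, r i h * r j h * u h) * (x i * x j)
      = ∑ h, (α * s h * x h ^ 2 + 2 * β * x h * (∑ i, r i h * x i)
        + γ * u h * (∑ i, r i h * x i) ^ 2) := by
    have e1 : ∀ i j, ((if i = j then α * s i else 0) + β * (r i j + r j i)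
        + γ * ∑ h, r i h * r j h * u h) * (x i * x j)
        = (if i = j then α * s i * x i * x j else 0) + β * (r i j * x i * x j)
          + β * (r j i * x j * x i) + ∑ h, γ * u h * ((r i h * x i) * (r j h * x j)) := by
      intro i j
      have : ∑ h, γ * u h * ((r i h * x i) * (r j h * x j))
          = (γ * ∑ h, r i h * r j h * u h) * (x i * x j) := by
        rw [mul_sum, sum_mul]
        exact sum_congr rfl fun h _ => by ring
      rw [this]
      split_ifs <;> ring
    simp_rw [e1]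
    simp only [sum_add_distrib]
    have e2 : ∑ i, ∑ j, (if i = j then α * s i * x i * x j else 0)
        = ∑ h, α * s h * x h ^ 2 := by
      refine sum_congr rfl fun i _ => ?_
      rw [sum_ite_eq]
      simp only [mem_univ, if_true]
      ring
    have e3 : ∑ i, ∑ j, β * (r j i * x j * x i) = ∑ h, β * x h * (∑ i, r i h * x i) := by
      refine sum_congr rfl fun i _ => ?_
      rw [mul_sum]
      exact sum_congr rfl fun j _ => by ring
    have e4 : ∑ i, ∑ j, β * (r i j * x i * x j) = ∑ h, β * x h * (∑ i, r i h * x i) := by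
      rw [sum_comm]
      exact e3
    have e5 : ∑ i, ∑ j, ∑ h, γ * u h * ((r i h * x i) * (r j h * x j))
        = ∑ h, γ * u h * (∑ i, r i h * x i) ^ 2 := by
      rw [sum_congr rfl fun i _ => sum_comm, sum_comm]
      refine sum_congr rfl fun h _ => ?_
      rw [pow_two, sum_mul_sum, mul_sum]
      refine sum_congr rfl fun i _ => ?_
      rw [mul_sum]
    rw [e2, e3, e4, e5]
    simp only [← sum_add_distrib]
    exact sum_congr rfl fun h _ => by ring
  rw [e]
  refine sum_nonneg fun h _ => ?_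
  rcases hsu h with h1 | h1
  · have hs0 : 0 < s h := by
      rcases (hs h).lt_or_eq with h2 | h2
      · exact h2
      · rw [← h2, zero_mul] at h1
        norm_num at h1
    set y := ∑ i, r i h * x i
    have h3 : s h * (α * s h * x h ^ 2 + 2 * β * x h * y + γ * u h * y ^ 2)
        = α * (s h * x h) ^ 2 + 2 * β * (s h * x h) * y + γ * y ^ 2 := by
      calc _ = α * (s h * x h) ^ 2 + 2 * β * (s h * x h) * y + γ * (s h * u h) * y ^ 2 := by ring
        _ = _ := by rw [h1, mul_one]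
    have h4 : 0 ≤ α * (s h * x h) ^ 2 + 2 * β * (s h * x h) * y + γ * y ^ 2 := by
      rcases hα.lt_or_eq with h5 | h5
      · have : 0 ≤ α * (α * (s h * x h) ^ 2 + 2 * β * (s h * x h) * y + γ * y ^ 2) := by
          have : α * (α * (s h * x h) ^ 2 + 2 * β * (s h * x h) * y + γ * y ^ 2)
              = (α * (s h * x h) + β * y) ^ 2 := by
            linear_combination y ^ 2 * hβ
          rw [this]
          positivity
        exact nonneg_of_mul_nonneg_right this h5
      · have hb : β = 0 := by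
          rw [← h5, zero_mul] at hβ
          exact pow_eq_zero_iff (two_ne_zero) |>.mp hβ.symm
        rw [← h5, hb]
        have : 0 ≤ γ * y ^ 2 := by positivity
        linarith
    rw [← h3] at h4
    exact nonneg_of_mul_nonneg_right h4 hs0
  · have : ∑ i, r i h * x i = 0 := sum_eq_zero fun i _ => by rw [h1 i, zero_mul]
    rw [this]
    have h7 : 0 ≤ α * s h * x h ^ 2 := mul_nonneg (mul_nonneg hα (hs h)) (sq_nonneg _)
    linarith

/-- The squared norm of the off-star part of the test matrix. -/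
theorem test_sq (r : V → V → ℝ) (hr : ∀ i j, r i j = 0 ∨ r i j = 1) (u : V → ℝ)
    (hu : ∀ h, 0 ≤ u h) (hsu : ∀ h, √(∑ i, r i h) * u h ≤ 1) :
    ∑ i, ∑ j, (∑ h, r i h * r j h * u h) ^ 2 ≤ ∑ i, (∑ h, r i h) ^ 2 := by
  have hr0 : ∀ i j, 0 ≤ r i j := fun i j => by rcases hr i j with h | h <;> rw [h] <;> norm_num
  have hr2 : ∀ i j, r i j ^ 2 = r i j := fun i j => by
    rcases hr i j with h | h <;> rw [h] <;> norm_num
  have e : ∑ i, ∑ j, (∑ h, r i h * r j h * u h) ^ 2
      = ∑ h, ∑ k, u h * u k * (∑ i, r i h * r i k) ^ 2 := by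
    have e1 : ∀ i j, (∑ h, r i h * r j h * u h) ^ 2
        = ∑ h, ∑ k, u h * u k * ((r i h * r i k) * (r j h * r j k)) := by
      intro i j
      rw [pow_two, sum_mul_sum]
      exact sum_congr rfl fun h _ => sum_congr rfl fun k _ => by ring
    have e2 : ∀ h k, u h * u k * (∑ i, r i h * r i k) ^ 2
        = ∑ i, ∑ j, u h * u k * ((r i h * r i k) * (r j h * r j k)) := by
      intro h k
      rw [pow_two, sum_mul_sum, mul_sum]
      refine sum_congr rfl fun i _ => ?_
      rw [mul_sum]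
    simp_rw [e1, e2]
    calc ∑ i, ∑ j, ∑ h, ∑ k, u h * u k * ((r i h * r i k) * (r j h * r j k))
        = ∑ i, ∑ h, ∑ j, ∑ k, u h * u k * ((r i h * r i k) * (r j h * r j k)) :=
          sum_congr rfl fun i _ => sum_comm
      _ = ∑ h, ∑ i, ∑ j, ∑ k, u h * u k * ((r i h * r i k) * (r j h * r j k)) := sum_comm
      _ = ∑ h, ∑ i, ∑ k, ∑ j, u h * u k * ((r i h * r i k) * (r j h * r j k)) :=
          sum_congr rfl fun h _ => sum_congr rfl fun i _ => sum_comm
      _ = ∑ h, ∑ k, ∑ i, ∑ j, u h * u k * ((r i h * r i k) * (r j h * r j k)) :=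
          sum_congr rfl fun h _ => sum_comm
  rw [e]
  have e3 : ∑ i, (∑ h, r i h) ^ 2 = ∑ h, ∑ k, ∑ i, r i h * r i k := by
    have e4 : ∀ i, (∑ h, r i h) ^ 2 = ∑ h, ∑ k, r i h * r i k := by
      intro i
      rw [pow_two, sum_mul_sum]
    simp_rw [e4]
    rw [sum_comm]
    exact sum_congr rfl fun h _ => sum_comm
  rw [e3]
  refine sum_le_sum fun h _ => sum_le_sum fun k _ => ?_
  have hN0 : 0 ≤ ∑ i, r i h * r i k := sum_nonneg fun i _ => mul_nonneg (hr0 _ _) (hr0 _ _)
  have hN1 : ∑ i, r i h * r i k ≤ √(∑ i, r i h) * √(∑ i, r i k) := by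
    have := Real.sum_mul_le_sqrt_mul_sqrt univ (fun i => r i h) (fun i => r i k)
    simp only [hr2] at this
    exact this
  have h5 : u h * u k * (∑ i, r i h * r i k) ≤ 1 := by
    calc u h * u k * (∑ i, r i h * r i k)
        ≤ u h * u k * (√(∑ i, r i h) * √(∑ i, r i k)) :=
          mul_le_mul_of_nonneg_left hN1 (mul_nonneg (hu _) (hu _))
      _ = (√(∑ i, r i h) * u h) * (√(∑ i, r i k) * u k) := by ring
      _ ≤ 1 * 1 := mul_le_mul (hsu h) (hsu k) (mul_nonneg (Real.sqrt_nonneg _) (hu _)) zero_le_one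
      _ = 1 := one_mul 1
  calc u h * u k * (∑ i, r i h * r i k) ^ 2
      = (u h * u k * (∑ i, r i h * r i k)) * (∑ i, r i h * r i k) := by ring
    _ ≤ 1 * (∑ i, r i h * r i k) := mul_le_mul_of_nonneg_right h5 hN0
    _ = ∑ i, r i h * r i k := one_mul _

/-- The diagonal cross term. -/
theorem test_cross (r : V → V → ℝ) (hr : ∀ i j, r i j = 0 ∨ r i j = 1) (s u : V → ℝ) (T : ℝ)
    (hT : 0 < T) (hrT : ∀ i, ∑ j, r i j ≤ T) (hs2 : ∀ h, s h ^ 2 = ∑ i, r i h)
    (hu2 : ∀ h, (∑ i, r i h) * u h ^ 2 ≤ 1) :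
    2 * ∑ i, s i * ∑ h, r i h * r i h * u h ≤ (∑ i, ∑ j, r i j) + T * Fintype.card V := by
  have hr0 : ∀ i j, 0 ≤ r i j := fun i j => by rcases hr i j with h | h <;> rw [h] <;> norm_num
  have hr2 : ∀ i j, r i j * r i j = r i j := fun i j => by
    rcases hr i j with h | h <;> rw [h] <;> norm_num
  have h1 : ∀ i h, 2 * (s i * (r i h * r i h * u h)) ≤ r i h * (s i ^ 2 / T) + T * (r i h * u h ^ 2)
      := by
    intro i h
    rw [hr2]
    have h2 : 2 * (s i * u h) ≤ s i ^ 2 / T + T * u h ^ 2 := by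
      rw [div_add' _ _ _ hT.ne', le_div_iff₀ hT]
      nlinarith [sq_nonneg (s i - T * u h)]
    calc 2 * (s i * (r i h * u h)) = r i h * (2 * (s i * u h)) := by ring
      _ ≤ r i h * (s i ^ 2 / T + T * u h ^ 2) := mul_le_mul_of_nonneg_left h2 (hr0 _ _)
      _ = _ := by ring
  have h3 : 2 * ∑ i, s i * ∑ h, r i h * r i h * u h
      = ∑ i, ∑ h, 2 * (s i * (r i h * r i h * u h)) := by
    rw [mul_sum]
    refine sum_congr rfl fun i _ => ?_
    rw [mul_sum, mul_sum]
  rw [h3]
  calc ∑ i, ∑ h, 2 * (s i * (r i h * r i h * u h))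
      ≤ ∑ i, ∑ h, (r i h * (s i ^ 2 / T) + T * (r i h * u h ^ 2)) :=
        sum_le_sum fun i _ => sum_le_sum fun h _ => h1 i h
    _ = (∑ i, ∑ h, r i h * (s i ^ 2 / T)) + ∑ i, ∑ h, T * (r i h * u h ^ 2) := by
        simp only [sum_add_distrib]
    _ ≤ (∑ i, ∑ j, r i j) + T * Fintype.card V := by
        refine add_le_add ?_ ?_
        · calc ∑ i, ∑ h, r i h * (s i ^ 2 / T) = ∑ i, (∑ h, r i h) * (s i ^ 2 / T) :=
                sum_congr rfl fun i _ => (sum_mul _ _ _).symm
            _ ≤ ∑ i, T * (s i ^ 2 / T) := sum_le_sum fun i _ =>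
                mul_le_mul_of_nonneg_right (hrT i) (div_nonneg (sq_nonneg _) hT.le)
            _ = ∑ i, ∑ j, r j i := sum_congr rfl fun i _ => by
                rw [mul_div_cancel₀ _ hT.ne', hs2]
            _ = ∑ i, ∑ j, r i j := sum_comm
        · rw [sum_comm]
          calc ∑ h, ∑ i, T * (r i h * u h ^ 2) = ∑ h, T * ((∑ i, r i h) * u h ^ 2) := by
                refine sum_congr rfl fun h _ => ?_
                rw [sum_mul, mul_sum]
            _ ≤ ∑ h : V, T * 1 := sum_le_sum fun h _ =>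
                mul_le_mul_of_nonneg_left (hu2 h) hT.le
            _ = T * Fintype.card V := by
                rw [sum_const, card_univ, nsmul_eq_mul]
                ring

end test

section main

variable {V : Type*} [Fintype V] [DecidableEq V] (G : SimpleGraph V) [DecidableRel G.Adj]
  (h : (G.adjMatrix ℝ).IsHermitian)

/-- The main inequality: `r` marks at most `T` chosen neighbours of every vertex. -/
theorem test_bound (r : V → V → ℝ) (hr : ∀ i j, r i j = 0 ∨ (r i j = 1 ∧ G.Adj i j)) (T : ℝ)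
    (hT : 0 < T) (hrT : ∀ i, ∑ j, r i j ≤ T) (α β γ : ℝ) (hα : 0 ≤ α) (hγ : 0 ≤ γ)
    (hβ0 : 0 ≤ β) (hβ1 : β ≤ 1 / 2) (hβ : α * γ = β ^ 2) :
    (4 * β - 3 * β ^ 2 - α ^ 2) * (∑ i, ∑ j, r i j) - 2 * β ^ 2 * (∑ i, ∑ j, r i j * r j i)
        - γ ^ 2 * (∑ i, (∑ j, r i j) ^ 2) - β ^ 2 * T * Fintype.card V
      ≤ ∑ i, (max (h.eigenvalues i) 0) ^ 2 := by
  have hr' : ∀ i j, r i j = 0 ∨ r i j = 1 := fun i j => (hr i j).imp_right And.left
  have hr0 : ∀ i j, 0 ≤ r i j := fun i j => by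
    rcases hr' i j with h | h
    · rw [h]
    · rw [h]; exact zero_le_one
  set k : V → ℝ := fun h => ∑ i, r i h with hk
  have hk0 : ∀ h, 0 ≤ k h := fun h => sum_nonneg fun i _ => hr0 i h
  set s : V → ℝ := fun h => √(k h) with hs
  set u : V → ℝ := fun h => (√(k h))⁻¹ with hu
  have hs0 : ∀ h, 0 ≤ s h := fun h => Real.sqrt_nonneg _
  have hu0 : ∀ h, 0 ≤ u h := fun h => inv_nonneg.mpr (Real.sqrt_nonneg _)
  have hsk : ∀ h, s h ^ 2 = k h := fun h => Real.sq_sqrt (hk0 h)
  have hsu : ∀ h, s h * u h = 1 ∨ ∀ i, r i h = 0 := by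
    intro h
    rcases (hk0 h).lt_or_eq with h1 | h1
    · left
      exact mul_inv_cancel₀ (Real.sqrt_pos.mpr h1).ne'
    · right
      intro i
      exact (sum_eq_zero_iff_of_nonneg fun i _ => hr0 i h).mp h1.symm i (mem_univ i)
  have hsu1 : ∀ h, s h * u h ≤ 1 := by
    intro h
    exact mul_inv_le_one
  have hku : ∀ h, k h * u h ^ 2 ≤ 1 := by
    intro h
    rw [← hsk, ← mul_pow]
    exact pow_le_one₀ (mul_nonneg (hs0 h) (hu0 h)) (hsu1 h)
  set a : V → V → ℝ := fun i j => if G.Adj i j then 1 else 0 with ha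
  set C : V → V → ℝ := fun i j => γ * ∑ h, r i h * r j h * u h with hC
  set D : V → V → ℝ := fun i j => if i = j then α * s i else 0 with hD
  have hC0 : ∀ i j, 0 ≤ C i j := fun i j => mul_nonneg hγ (sum_nonneg fun h _ =>
    mul_nonneg (mul_nonneg (hr0 _ _) (hr0 _ _)) (hu0 _))
  have hD0 : ∀ i j, 0 ≤ D i j := by
    intro i j
    simp only [hD]
    split_ifs
    · exact mul_nonneg hα (hs0 i)
    · exact le_rfl
  have hd := dual_bound G h (fun i j => D i j + β * (r i j + r j i) + C i j)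
    (fun x => test_psd r s u α β γ hα hγ hβ hs0 hsu x)
  refine le_trans ?_ hd
  -- the pointwise bound
  have hp : ∀ i j, (2 * β - β ^ 2) * (r i j + r j i) - 2 * β ^ 2 * (r i j * r j i)
      - (D i j ^ 2 + 2 * (D i j * C i j) + C i j ^ 2) ≤
      2 * (if G.Adj i j then (1 : ℝ) else 0) * (D i j + β * (r i j + r j i) + C i j)
        - (D i j + β * (r i j + r j i) + C i j) ^ 2 := by
    intro i j
    have hc := hC0 i j
    have hd := hD0 i j
    have key : β * (r i j + r j i) ≤ (if G.Adj i j then (1 : ℝ) else 0) ∧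
        (2 * β - β ^ 2) * (r i j + r j i) - 2 * β ^ 2 * (r i j * r j i) ≤ 2 * (if G.Adj i j then (1 : ℝ) else 0) *
          (β * (r i j + r j i)) - (β * (r i j + r j i)) ^ 2 := by
      rcases hr i j with h1 | ⟨h1, h2⟩
      · rcases hr j i with h3 | ⟨h3, h4⟩
        · rw [h1, h3]
          refine ⟨?_, ?_⟩
          · rw [add_zero, mul_zero]
            split_ifs
            · exact zero_le_one
            · exact le_rfl
          · simp only [add_zero, mul_zero, ne_eq, OfNat.ofNat_ne_zero, not_false_eq_true,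
              zero_pow, sub_zero, le_refl]
        · rw [h1, h3, if_pos h4.symm]
          refine ⟨by linarith, ?_⟩
          nlinarith [sq_nonneg β]
      · rcases hr j i with h3 | ⟨h3, h4⟩
        · rw [h1, h3, if_pos h2]
          refine ⟨by linarith, ?_⟩
          nlinarith [sq_nonneg β]
        · rw [h1, h3, if_pos h2]
          refine ⟨by linarith, ?_⟩
          nlinarith [sq_nonneg β]
    obtain ⟨k1, k2⟩ := key
    have k3 : 0 ≤ ((if G.Adj i j then (1 : ℝ) else 0) - β * (r i j + r j i)) * (D i j + C i j) :=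
      mul_nonneg (by linarith) (by linarith)
    nlinarith [k2, k3]
  have hsum := sum_le_sum fun i (_ : i ∈ univ) => sum_le_sum fun j (_ : j ∈ univ) => hp i j
  refine le_trans ?_ hsum
  have e1 : ∑ i, ∑ j, (2 * β - β ^ 2) * (r i j + r j i)
      = (4 * β - 2 * β ^ 2) * ∑ i, ∑ j, r i j := by
    have : ∑ i, ∑ j, (2 * β - β ^ 2) * (r i j + r j i)
        = (2 * β - β ^ 2) * ((∑ i, ∑ j, r i j) + ∑ i, ∑ j, r j i) := by
      rw [← sum_add_distrib, mul_sum]
      refine sum_congr rfl fun i _ => ?_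
      rw [← sum_add_distrib, mul_sum]
    rw [this, sum_comm (f := fun i j => r j i)]
    ring
  have e2 : ∑ i, ∑ j, D i j ^ 2 = α ^ 2 * ∑ i, ∑ j, r i j := by
    rw [sum_comm (f := fun i j => r i j), mul_sum]
    refine sum_congr rfl fun i _ => ?_
    have : ∀ j, D i j ^ 2 = if i = j then α ^ 2 * k i else 0 := by
      intro j
      simp only [hD]
      split_ifs
      · rw [mul_pow, hsk]
      · ring
    simp_rw [this]
    rw [sum_ite_eq]
    simp only [mem_univ, if_true, hk]
  have e3 : 2 * (∑ i, ∑ j, D i j * C i j) ≤ β ^ 2 * ((∑ i, ∑ j, r i j) + T * Fintype.card V) := by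
    have h1 := test_cross r hr' s u T hT hrT (fun h => hsk h) hku
    have h2 : ∑ i, ∑ j, D i j * C i j = β ^ 2 * ∑ i, s i * ∑ h, r i h * r i h * u h := by
      rw [mul_sum]
      refine sum_congr rfl fun i _ => ?_
      have : ∀ j, D i j * C i j = if i = j then α * s i * C i i else 0 := by
        intro j
        simp only [hD]
        split_ifs with hij
        · rw [hij]
        · ring
      simp_rw [this]
      rw [sum_ite_eq]
      simp only [mem_univ, if_true, hC]
      rw [← hβ]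
      ring
    rw [h2]
    calc 2 * (β ^ 2 * ∑ i, s i * ∑ h, r i h * r i h * u h)
        = β ^ 2 * (2 * ∑ i, s i * ∑ h, r i h * r i h * u h) := by ring
      _ ≤ _ := mul_le_mul_of_nonneg_left h1 (sq_nonneg β)
  have e4 : ∑ i, ∑ j, C i j ^ 2 ≤ γ ^ 2 * ∑ i, (∑ j, r i j) ^ 2 := by
    have h1 := test_sq r hr' u hu0 hsu1
    have h2 : ∑ i, ∑ j, C i j ^ 2 = γ ^ 2 * ∑ i, ∑ j, (∑ h, r i h * r j h * u h) ^ 2 := by
      rw [mul_sum]
      refine sum_congr rfl fun i _ => ?_
      rw [mul_sum]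
      exact sum_congr rfl fun j _ => by simp only [hC]; ring
    rw [h2]
    exact mul_le_mul_of_nonneg_left h1 (sq_nonneg γ)
  have e5 : ∑ i, ∑ j, ((2 * β - β ^ 2) * (r i j + r j i) - 2 * β ^ 2 * (r i j * r j i)
      - (D i j ^ 2 + 2 * (D i j * C i j) + C i j ^ 2))
      = (∑ i, ∑ j, (2 * β - β ^ 2) * (r i j + r j i)) - 2 * β ^ 2 * (∑ i, ∑ j, r i j * r j i)
        - ((∑ i, ∑ j, D i j ^ 2)
        + 2 * (∑ i, ∑ j, D i j * C i j) + ∑ i, ∑ j, C i j ^ 2) := by
    simp only [sum_sub_distrib, sum_add_distrib, mul_sum]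
  rw [e5, e1, e2]
  linarith

/-- The selection inequality. -/
theorem sel_bound (r : V → V → ℝ) (hr : ∀ i j, r i j = 0 ∨ (r i j = 1 ∧ G.Adj i j)) (T : ℝ)
    (hT : 1 ≤ T) (hrT : ∀ i, ∑ j, r i j ≤ T) :
    4 * (∑ i, ∑ j, r i j) ^ 2 ≤ (∑ i, (max (h.eigenvalues i) 0) ^ 2) *
      ((3 + 2 * √T) * (∑ i, ∑ j, r i j) + 2 * (∑ i, ∑ j, r i j * r j i)
        + T * Fintype.card V) := by
  have hr0 : ∀ i j, 0 ≤ r i j := fun i j => by
    rcases hr i j with h | h
    · rw [h]
    · rw [h.1]; exact zero_le_one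
  set M : ℝ := ∑ i, ∑ j, r i j with hM
  set R : ℝ := ∑ i, ∑ j, r i j * r j i with hR
  set S : ℝ := ∑ i, (max (h.eigenvalues i) 0) ^ 2 with hS
  have hM0 : 0 ≤ M := sum_nonneg fun i _ => sum_nonneg fun j _ => hr0 i j
  have hR0 : 0 ≤ R := sum_nonneg fun i _ => sum_nonneg fun j _ => mul_nonneg (hr0 i j) (hr0 j i)
  have hS0 : 0 ≤ S := sum_nonneg fun i _ => sq_nonneg _
  have hT1 : 1 ≤ √T := Real.one_le_sqrt.mpr hT
  have hN0 : (0 : ℝ) ≤ T * Fintype.card V := by positivity
  set K : ℝ := (3 + 2 * √T) * M + 2 * R + T * Fintype.card V with hK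
  have hK5 : 5 * M ≤ K := by nlinarith
  rcases hM0.lt_or_eq with hM1 | hM1
  swap
  · rw [← hM1]
    have : 0 ≤ K := by linarith
    nlinarith [mul_nonneg hS0 this]
  have hK0 : 0 < K := by linarith
  have hsq : ∑ i, (∑ j, r i j) ^ 2 ≤ T * M := by
    rw [hM, mul_sum]
    refine sum_le_sum fun i _ => ?_
    have h1 : 0 ≤ ∑ j, r i j := sum_nonneg fun j _ => hr0 i j
    nlinarith [hrT i]
  set q : ℝ := √(√T) with hq
  have hq2 : q ^ 2 = √T := Real.sq_sqrt (Real.sqrt_nonneg _)
  have hq0 : 0 < q := Real.sqrt_pos.mpr (by linarith)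
  obtain ⟨β, hβ⟩ : ∃ β : ℝ, β = 2 * M / K := ⟨_, rfl⟩
  have hβ0 : 0 ≤ β := by rw [hβ]; positivity
  have hβ1 : β ≤ 1 / 2 := by
    rw [hβ, div_le_iff₀ hK0]
    linarith
  have key := test_bound G h r hr T (by linarith) hrT (β * q) β (β / q) (by positivity)
    (by positivity) hβ0 hβ1 (by field_simp)
  rw [← hM, ← hR, ← hS, mul_pow β q 2, div_pow β q 2, hq2] at key
  have hTT : √T * √T = T := Real.mul_self_sqrt (by linarith)
  have h3 : β ^ 2 / √T * (∑ i, (∑ j, r i j) ^ 2) ≤ β ^ 2 * √T * M := by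
    rw [div_mul_eq_mul_div, div_le_iff₀ (by linarith)]
    calc β ^ 2 * (∑ i, (∑ j, r i j) ^ 2) ≤ β ^ 2 * (T * M) :=
          mul_le_mul_of_nonneg_left hsq (sq_nonneg _)
      _ = β ^ 2 * √T * M * √T := by
          linear_combination (-(β ^ 2 * M)) * hTT
  have h4 : 4 * β * M - β ^ 2 * K ≤ S := by
    rw [hK]
    linarith
  have h5 : 4 * β * M - β ^ 2 * K = 4 * M ^ 2 / K := by
    rw [hβ]
    field_simp
    ring
  rw [h5, div_le_iff₀ hK0] at h4
  exact h4

/-- The inequality in terms of truncated degrees. -/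
theorem trunc_bound (T : ℕ) (hT : 1 ≤ T) :
    4 * ((∑ i, min (univ.filter fun j => G.Adj i j).card T : ℕ) : ℝ) ^ 2
      ≤ (∑ i, (max (h.eigenvalues i) 0) ^ 2) *
      ((5 + 2 * √(T : ℝ)) * ((∑ i, min (univ.filter fun j => G.Adj i j).card T : ℕ) : ℝ)
        + T * Fintype.card V) := by
  have hF : ∀ i, ∃ F ⊆ (univ.filter fun j => G.Adj i j),
      F.card = min (univ.filter fun j => G.Adj i j).card T := fun i =>
    exists_subset_card_eq (min_le_left _ _)
  choose F hF1 hF2 using hF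
  set r : V → V → ℝ := fun i j => if j ∈ F i then 1 else 0 with hr
  have hr1 : ∀ i j, r i j = 0 ∨ (r i j = 1 ∧ G.Adj i j) := by
    intro i j
    by_cases hj : j ∈ F i
    · right
      refine ⟨if_pos hj, ?_⟩
      have := hF1 i hj
      rw [mem_filter] at this
      exact this.2
    · left
      exact if_neg hj
  have hr0 : ∀ i j, 0 ≤ r i j := fun i j => by
    rcases hr1 i j with h | h
    · rw [h]
    · rw [h.1]; exact zero_le_one
  have hr1' : ∀ i j, r i j ≤ 1 := fun i j => by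
    rcases hr1 i j with h | h
    · rw [h]; exact zero_le_one
    · rw [h.1]
  have hsum : ∀ i, ∑ j, r i j = ((min (univ.filter fun j => G.Adj i j).card T : ℕ) : ℝ) := by
    intro i
    rw [← hF2 i, hr]
    simp only [sum_ite_mem, univ_inter, sum_const, nsmul_eq_mul, mul_one]
  have hM : ∑ i, ∑ j, r i j
      = ((∑ i, min (univ.filter fun j => G.Adj i j).card T : ℕ) : ℝ) := by
    push_cast
    refine sum_congr rfl fun i _ => ?_
    rw [hsum i]
    push_cast
    rfl
  have hb := sel_bound G h r hr1 T (by exact_mod_cast hT) (fun i => by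
    rw [hsum i]
    exact_mod_cast min_le_right _ _)
  have hR : ∑ i, ∑ j, r i j * r j i ≤ ∑ i, ∑ j, r i j :=
    sum_le_sum fun i _ => sum_le_sum fun j _ =>
      mul_le_of_le_one_right (hr0 i j) (hr1' j i)
  have hS0 : 0 ≤ ∑ i, (max (h.eigenvalues i) 0) ^ 2 := sum_nonneg fun i _ => sq_nonneg _
  rw [hM] at hb hR
  refine hb.trans (mul_le_mul_of_nonneg_left ?_ hS0)
  linarith

end main

end Pool.Agent.H626.SE
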