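import Pool.Agent.H626.SE.MinDeg
import Mathlib.Combinatorics.Hall.Basic

/-!
# Square energy of graphs in which every vertex set spans few edges
-/

set_option autoImplicit false

namespace Pool.Agent.H626.SE

open Finset Helper76SE

section orient

variable {V : Type*} [Fintype V] [DecidableEq V]

/-- Orientation with small outdegrees (Hakimi), by Hall's theorem. -/
theorem exists_orient (G : SimpleGraph V) [DecidableRel G.Adj] (k : ℕ)
    (hW : ∀ W : Finset V, (G.edgeFinset.filter (fun e => ∀ v ∈ e, v ∈ W)).card ≤ k * W.card) :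
    ∃ R : V → V → Prop, (∀ i j, R i j → G.Adj i j) ∧ (∀ i j, R i j → ¬ R j i) ∧
      (∀ i j, G.Adj i j → R i j ∨ R j i) ∧ ∀ i, Nat.card {j // R i j} ≤ k := by
  classical
  set t : G.edgeSet → Finset (V × Fin k) := fun e => univ.filter (fun p => p.1 ∈ e.1) with ht
  have hall : ∀ s : Finset G.edgeSet, s.card ≤ (s.biUnion t).card := by
    intro s
    set W : Finset V := univ.filter (fun v => ∃ e ∈ s, v ∈ e.1) with hWd
    have e1 : s.biUnion t = W ×ˢ (univ : Finset (Fin k)) := by
      ext p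
      simp only [mem_biUnion, ht, mem_filter, mem_univ, true_and, mem_product, hWd, and_true]
    rw [e1, card_product, card_univ, Fintype.card_fin, mul_comm]
    refine le_trans ?_ (hW W)
    rw [← card_map (Function.Embedding.subtype _)]
    refine card_le_card ?_
    intro e he
    rw [mem_map] at he
    obtain ⟨e', he', rfl⟩ := he
    rw [mem_filter, SimpleGraph.mem_edgeFinset]
    refine ⟨e'.2, fun v hv => ?_⟩
    rw [hWd, mem_filter]
    exact ⟨mem_univ v, e', he', hv⟩
  obtain ⟨f, hf1, hf2⟩ := (Finset.all_card_le_biUnion_card_iff_exists_injective t).mp hall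
  refine ⟨fun i j => ∃ h : G.Adj i j, (f ⟨s(i, j), h⟩).1 = i, ?_, ?_, ?_, ?_⟩
  · rintro i j ⟨h, _⟩
    exact h
  · rintro i j ⟨h1, h2⟩ ⟨h3, h4⟩
    have : (⟨s(i, j), h1⟩ : G.edgeSet) = ⟨s(j, i), h3⟩ := Subtype.ext Sym2.eq_swap
    rw [this, h4] at h2
    exact G.ne_of_adj h3 h2
  · intro i j h
    have h1 := hf2 ⟨s(i, j), h⟩
    rw [ht, mem_filter] at h1
    rcases Sym2.mem_iff.mp h1.2 with h2 | h2
    · exact Or.inl ⟨h, h2⟩
    · right
      refine ⟨h.symm, ?_⟩
      have : (⟨s(i, j), h⟩ : G.edgeSet) = ⟨s(j, i), h.symm⟩ := Subtype.ext Sym2.eq_swap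
      rw [← this]
      exact h2
  · intro i
    have hinj : Function.Injective (fun j : {j // ∃ h : G.Adj i j, (f ⟨s(i, j), h⟩).1 = i} =>
        (f ⟨s(i, j.1), j.2.1⟩).2) := by
      rintro ⟨j, hj1, hj2⟩ ⟨j', hj1', hj2'⟩ hjj
      have h1 : f ⟨s(i, j), hj1⟩ = f ⟨s(i, j'), hj1'⟩ := Prod.ext (hj2.trans hj2'.symm) hjj
      have h2 := hf1 h1
      have h3 : s(i, j) = s(i, j') := congrArg Subtype.val h2
      rw [Sym2.congr_right] at h3
      exact Subtype.ext h3
    have := Nat.card_le_card_of_injective _ hinj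
    rwa [Nat.card_fin] at this

/-- If every vertex set `W` spans at most `k |W|` edges then
`4 m² ≤ s⁺ ((3 + 2√k) m + k n)`. -/
theorem orient_bound (G : SimpleGraph V) [DecidableRel G.Adj] (h : (G.adjMatrix ℝ).IsHermitian)
    (k : ℕ) (hk : 1 ≤ k)
    (hW : ∀ W : Finset V, (G.edgeFinset.filter (fun e => ∀ v ∈ e, v ∈ W)).card ≤ k * W.card) :
    4 * (G.edgeFinset.card : ℝ) ^ 2 ≤ (∑ i, (max (h.eigenvalues i) 0) ^ 2) *
      ((3 + 2 * √(k : ℝ)) * G.edgeFinset.card + k * Fintype.card V) := by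
  classical
  obtain ⟨R, hR1, hR2, hR3, hR4⟩ := exists_orient G k hW
  set r : V → V → ℝ := fun i j => if R i j then 1 else 0 with hr
  have h1 : ∀ i j, r i j = 0 ∨ (r i j = 1 ∧ G.Adj i j) := by
    intro i j
    by_cases hij : R i j
    · exact Or.inr ⟨if_pos hij, hR1 i j hij⟩
    · exact Or.inl (if_neg hij)
  have h2 : ∀ i, ∑ j, r i j ≤ (k : ℝ) := by
    intro i
    have h3 := hR4 i
    rw [Nat.card_eq_fintype_card, Fintype.card_subtype] at h3
    have : ∑ j, r i j = ((univ.filter fun j => R i j).card : ℝ) := by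
      rw [hr]
      simp only [sum_ite, sum_const_zero, add_zero, sum_const, nsmul_eq_mul, mul_one]
    rw [this]
    exact_mod_cast h3
  have h3 := sel_bound G h r h1 k (by exact_mod_cast hk) h2
  have h4 : ∀ i j, r i j * r j i = 0 := by
    intro i j
    simp only [hr]
    by_cases hij : R i j
    · rw [if_neg (hR2 i j hij), mul_zero]
    · rw [if_neg hij, zero_mul]
  have h5 : ∑ i, ∑ j, r i j * r j i = 0 :=
    sum_eq_zero fun i _ => sum_eq_zero fun j _ => h4 i j
  have h6 : ∀ i j, r i j + r j i = if G.Adj i j then (1 : ℝ) else 0 := by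
    intro i j
    simp only [hr]
    by_cases hij : G.Adj i j
    · rw [if_pos hij]
      rcases hR3 i j hij with hc | hc
      · rw [if_pos hc, if_neg (hR2 i j hc), add_zero]
      · rw [if_pos hc, if_neg (hR2 j i hc), zero_add]
    · rw [if_neg hij, if_neg (fun hc => hij (hR1 i j hc)),
        if_neg (fun hc => hij (hR1 j i hc).symm), add_zero]
  have h7 : 2 * ∑ i, ∑ j, r i j = 2 * (G.edgeFinset.card : ℝ) := by
    have h8 : ∑ i, ∑ j, (r i j + r j i) = 2 * ∑ i, ∑ j, r i j := by
      simp only [sum_add_distrib]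
      rw [sum_comm (f := fun i j => r j i)]
      ring
    rw [← h8]
    simp_rw [h6]
    have h9 := G.sum_degrees_eq_twice_card_edges
    have h10 : ∀ i, (∑ j, if G.Adj i j then (1 : ℝ) else 0) = G.degree i := by
      intro i
      rw [← SimpleGraph.card_neighborFinset_eq_degree, SimpleGraph.neighborFinset_eq_filter]
      simp only [sum_ite, sum_const_zero, add_zero, sum_const, nsmul_eq_mul, mul_one]
    simp_rw [h10]
    exact_mod_cast h9
  have h8 : ∑ i, ∑ j, r i j = (G.edgeFinset.card : ℝ) := by linarith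
  rw [h5, h8, mul_zero, add_zero] at h3
  exact h3

end orient

end Pool.Agent.H626.SE
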