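import Pool.Agent.H626.SE.Top

/-!
# Negative p-energies
-/

set_option autoImplicit false

namespace Pool.Agent.H626.SE

open Finset Helper76SE

variable {V : Type*} [Fintype V] [DecidableEq V]

section graph

variable (G : SimpleGraph V) [DecidableRel G.Adj] (h : (G.adjMatrix ℝ).IsHermitian)

theorem sum_eig : ∑ i, h.eigenvalues i = 0 := by
  have h1 := h.trace_eq_sum_eigenvalues
  rw [SimpleGraph.trace_adjMatrix] at h1
  simpa using h1.symm

theorem sq_plus : (∑ i, if 0 < h.eigenvalues i then (h.eigenvalues i) ^ 2 else 0)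
    = ∑ i, (max (h.eigenvalues i) 0) ^ 2 := by
  refine sum_congr rfl fun i _ => ?_
  split_ifs with h1
  · rw [max_eq_left h1.le]
  · rw [max_eq_right (not_lt.1 h1)]; norm_num

theorem sq_minus : (∑ i, if h.eigenvalues i < 0 then (h.eigenvalues i) ^ 2 else 0)
    = ∑ i, (min (h.eigenvalues i) 0) ^ 2 := by
  refine sum_congr rfl fun i _ => ?_
  split_ifs with h1
  · rw [min_eq_left h1.le]
  · rw [min_eq_right (not_lt.1 h1)]; norm_num

/-- not all eigenvalues are negative -/
theorem card_neg_le [Nonempty V] :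
    (∑ i, if h.eigenvalues i < 0 then (1 : ℝ) else 0) ≤ (Fintype.card V : ℝ) - 1 := by
  have h1 : ∃ i, ¬ h.eigenvalues i < 0 := by
    by_contra hcon
    push Not at hcon
    have h2 := sum_neg (fun i (_ : i ∈ (univ : Finset V)) => hcon i) univ_nonempty
    rw [sum_eig G h] at h2
    exact lt_irrefl _ h2
  obtain ⟨i, hi⟩ := h1
  rw [← add_sum_erase univ _ (mem_univ i), if_neg hi, zero_add]
  have h3 : (∑ j ∈ univ.erase i, if h.eigenvalues j < 0 then (1 : ℝ) else 0)
      ≤ ∑ j ∈ univ.erase i, (1 : ℝ) := by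
    refine sum_le_sum fun j _ => ?_
    split_ifs <;> norm_num
  refine h3.trans (le_of_eq ?_)
  rw [sum_const, nsmul_eq_mul, mul_one, card_erase_of_mem (mem_univ i), card_univ,
    Nat.cast_sub (Fintype.card_pos)]
  norm_num

end graph

/-- the negative eigenvalues of the complete graph are equal to -1 -/
theorem top_eig [DecidableRel (⊤ : SimpleGraph V).Adj]
    (h : ((⊤ : SimpleGraph V).adjMatrix ℝ).IsHermitian) (k : V)
    (hk : h.eigenvalues k < 0) : h.eigenvalues k = -1 := by
  obtain ⟨B, ho, hAB⟩ := spec_entry _ h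
  have h1 : ∀ i, ∑ j, (⊤ : SimpleGraph V).adjMatrix ℝ i j * B j k = h.eigenvalues k * B i k := by
    intro i
    simp_rw [hAB i, sum_mul]
    rw [sum_comm]
    have : ∀ l, ∑ j, h.eigenvalues l * B i l * B j l * B j k
        = h.eigenvalues l * B i l * (if l = k then 1 else 0) := by
      intro l
      rw [← ho l k, mul_sum]
      exact sum_congr rfl fun j _ => by ring
    simp_rw [this]
    simp
  have h2 : ∀ i, ∑ j, B j k = (h.eigenvalues k + 1) * B i k := by
    intro i
    have h3 : ∀ j, (⊤ : SimpleGraph V).adjMatrix ℝ i j * B j k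
        = B j k - if i = j then B i k else 0 := by
      intro j
      rw [SimpleGraph.adjMatrix_apply]
      by_cases hij : i = j
      · rw [if_neg (by rw [SimpleGraph.top_adj]; exact fun h => h hij), if_pos hij, hij]; ring
      · rw [if_pos (by rw [SimpleGraph.top_adj]; exact hij), if_neg hij]; ring
    have h4 := h1 i
    simp_rw [h3] at h4
    rw [sum_sub_distrib, sum_ite_eq, if_pos (mem_univ i)] at h4
    linarith
  have h5 : (Fintype.card V : ℝ) * ∑ j, B j k = (h.eigenvalues k + 1) * ∑ j, B j k := by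
    have h6 := sum_congr (rfl : (univ : Finset V) = univ) (fun i _ => h2 i)
    rw [sum_const, nsmul_eq_mul, card_univ, ← mul_sum] at h6
    exact h6
  have hcard : (1 : ℝ) ≤ Fintype.card V := by
    have : 0 < Fintype.card V := Fintype.card_pos_iff.2 ⟨k⟩
    exact_mod_cast this
  have h7 : ∑ j, B j k = 0 := by
    have h8 : ((Fintype.card V : ℝ) - (h.eigenvalues k + 1)) * ∑ j, B j k = 0 := by
      rw [sub_mul, h5, sub_self]
    rcases mul_eq_zero.1 h8 with h9 | h9
    · linarith
    · exact h9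
  have h10 : ∃ i, B i k ≠ 0 := by
    by_contra hcon
    push Not at hcon
    have := ho k k
    rw [if_pos rfl, sum_eq_zero (fun i _ => by rw [hcon i, zero_mul])] at this
    exact zero_ne_one this
  obtain ⟨i, hi⟩ := h10
  have h11 := h2 i
  rw [h7] at h11
  rcases mul_eq_zero.1 h11.symm with h12 | h12
  · linarith
  · exact absurd h12 hi

/-- the complete graph has exactly `n - 1` negative eigenvalues -/
theorem top_card [Nonempty V] [DecidableRel (⊤ : SimpleGraph V).Adj]
    (h : ((⊤ : SimpleGraph V).adjMatrix ℝ).IsHermitian) :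
    (∑ i, if h.eigenvalues i < 0 then (1 : ℝ) else 0) = (Fintype.card V : ℝ) - 1 ∧
    ∑ i, (min (h.eigenvalues i) 0) ^ 2 = (Fintype.card V : ℝ) - 1 := by
  have h1 := (square_energy (⊤ : SimpleGraph V) SimpleGraph.connected_top h).2
  have h2 : ∑ i, (min (h.eigenvalues i) 0) ^ 2
      = ∑ i, if h.eigenvalues i < 0 then (1 : ℝ) else 0 := by
    refine sum_congr rfl fun i _ => ?_
    split_ifs with h3
    · rw [top_eig h i h3]; norm_num
    · rw [min_eq_right (not_lt.1 h3)]; norm_num
  have h3 := card_neg_le (⊤ : SimpleGraph V) h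
  rw [h2] at h1 ⊢
  exact ⟨le_antisymm h3 h1, le_antisymm h3 h1⟩

theorem rpow_eq (l p : ℝ) : |l| ^ p = (1 + (l ^ 2 - 1)) ^ (p / 2) := by
  have h1 : 1 + (l ^ 2 - 1) = |l| ^ 2 := by rw [sq_abs]; ring
  rw [h1, ← Real.rpow_natCast, ← Real.rpow_mul (abs_nonneg _)]
  congr 1
  push_cast
  ring

theorem bern (l p : ℝ) (hp : 2 ≤ p) : 1 + p / 2 * (l ^ 2 - 1) ≤ |l| ^ p := by
  rw [rpow_eq]
  exact one_add_mul_self_le_rpow_one_add (by nlinarith [sq_nonneg l]) (by linarith)

theorem bern_lt (l p : ℝ) (hp : 2 < p) (hl : l ^ 2 ≠ 1) :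
    1 + p / 2 * (l ^ 2 - 1) < |l| ^ p := by
  rw [rpow_eq]
  exact one_add_mul_self_lt_rpow_one_add (by nlinarith [sq_nonneg l])
    (sub_ne_zero.2 hl) (by linarith)

section graph

variable (G : SimpleGraph V) [DecidableRel G.Adj] (h : (G.adjMatrix ℝ).IsHermitian)

theorem p_lower (p : ℝ) (hp : 2 ≤ p) :
    (1 - p / 2) * (∑ i, if h.eigenvalues i < 0 then (1 : ℝ) else 0)
      + p / 2 * (∑ i, (min (h.eigenvalues i) 0) ^ 2)
    ≤ ∑ i, if h.eigenvalues i < 0 then |h.eigenvalues i| ^ p else 0 := by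
  rw [mul_sum, mul_sum, ← sum_add_distrib]
  refine sum_le_sum fun i _ => ?_
  split_ifs with h1
  · rw [min_eq_left h1.le]
    have := bern (h.eigenvalues i) p hp
    linarith
  · rw [min_eq_right (not_lt.1 h1)]; norm_num

theorem p_energy (hG : G.Connected) (p : ℝ) (hp : 2 ≤ p) :
    (Fintype.card V : ℝ) - 1 ≤ ∑ i, if h.eigenvalues i < 0 then |h.eigenvalues i| ^ p else 0 := by
  have := hG.nonempty
  have h1 := p_lower G h p hp
  have h2 := (square_energy G hG h).2
  have h3 := card_neg_le G h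
  nlinarith

theorem p_energy_top [Nonempty V] [DecidableRel (⊤ : SimpleGraph V).Adj]
    (hK : ((⊤ : SimpleGraph V).adjMatrix ℝ).IsHermitian) (p : ℝ) :
    (∑ i, if hK.eigenvalues i < 0 then |hK.eigenvalues i| ^ p else 0)
      = (Fintype.card V : ℝ) - 1 := by
  rw [← (top_card hK).1]
  refine sum_congr rfl fun i _ => ?_
  split_ifs with h1
  · rw [top_eig hK i h1]; norm_num
  · rfl

/-- equality for `p > 2` -/
theorem p_energy_eq (hG : G.Connected) (p : ℝ) (hp : 2 < p)
    (he : (∑ i, if h.eigenvalues i < 0 then |h.eigenvalues i| ^ p else 0)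
      ≤ (Fintype.card V : ℝ) - 1) : G = ⊤ := by
  have := hG.nonempty
  set N : ℝ := ∑ i, if h.eigenvalues i < 0 then (1 : ℝ) else 0 with hN
  have h1 := p_lower G h p hp.le
  have h2 := (square_energy G hG h).2
  have h3 := card_neg_le G h
  rw [← hN] at h1 h3
  have hNe : N = (Fintype.card V : ℝ) - 1 := by nlinarith
  have hse : ∑ i, (min (h.eigenvalues i) 0) ^ 2 = (Fintype.card V : ℝ) - 1 := by nlinarith
  -- all negative eigenvalues are -1
  have hneg : ∀ i, h.eigenvalues i < 0 → h.eigenvalues i = -1 := by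
    have h4 : ∑ i, ((if h.eigenvalues i < 0 then |h.eigenvalues i| ^ p else 0)
        - ((1 - p / 2) * (if h.eigenvalues i < 0 then (1 : ℝ) else 0)
          + p / 2 * (min (h.eigenvalues i) 0) ^ 2)) ≤ 0 := by
      rw [sum_sub_distrib, sum_add_distrib, ← mul_sum, ← mul_sum, ← hN, hNe, hse]
      linarith
    have h5 : ∀ i, 0 ≤ ((if h.eigenvalues i < 0 then |h.eigenvalues i| ^ p else 0)
        - ((1 - p / 2) * (if h.eigenvalues i < 0 then (1 : ℝ) else 0)
          + p / 2 * (min (h.eigenvalues i) 0) ^ 2)) := by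
      intro i
      split_ifs with h1
      · rw [min_eq_left h1.le]
        have := bern (h.eigenvalues i) p hp.le
        linarith
      · rw [min_eq_right (not_lt.1 h1)]; norm_num
    have h6 := (sum_eq_zero_iff_of_nonneg (fun i _ => h5 i)).1
      (le_antisymm h4 (sum_nonneg fun i _ => h5 i))
    intro i hi
    have h7 := h6 i (mem_univ i)
    rw [if_pos hi, if_pos hi, min_eq_left hi.le] at h7
    have h8 : (h.eigenvalues i) ^ 2 = 1 := by
      by_contra hcon
      have := bern_lt (h.eigenvalues i) p hp hcon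
      linarith
    have h9 : (h.eigenvalues i - 1) * (h.eigenvalues i + 1) = 0 := by nlinarith
    rcases mul_eq_zero.1 h9 with h10 | h10
    · linarith
    · linarith
  have hnn : ∃ i, ¬ h.eigenvalues i < 0 := by
    by_contra hcon
    push Not at hcon
    have h2 := sum_neg (fun i (_ : i ∈ (univ : Finset V)) => hcon i) univ_nonempty
    rw [sum_eig G h] at h2
    exact lt_irrefl _ h2
  obtain ⟨k, hk⟩ := hnn
  have hcard : ((univ.erase k).card : ℝ) = (Fintype.card V : ℝ) - 1 := by
    rw [card_erase_of_mem (mem_univ k), card_univ, Nat.cast_sub (Fintype.card_pos)]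
    norm_num
  have hoth : ∀ i ∈ univ.erase k, h.eigenvalues i < 0 := by
    have h4 : ∑ i ∈ univ.erase k, (1 - if h.eigenvalues i < 0 then (1 : ℝ) else 0) = 0 := by
      rw [sum_sub_distrib, sum_const, nsmul_eq_mul, mul_one, hcard, ← hNe, hN,
        ← add_sum_erase univ _ (mem_univ k), if_neg hk]
      ring
    have h5 : ∀ i ∈ univ.erase k, 0 ≤ (1 - if h.eigenvalues i < 0 then (1 : ℝ) else 0) := by
      intro i _
      split_ifs <;> norm_num
    intro i hi
    have h6 := (sum_eq_zero_iff_of_nonneg h5).1 h4 i hi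
    by_contra hcon
    rw [if_neg hcon] at h6
    norm_num at h6
  have hlk : h.eigenvalues k = (Fintype.card V : ℝ) - 1 := by
    have h4 := sum_eig G h
    rw [← add_sum_erase univ _ (mem_univ k),
      sum_congr rfl (fun i hi => hneg i (hoth i hi)), sum_const, nsmul_eq_mul, hcard] at h4
    linarith
  have hplus : ∑ i, (max (h.eigenvalues i) 0) ^ 2 = ((Fintype.card V : ℝ) - 1) ^ 2 := by
    rw [← add_sum_erase univ _ (mem_univ k), max_eq_left (not_lt.1 hk), hlk,
      sum_congr rfl (fun i hi => show (max (h.eigenvalues i) 0) ^ 2 = 0 by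
        rw [max_eq_right (hoth i hi).le]; norm_num)]
    simp
  have hsum := sum_sq G h
  rw [hplus, hse] at hsum
  have h4 : ∑ i : V, ∑ j : V, (1 - (if i = j then (1 : ℝ) else 0)
      - (if G.Adj i j then (1 : ℝ) else 0)) = 0 := by
    simp_rw [sum_sub_distrib]
    rw [← hsum]
    simp
    ring
  have h5 : ∀ i j : V, 0 ≤ (1 - (if i = j then (1 : ℝ) else 0)
      - (if G.Adj i j then (1 : ℝ) else 0)) := by
    intro i j
    by_cases hij : i = j
    · rw [if_pos hij, hij, if_neg (G.irrefl)]; norm_num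
    · rw [if_neg hij]
      split_ifs <;> norm_num
  ext i j
  rw [SimpleGraph.top_adj]
  refine ⟨fun h => h.ne, fun hij => ?_⟩
  have h6 := (sum_eq_zero_iff_of_nonneg (fun i _ => sum_nonneg fun j _ => h5 i j)).1 h4 i
    (mem_univ i)
  have h7 := (sum_eq_zero_iff_of_nonneg (fun j _ => h5 i j)).1 h6 j (mem_univ j)
  by_contra hcon
  rw [if_neg hij, if_neg hcon] at h7
  norm_num at h7

end graph

end Pool.Agent.H626.SE
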