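import Pool.Agent.H626.SE.Eq
import Pool.Graph.R_pool_sql_team_668148b0.Helper76.SquareEnergyD

/-!
# Square energy: the equality cases
-/

set_option autoImplicit false

namespace Pool.Agent.H626.SE

open Finset Helper76SE

variable {V : Type*} [Fintype V] [DecidableEq V] {ι : Type*} [Fintype ι]

omit [DecidableEq V] in
/-- the value of the form given by the Hadamard square of a Gram kernel -/
theorem had2_eq (p : ι → ℝ) (B : V → ι → ℝ) (x : V → ℝ) :
    ∑ i, ∑ j, (∑ k, p k * B i k * B j k) ^ 2 * x i * x j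
      = ∑ k, ∑ l, p k * p l * (∑ i, x i * B i k * B i l) ^ 2 := by
  have h1 : ∀ i j, (∑ k, p k * B i k * B j k) ^ 2 * x i * x j
      = ∑ k, ∑ l, p k * p l * (x i * B i k * B i l) * (x j * B j k * B j l) := by
    intro i j
    rw [pow_two, sum_mul_sum, sum_mul, sum_mul]
    refine sum_congr rfl fun k _ => ?_
    rw [sum_mul, sum_mul]
    exact sum_congr rfl fun l _ => by ring
  have h2 : ∀ k l, p k * p l * (∑ i, x i * B i k * B i l) ^ 2
      = ∑ i, ∑ j, p k * p l * (x i * B i k * B i l) * (x j * B j k * B j l) := by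
    intro k l
    rw [pow_two, sum_mul_sum, mul_sum]
    refine sum_congr rfl fun i _ => ?_
    rw [mul_sum]
    exact sum_congr rfl fun j _ => by ring
  simp_rw [h1, h2]
  calc ∑ i, ∑ j, ∑ k, ∑ l, p k * p l * (x i * B i k * B i l) * (x j * B j k * B j l)
      = ∑ i, ∑ k, ∑ j, ∑ l, p k * p l * (x i * B i k * B i l) * (x j * B j k * B j l) :=
        sum_congr rfl fun i _ => sum_comm
    _ = ∑ k, ∑ i, ∑ j, ∑ l, p k * p l * (x i * B i k * B i l) * (x j * B j k * B j l) := sum_comm
    _ = ∑ k, ∑ i, ∑ l, ∑ j, p k * p l * (x i * B i k * B i l) * (x j * B j k * B j l) :=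
        sum_congr rfl fun k _ => sum_congr rfl fun i _ => sum_comm
    _ = ∑ k, ∑ l, ∑ i, ∑ j, p k * p l * (x i * B i k * B i l) * (x j * B j k * B j l) :=
        sum_congr rfl fun k _ => sum_comm

omit [DecidableEq V] in
theorem had2_ker (p : ι → ℝ) (hp : ∀ k, 0 ≤ p k) (B : V → ι → ℝ) (x : V → ℝ)
    (h : ∑ i, ∑ j, (∑ k, p k * B i k * B j k) ^ 2 * x i * x j = 0) (y z : V) :
    ∑ m, x m * (∑ k, p k * B m k * B y k) * (∑ k, p k * B m k * B z k) = 0 := by
  rw [had2_eq] at h
  have hnn : ∀ k l, 0 ≤ p k * p l * (∑ i, x i * B i k * B i l) ^ 2 := fun k l =>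
    mul_nonneg (mul_nonneg (hp k) (hp l)) (sq_nonneg _)
  have h1 : ∀ k l, p k * p l * (∑ i, x i * B i k * B i l) = 0 := by
    intro k l
    have h2 := (sum_eq_zero_iff_of_nonneg (fun k _ => sum_nonneg fun l _ => hnn k l)).1 h k
      (mem_univ k)
    have h3 := (sum_eq_zero_iff_of_nonneg (fun l _ => hnn k l)).1 h2 l (mem_univ l)
    rcases mul_eq_zero.1 h3 with h4 | h4
    · rw [h4, zero_mul]
    · rw [pow_eq_zero_iff (two_ne_zero)] at h4
      rw [h4, mul_zero]
  have h2 : ∀ m, x m * (∑ k, p k * B m k * B y k) * (∑ k, p k * B m k * B z k)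
      = ∑ k, ∑ l, (B y k * B z l) * (p k * p l * (x m * B m k * B m l)) := by
    intro m
    rw [mul_assoc, sum_mul_sum, mul_sum]
    refine sum_congr rfl fun k _ => ?_
    rw [mul_sum]
    exact sum_congr rfl fun l _ => by ring
  simp_rw [h2]
  rw [sum_comm]
  refine sum_eq_zero fun k _ => ?_
  rw [sum_comm]
  refine sum_eq_zero fun l _ => ?_
  rw [← mul_sum, ← mul_sum, h1 k l, mul_zero]

/-- kernel vectors -/
structure Ker (G : SimpleGraph V) (P : V → V → ℝ) (x : V → ℝ) : Prop where
  h1 : ∀ y z, ∑ m, x m * P m y * P m z = 0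
  h2 : ∀ u v, ¬ G.Adj u v → x u ≠ x v → P u v = 0

open Classical in
/-- what is known about the Gram kernel in the equality case -/
structure Ext (G : SimpleGraph V) (P : V → V → ℝ) (ε : ℝ) : Prop where
  sgn : ∀ i j, G.Adj i j → 0 < ε * P i j
  tree : (∀ i j l, G.Adj i j → G.Adj j l → G.Adj i l → False) →
    (∑ i, ∑ j, if G.Adj i j then (1 : ℝ) else 0) = 2 * ((Fintype.card V : ℝ) - 1)
  ker : ∀ i j l, G.Adj i j → G.Adj j l → G.Adj i l → ∃ x : V → ℝ, Ker G P x ∧ x i = 1 ∧
    x j = -1 ∧ x l = 0 ∧ ∀ m, G.Adj l m → m ≠ i → m ≠ j → x m = 0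

theorem gram_eq (G : SimpleGraph V) [DecidableRel G.Adj] (hG : G.Connected)
    (p : ι → ℝ) (hp : ∀ k, 0 ≤ p k) (B : V → ι → ℝ) (ε : ℝ) (hε : ε = 1 ∨ ε = -1)
    (hle : ∑ i, ∑ j, ((if G.Adj i j then (1 : ℝ) else 0) - ε * ∑ k, p k * B i k * B j k) ^ 2
      ≤ (Fintype.card V : ℝ) - 1) :
    Ext G (fun i j => ∑ k, p k * B i k * B j k) ε := by
  set P : V → V → ℝ := fun i j => ∑ k, p k * B i k * B j k with hP
  have hPs : ∀ i j, P i j = P j i := fun i j => sum_congr rfl fun k _ => by ring
  change ∑ i, ∑ j, ((if G.Adj i j then (1 : ℝ) else 0) - ε * P i j) ^ 2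
      ≤ (Fintype.card V : ℝ) - 1 at hle
  have hPQ : ∀ x : V → ℝ, 0 ≤ ∑ i, ∑ j, P i j ^ 2 * x i * x j := had2 p hp B
  have hPK : ∀ x : V → ℝ, ∑ i, ∑ j, P i j ^ 2 * x i * x j = 0 →
      ∀ y z, ∑ m, x m * P m y * P m z = 0 := had2_ker p hp B
  clear_value P
  set a : V → V → ℝ := fun i j => if G.Adj i j then max (1 - |P i j|) 0 else 0 with ha
  set c : V → V → ℝ := fun i j => if G.Adj i j then P i j ^ 2 else 0 with hc
  set w : V → V → ℝ := fun i j => if G.Adj i j then 0 else P i j ^ 2 with hw
  set d : V → ℝ := fun i => ∑ j, w i j with hd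
  have hws : ∀ i j, w i j = w j i := by
    intro i j
    simp only [hw, G.adj_comm i j, hPs i j]
  have hw0 : ∀ i j, 0 ≤ w i j := by
    intro i j
    simp only [hw]
    split_ifs
    · exact le_rfl
    · positivity
  have W : Wt G a c := by
    refine ⟨?_, ?_, ?_, ?_, ?_, ?_, ?_, ?_⟩
    · intro i j
      simp only [ha]
      split_ifs
      · exact le_max_right _ _
      · exact le_rfl
    · intro i j
      simp only [ha, G.adj_comm i j, hPs i j]
    · intro i j
      simp only [ha]
      split_ifs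
      · refine max_le ?_ zero_le_one
        have := abs_nonneg (P i j)
        linarith
      · exact zero_le_one
    · intro i j
      simp only [hc, G.adj_comm i j, hPs i j]
    · intro i j
      simp only [hc]
      split_ifs
      · positivity
      · exact le_rfl
    · intro i j hij
      simp only [ha, hc, if_pos hij]
      rw [← sq_abs (P i j)]
      rcases le_total (1 - |P i j|) 0 with h | h
      · rw [max_eq_right h]
        nlinarith
      · rw [max_eq_left h]
        nlinarith
    · intro i j hij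
      simp only [hc, if_neg hij]
    · intro i j hij
      simp only [ha, if_neg hij]
  have hw1 : ∀ x : V → ℝ, 0 ≤ ∑ i, ∑ j, w i j * (x i - x j) ^ 2 := fun x =>
    sum_nonneg fun i _ => sum_nonneg fun j _ => mul_nonneg (hw0 i j) (sq_nonneg _)
  have hQe : ∀ x, Q c univ d x = ∑ i, ∑ j, P i j ^ 2 * x i * x j
        + (∑ i, ∑ j, w i j * (x i - x j) ^ 2) / 2 := by
    intro x
    have e1 : Q c univ d x = ∑ i, ∑ j, P i j ^ 2 * x i * x j
        + ∑ i, ∑ j, w i j * (x i ^ 2 - x i * x j) := by
      unfold Q F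
      rw [← sum_add_distrib, ← sum_add_distrib]
      refine sum_congr rfl fun i _ => ?_
      simp only [hd]
      rw [sum_mul, ← sum_add_distrib, ← sum_add_distrib]
      refine sum_congr rfl fun j _ => ?_
      simp only [hw, hc]
      split_ifs
      · ring
      · ring
    have e2 : ∑ i, ∑ j, w i j * x i ^ 2 = ∑ i, ∑ j, w i j * x j ^ 2 := by
      rw [sum_comm]
      exact sum_congr rfl fun i _ => sum_congr rfl fun j _ => by rw [hws]
    have e3 : 2 * ∑ i, ∑ j, w i j * (x i ^ 2 - x i * x j) = ∑ i, ∑ j, w i j * (x i - x j) ^ 2 := by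
      have e4 : ∑ i, ∑ j, w i j * (x i ^ 2 - x i * x j)
          = ∑ i, ∑ j, w i j * x i ^ 2 - ∑ i, ∑ j, w i j * (x i * x j) := by
        rw [← sum_sub_distrib]
        refine sum_congr rfl fun i _ => ?_
        rw [← sum_sub_distrib]
        exact sum_congr rfl fun j _ => by ring
      have e5 : ∑ i, ∑ j, w i j * (x i - x j) ^ 2
          = ∑ i, ∑ j, w i j * x i ^ 2 + ∑ i, ∑ j, w i j * x j ^ 2
            - 2 * ∑ i, ∑ j, w i j * (x i * x j) := by
        rw [mul_sum, ← sum_add_distrib, ← sum_sub_distrib]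
        refine sum_congr rfl fun i _ => ?_
        rw [mul_sum, ← sum_add_distrib, ← sum_sub_distrib]
        exact sum_congr rfl fun j _ => by ring
      rw [e4, e5, ← e2]
      ring
    rw [e1, ← e3]
    ring
  have hQ : ∀ x, 0 ≤ Q c univ d x := by
    intro x
    rw [hQe]
    have h1 := hPQ x
    have h2 := hw1 x
    linarith
  have hker : ∀ x, Q c univ d x = 0 → Ker G P x := by
    intro x hx
    rw [hQe] at hx
    have h1 := hPQ x
    have h2 := hw1 x
    refine ⟨hPK x (by linarith), ?_⟩
    intro u v huv hne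
    have h3 : ∑ i, ∑ j, w i j * (x i - x j) ^ 2 = 0 := by linarith
    have h4 := (sum_eq_zero_iff_of_nonneg (fun i _ => sum_nonneg fun j _ =>
      mul_nonneg (hw0 i j) (sq_nonneg (x i - x j)))).1 h3 u (mem_univ u)
    have h5 := (sum_eq_zero_iff_of_nonneg (fun j _ =>
      mul_nonneg (hw0 u j) (sq_nonneg (x u - x j)))).1 h4 v (mem_univ v)
    rcases mul_eq_zero.1 h5 with h6 | h6
    · simp only [hw, if_neg huv] at h6
      exact pow_eq_zero_iff (two_ne_zero) |>.1 h6
    · rw [pow_eq_zero_iff (two_ne_zero)] at h6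
      exact absurd (sub_eq_zero.1 h6) hne
  have hPhi : Phi a univ d = ∑ i, ∑ j, (w i j + a i j ^ 2) := by
    unfold Phi F
    rw [← sum_add_distrib]
    refine sum_congr rfl fun i _ => ?_
    simp only [hd]
    rw [← sum_add_distrib]
  have hterm : ∀ i j, w i j + a i j ^ 2 ≤ ((if G.Adj i j then (1 : ℝ) else 0) - ε * P i j) ^ 2 := by
    intro i j
    simp only [hw, ha]
    by_cases hij : G.Adj i j
    · simp only [if_pos hij]
      have h2 : 1 - |P i j| ≤ 1 - ε * P i j := by
        rcases hε with h | h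
        · rw [h]; have := le_abs_self (P i j); linarith
        · rw [h]; have := neg_abs_le (P i j); linarith
      rcases le_total (1 - |P i j|) 0 with h | h
      · rw [max_eq_right h]
        have := sq_nonneg (1 - ε * P i j)
        linarith
      · rw [max_eq_left h]
        nlinarith
    · simp only [if_neg hij]
      rcases hε with h | h
      · rw [h]; apply le_of_eq; ring
      · rw [h]; apply le_of_eq; ring
  have h0 := main W (Fintype.card V) univ card_univ d (Conn_univ hG) hQ
  have h1 : Phi a univ d ≤ (Fintype.card V : ℝ) - 1 := by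
    rw [hPhi]
    exact (sum_le_sum fun i _ => sum_le_sum fun j _ => hterm i j).trans hle
  have hgood := main_eq W (Fintype.card V) univ card_univ d (Conn_univ hG) hQ h1
  -- termwise equality
  have hteq : ∀ i j, ((if G.Adj i j then (1 : ℝ) else 0) - ε * P i j) ^ 2 - (w i j + a i j ^ 2) = 0 := by
    have h2 : ∑ i, ∑ j, (((if G.Adj i j then (1 : ℝ) else 0) - ε * P i j) ^ 2
        - (w i j + a i j ^ 2)) ≤ 0 := by
      have h3 : ∑ i, ∑ j, (((if G.Adj i j then (1 : ℝ) else 0) - ε * P i j) ^ 2
        - (w i j + a i j ^ 2)) = ∑ i, ∑ j, ((if G.Adj i j then (1 : ℝ) else 0) - ε * P i j) ^ 2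
          - ∑ i, ∑ j, (w i j + a i j ^ 2) := by
        rw [← sum_sub_distrib]
        exact sum_congr rfl fun i _ => by rw [← sum_sub_distrib]
      rw [h3, ← hPhi]
      linarith
    have hnn : ∀ i j, 0 ≤ ((if G.Adj i j then (1 : ℝ) else 0) - ε * P i j) ^ 2
        - (w i j + a i j ^ 2) := fun i j => sub_nonneg.2 (hterm i j)
    have h4 : ∑ i, ∑ j, (((if G.Adj i j then (1 : ℝ) else 0) - ε * P i j) ^ 2
        - (w i j + a i j ^ 2)) = 0 :=
      le_antisymm h2 (sum_nonneg fun i _ => sum_nonneg fun j _ => hnn i j)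
    intro i j
    have h5 := (sum_eq_zero_iff_of_nonneg (fun i _ => sum_nonneg fun j _ => hnn i j)).1 h4 i
      (mem_univ i)
    exact (sum_eq_zero_iff_of_nonneg (fun j _ => hnn i j)).1 h5 j (mem_univ j)
  refine ⟨?_, ?_, ?_⟩
  · intro i j hij
    have h2 := hteq i j
    have h3 := hgood.P i (mem_univ i) j (mem_univ j) hij
    have h4 := W.ha0 i j
    simp only [if_pos hij, hw] at h2
    by_contra hcon
    push Not at hcon
    nlinarith
  · intro hno
    have := hgood.T (fun i _ j _ l _ => hno i j l)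
    rw [card_univ] at this
    exact this
  · intro i j l hij hjl hil
    obtain ⟨x, hx, hxi, hxj, hxl, hxm⟩ := hgood.K i (mem_univ i) j (mem_univ j) l (mem_univ l)
      hij hjl hil
    exact ⟨x, hker x hx, hxi, hxj, hxl, fun m => hxm m (mem_univ m)⟩

/-- In a triangle the rows of the kernel are proportional. -/
theorem Ext.row {G : SimpleGraph V} {P : V → V → ℝ} {ε : ℝ} (e : Ext G P ε) {i j l : V}
    (hij : G.Adj i j) (hjl : G.Adj j l) (hil : G.Adj i l) (z : V) :
    P i l * P i z = P j l * P j z := by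
  obtain ⟨x, hx, hxi, hxj, hxl, hxm⟩ := e.ker i j l hij hjl hil
  have h1 := hx.h1 l z
  have h2 : ∀ m, x m * P m l * P m z = (if m = i then P i l * P i z else 0)
      - (if m = j then P j l * P j z else 0) := by
    intro m
    by_cases hmi : m = i
    · subst hmi
      rw [if_pos rfl, if_neg hij.ne, hxi]; ring
    · by_cases hmj : m = j
      · subst hmj
        rw [if_neg hmi, if_pos rfl, hxj]; ring
      · rw [if_neg hmi, if_neg hmj]
        by_cases hlm : G.Adj l m
        · rw [hxm m hlm hmi hmj]; ring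
        · by_cases hx0 : x m = 0
          · rw [hx0]; ring
          · have : P m l = 0 := hx.h2 m l (fun h => hlm h.symm) (by rw [hxl]; exact hx0)
            rw [this]; ring
  rw [sum_congr rfl (fun m _ => h2 m), sum_sub_distrib, sum_ite_eq', sum_ite_eq', if_pos (mem_univ _),
    if_pos (mem_univ _)] at h1
  linarith

/-- For `ε = -1` there is no triangle. -/
theorem Ext.no_triangle {G : SimpleGraph V} {P : V → V → ℝ} (e : Ext G P (-1))
    (hd : ∀ j, 0 ≤ P j j) {i j l : V}
    (hij : G.Adj i j) (hjl : G.Adj j l) (hil : G.Adj i l) : False := by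
  have h1 := e.row hij hjl hil j
  have h2 := e.sgn i j hij
  have h3 := e.sgn j l hjl
  have h4 := e.sgn i l hil
  have h5 := hd j
  have h6 : 0 < P i l * P i j := mul_pos_of_neg_of_neg (by linarith) (by linarith)
  have h7 : P j l * P j j ≤ 0 := mul_nonpos_of_nonpos_of_nonneg (by linarith) h5
  linarith

/-- For `ε = 1` two vertices of a triangle have equal rows. -/
theorem Ext.row_eq {G : SimpleGraph V} {P : V → V → ℝ} (e : Ext G P 1) {i j l : V}
    (hij : G.Adj i j) (hjl : G.Adj j l) (hil : G.Adj i l) (z : V) : P i z = P j z := by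
  have h1 := e.row hij hjl hil l
  have h2 := e.sgn j l hjl
  have h3 := e.sgn i l hil
  have h4 : P i l = P j l := by nlinarith
  have h5 := e.row hij hjl hil z
  rw [h4] at h5
  have h6 : P j l ≠ 0 := ne_of_gt (by linarith)
  exact mul_left_cancel₀ h6 h5

/-- For `ε = 1` a neighbour of a vertex of a triangle is adjacent to the whole triangle. -/
theorem Ext.nbr {G : SimpleGraph V} {P : V → V → ℝ} (e : Ext G P 1)
    (hPs : ∀ i j, P i j = P j i) {i j v u : V}
    (hij : G.Adj i j) (hjv : G.Adj j v) (hiv : G.Adj i v) (hvu : G.Adj v u) (hui : u ≠ i) :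
    G.Adj u i := by
  by_cases huj : u = j
  · rw [huj]; exact hij.symm
  by_contra hcon
  obtain ⟨x, hx, hxi, hxj, hxv, hxm⟩ := e.ker i j v hij hjv hiv
  have h1 : P u i = 0 := hx.h2 u i hcon (by rw [hxm u hvu hui huj, hxi]; norm_num)
  have h2 : P i u = P v u := e.row_eq hiv hjv.symm hij u
  have h3 := e.sgn v u hvu
  rw [← h2, hPs i u, h1] at h3
  norm_num at h3

/-- For `ε = 1` a connected graph with a triangle is complete. -/
theorem Ext.complete {G : SimpleGraph V} {P : V → V → ℝ} (e : Ext G P 1) (hG : G.Connected)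
    (hPs : ∀ i j, P i j = P j i) {i j l : V}
    (hij : G.Adj i j) (hjl : G.Adj j l) (hil : G.Adj i l) : G = ⊤ := by
  -- a neighbour of a vertex of a triangle lies in a triangle with it
  have step : ∀ i : V, (∃ j l, G.Adj i j ∧ G.Adj j l ∧ G.Adj i l) → ∀ y, G.Adj i y →
      ∃ w, G.Adj i w ∧ G.Adj w y := by
    rintro i ⟨j, l, hij, hjl, hil⟩ y hiy
    by_cases hyj : y = j
    · subst hyj
      exact ⟨l, hil, hjl.symm⟩
    · exact ⟨j, hij, (e.nbr hPs hjl hil.symm hij.symm hiy hyj).symm⟩
  -- a vertex of a triangle is adjacent to all others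
  have dom : ∀ i : V, (∃ j l, G.Adj i j ∧ G.Adj j l ∧ G.Adj i l) → ∀ z, z ≠ i → G.Adj i z := by
    intro i hi z hz
    by_contra hcon
    obtain ⟨p⟩ := hG.preconnected i z
    obtain ⟨dd, _, h1, h2⟩ := p.exists_boundary_dart {y | y = i ∨ G.Adj i y} (Or.inl rfl)
      (by rintro (h | h)
          · exact hz h
          · exact hcon h)
    have hadj := dd.adj
    rcases h1 with h1 | h1
    · rw [h1] at hadj
      exact h2 (Or.inr hadj)
    · obtain ⟨w, hiw, hwy⟩ := step i hi dd.fst h1
      have h3 : dd.snd ≠ i := fun h => h2 (Or.inl h)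
      exact h2 (Or.inr (e.nbr hPs hiw hwy h1 hadj h3).symm)
  ext y z
  rw [SimpleGraph.top_adj]
  refine ⟨fun h => h.ne, fun hne => ?_⟩
  have hi : ∃ j l, G.Adj i j ∧ G.Adj j l ∧ G.Adj i l := ⟨j, l, hij, hjl, hil⟩
  by_cases hyi : y = i
  · subst hyi
    exact dom y hi z hne.symm
  · have hiy := dom i hi y hyi
    obtain ⟨w, hiw, hwy⟩ := step i hi y hiy
    exact dom y ⟨i, w, hiy.symm, hiw, hwy.symm⟩ z hne.symm

section graph

variable (G : SimpleGraph V) [DecidableRel G.Adj]

omit [DecidableEq V] in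
/-- number of ordered adjacent pairs -/
theorem sum_adj : (∑ i, ∑ j, if G.Adj i j then (1 : ℝ) else 0) = 2 * (G.edgeFinset.card : ℝ) := by
  have h1 : ∀ i, (∑ j, if G.Adj i j then (1 : ℝ) else 0) = G.degree i := by
    intro i
    rw [sum_ite, sum_const_zero, add_zero, sum_const, nsmul_eq_mul, mul_one]
    congr 1
    rw [← SimpleGraph.card_neighborFinset_eq_degree, SimpleGraph.neighborFinset_eq_filter]
  simp_rw [h1]
  have h2 := G.sum_degrees_eq_twice_card_edges
  exact_mod_cast h2

theorem tree_iff (hG : G.Connected) : G.IsTree ↔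
    (∑ i, ∑ j, if G.Adj i j then (1 : ℝ) else 0) = 2 * ((Fintype.card V : ℝ) - 1) := by
  rw [sum_adj]
  constructor
  · intro h
    have := h.card_edgeFinset
    have h2 : (G.edgeFinset.card : ℝ) + 1 = Fintype.card V := by exact_mod_cast this
    linarith
  · intro h
    rw [SimpleGraph.isTree_iff_connected_and_card]
    refine ⟨hG, ?_⟩
    have h2 : (G.edgeFinset.card : ℝ) + 1 = Fintype.card V := by linarith
    have h3 : G.edgeFinset.card + 1 = Fintype.card V := by exact_mod_cast h2
    rw [Nat.card_eq_fintype_card, Nat.card_eq_fintype_card, ← h3, SimpleGraph.edgeFinset_card]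

variable (h : (G.adjMatrix ℝ).IsHermitian)

/-- sum of the two square energies -/
theorem sum_sq : (∑ i, (max (h.eigenvalues i) 0) ^ 2) + ∑ i, (min (h.eigenvalues i) 0) ^ 2
    = ∑ i, ∑ j, if G.Adj i j then (1 : ℝ) else 0 := by
  obtain ⟨B, ho, hAB⟩ := spec_entry _ h
  have h1 := frob B ho h.eigenvalues
  have h2 : ∀ i j, (∑ k, h.eigenvalues k * B i k * B j k) ^ 2 = if G.Adj i j then (1 : ℝ) else 0 := by
    intro i j
    rw [← hAB i j, SimpleGraph.adjMatrix_apply]
    split_ifs <;> norm_num
  simp_rw [h2] at h1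
  rw [h1, ← sum_add_distrib]
  refine sum_congr rfl fun i _ => ?_
  rcases le_total (h.eigenvalues i) 0 with h3 | h3
  · rw [max_eq_right h3, min_eq_left h3]; ring
  · rw [max_eq_left h3, min_eq_right h3]; ring

theorem tree_energy (hT : G.IsTree) :
    (∑ i, (max (h.eigenvalues i) 0) ^ 2) = (Fintype.card V : ℝ) - 1 ∧
    (∑ i, (min (h.eigenvalues i) 0) ^ 2) = (Fintype.card V : ℝ) - 1 := by
  have h1 := square_energy G hT.1 h
  have h2 := sum_sq G h
  rw [(tree_iff G hT.1).1 hT] at h2
  constructor <;> linarith [h1.1, h1.2]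

/-- the equality case for the positive square energy -/
theorem plus_eq (hG : G.Connected)
    (he : (∑ i, (max (h.eigenvalues i) 0) ^ 2) ≤ (Fintype.card V : ℝ) - 1) : G.IsTree := by
  obtain ⟨B, ho, hAB⟩ := spec_entry _ h
  have hp : ∀ k, 0 ≤ - min (h.eigenvalues k) 0 := fun k => by
    have := min_le_right (h.eigenvalues k) 0; linarith
  have e := gram_eq G hG (fun k => - min (h.eigenvalues k) 0) hp B (-1) (Or.inr rfl) (by
    rw [← frob B ho] at he
    refine le_of_eq_of_le ?_ he
    refine sum_congr rfl fun i _ => sum_congr rfl fun j _ => ?_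
    congr 1
    have h2 := hAB i j
    rw [SimpleGraph.adjMatrix_apply] at h2
    rw [h2, mul_sum, ← sum_sub_distrib]
    refine sum_congr rfl fun k _ => ?_
    have h3 := max_add_min (h.eigenvalues k) 0
    rw [show max (h.eigenvalues k) 0 = h.eigenvalues k - min (h.eigenvalues k) 0 by linarith]
    ring)
  rw [tree_iff G hG]
  have h5 := e.tree (fun i j l hij hjl hil => e.no_triangle (fun j => ?_) hij hjl hil)
  · rw [← h5]
    refine sum_congr rfl fun i _ => sum_congr rfl fun j _ => ?_
    by_cases hij : G.Adj i j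
    · rw [if_pos hij, if_pos hij]
    · rw [if_neg hij, if_neg hij]
  · exact sum_nonneg fun k _ => by
      have := mul_nonneg (hp k) (mul_self_nonneg (B j k))
      rw [mul_assoc]; exact this

/-- the equality case for the negative square energy -/
theorem minus_eq (hG : G.Connected)
    (he : (∑ i, (min (h.eigenvalues i) 0) ^ 2) ≤ (Fintype.card V : ℝ) - 1) :
    G.IsTree ∨ G = ⊤ := by
  obtain ⟨B, ho, hAB⟩ := spec_entry _ h
  have hp : ∀ k, 0 ≤ max (h.eigenvalues k) 0 := fun k => le_max_right _ _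
  have e := gram_eq G hG (fun k => max (h.eigenvalues k) 0) hp B 1 (Or.inl rfl) (by
    rw [← frob B ho] at he
    refine le_of_eq_of_le ?_ he
    refine sum_congr rfl fun i _ => sum_congr rfl fun j _ => ?_
    congr 1
    have h2 := hAB i j
    rw [SimpleGraph.adjMatrix_apply] at h2
    rw [h2, mul_sum, ← sum_sub_distrib]
    refine sum_congr rfl fun k _ => ?_
    have h3 := max_add_min (h.eigenvalues k) 0
    rw [show min (h.eigenvalues k) 0 = h.eigenvalues k - max (h.eigenvalues k) 0 by linarith]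
    ring)
  by_cases htri : ∀ i j l, G.Adj i j → G.Adj j l → G.Adj i l → False
  · left
    rw [tree_iff G hG]
    have h5 := e.tree htri
    rw [← h5]
    refine sum_congr rfl fun i _ => sum_congr rfl fun j _ => ?_
    by_cases hij : G.Adj i j
    · rw [if_pos hij, if_pos hij]
    · rw [if_neg hij, if_neg hij]
  · right
    push Not at htri
    obtain ⟨i, j, l, hij, hjl, hil, _⟩ := htri
    exact e.complete hG (fun i j => sum_congr rfl fun k _ => by ring) hij hjl hil

end graph

end Pool.Agent.H626.SE
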